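import Pool.Agent.N610.HX.Stm

set_option autoImplicit false

/-!
# Many points with exceptional densities (project HX, helper339)
-/

namespace Pool.Agent.N610.HX

open Finset Filter Topology

namespace GH

theorem count {B : Finset ℕ} {n : ℕ} (hn : ∀ m ∈ B, n ≤ m) {y : ℝ} (hy : 1 ≤ y) :
    (B.card : ℝ) ≤ ((B.filter fun m : ℕ => (n : ℝ) + y ≤ m).card : ℝ) + 2 * y := by
  have h1 := Finset.card_filter_add_card_filter_not (s := B) (fun m : ℕ => (n : ℝ) + y ≤ m)
  have h2 : (B.filter fun m : ℕ => ¬ (n : ℝ) + y ≤ m) ⊆ Finset.Icc n (n + ⌊y⌋₊) := by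
    intro m hm
    rw [Finset.mem_filter] at hm
    have h3 := hn m hm.1
    have h4 : (m : ℝ) < n + y := not_le.mp hm.2
    rw [Finset.mem_Icc]
    refine ⟨h3, ?_⟩
    have h5 : ((m - n : ℕ) : ℝ) ≤ y := by
      rw [Nat.cast_sub h3]
      linarith
    have h6 := Nat.le_floor h5
    omega
  have h3 := Finset.card_le_card h2
  rw [Nat.card_Icc] at h3
  have h4 : (⌊y⌋₊ : ℝ) ≤ y := Nat.floor_le (by linarith)
  have h5 : ((B.filter fun m : ℕ => ¬ (n : ℝ) + y ≤ m).card : ℝ) ≤ y + 1 := by
    have h6 : (B.filter fun m : ℕ => ¬ (n : ℝ) + y ≤ m).card ≤ ⌊y⌋₊ + 1 := by omega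
    have h7 : ((B.filter fun m : ℕ => ¬ (n : ℝ) + y ≤ m).card : ℝ) ≤ ((⌊y⌋₊ + 1 : ℕ) : ℝ) := by
      exact_mod_cast h6
    push_cast at h7
    linarith
  have h6 : (B.card : ℝ) = ((B.filter fun m : ℕ => (n : ℝ) + y ≤ m).card : ℝ) +
      ((B.filter fun m : ℕ => ¬ (n : ℝ) + y ≤ m).card : ℝ) := by
    rw [← h1]
    push_cast
    ring
  linarith

theorem smaller {B : Finset ℕ} {n : ℕ} (hn : n ∈ B) {y : ℝ} (hy : 1 ≤ y) :
    (B.filter fun m : ℕ => (n : ℝ) + y ≤ m).card < B.card := by
  apply Finset.card_lt_card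
  rw [Finset.filter_ssubset]
  exact ⟨n, hn, by linarith⟩

theorem lower {G : ℝ → ℝ} (hG : Monotone G) {z S S1 S2 α β : ℝ} (hα : 0 ≤ α)
    (hS : 0 ≤ S) (hS1 : S ≤ S1) (h1 : 1 ≤ S1) (h12 : S1 ≤ S2) (hαβ : α ≤ β) :
    ∀ (k : ℕ) (x : ℝ) (B : Finset ℕ), B.card ≤ k → x ≤ z + S2 →
    (∀ n ∈ B, x ≤ n ∧ (n : ℝ) ≤ z) →
    (∀ t y, x ≤ t → S ≤ y → t + y ≤ z + S2 → α * y ≤ G (t + y) - G t) →
    (∀ n ∈ B, ∃ y, S1 ≤ y ∧ y ≤ S2 ∧ β * y ≤ G (n + y) - G n) →
      α * (1 - S / S1) * (z - x) + (β - α) * (B.card / 2) - α * S ≤ G (z + S2) - G x := by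
  have hS1pos : 0 < S1 := by linarith
  have hq0 : 0 ≤ S / S1 := by positivity
  have hq1 : S / S1 ≤ 1 := (div_le_one hS1pos).mpr hS1
  intro k
  induction k with
  | zero =>
    intro x B hB hx _ hd _
    have hB0 : B.card = 0 := by omega
    rw [hB0]
    have hαS : 0 ≤ α * S := mul_nonneg hα hS
    have hα1 : 0 ≤ α * (1 - S / S1) := mul_nonneg hα (by linarith)
    rcases le_or_gt x z with h | h
    · have h2 := hd x (z + S2 - x) le_rfl (by linarith) (by linarith)
      rw [show x + (z + S2 - x) = z + S2 by ring] at h2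
      have h3 : α * (1 - S / S1) * (z - x) ≤ α * (z - x) := by
        apply mul_le_mul_of_nonneg_right _ (by linarith)
        nlinarith
      have h4 : α * (z - x) ≤ α * (z + S2 - x) := mul_le_mul_of_nonneg_left (by linarith) hα
      push_cast
      linarith
    · have h2 : G x ≤ G (z + S2) := hG hx
      have h3 : α * (1 - S / S1) * (z - x) ≤ 0 :=
        mul_nonpos_of_nonneg_of_nonpos hα1 (by linarith)
      push_cast
      linarith
  | succ k ih =>
    intro x B hB hx hBx hd hB2
    rcases Finset.eq_empty_or_nonempty B with h0 | hne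
    · exact ih x B (by rw [h0]; simp) hx hBx hd hB2
    · have hn := B.min'_mem hne
      set n := B.min' hne with hndef
      have hmin : ∀ m ∈ B, n ≤ m := fun m hm => B.min'_le m hm
      obtain ⟨y, hy1, hy2, hy⟩ := hB2 n hn
      have hnx := hBx n hn
      have hy0 : 1 ≤ y := by linarith
      have hc := count hmin hy0
      have hs := smaller hn hy0
      have hih := ih (n + y) (B.filter fun m : ℕ => (n : ℝ) + y ≤ m) (by omega) (by linarith)
        (by
          intro m hm
          rw [Finset.mem_filter] at hm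
          exact ⟨hm.2, (hBx m hm.1).2⟩)
        (fun t y' ht => hd t y' (by linarith))
        (fun m hm => hB2 m (Finset.mem_filter.mp hm).1)
      have hgap : α * (n - x - S) ≤ G n - G x := by
        rcases le_or_gt S (n - x) with h | h
        · have h2 := hd x (n - x) le_rfl h (by linarith)
          rw [show x + ((n : ℝ) - x) = n by ring] at h2
          have h3 : 0 ≤ α * S := mul_nonneg hα hS
          linarith
        · have h2 : G x ≤ G n := hG hnx.1
          have h3 : α * (n - x - S) ≤ 0 := mul_nonpos_of_nonneg_of_nonpos hα (by linarith)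
          linarith
      set K : ℝ := ((B.filter fun m : ℕ => (n : ℝ) + y ≤ m).card : ℝ) with hK
      have hc2 : (β - α) * ((B.card : ℝ) / 2) ≤ (β - α) * (K / 2 + y) :=
        mul_le_mul_of_nonneg_left (by linarith) (by linarith)
      have e1 : 0 ≤ α * (S / S1) * (n - x) :=
        mul_nonneg (mul_nonneg hα hq0) (by linarith)
      have e2 : 0 ≤ α * (S / S1 * y - S) := by
        apply mul_nonneg hα
        have : S / S1 * S1 ≤ S / S1 * y := mul_le_mul_of_nonneg_left hy1 hq0
        rw [div_mul_cancel₀ _ hS1pos.ne'] at this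
        linarith
      have e3 : α * (1 - S / S1) * (z - (n + y)) = α * (1 - S / S1) * (z - x) -
          α * (1 - S / S1) * (n + y - x) := by ring
      have e4 : α * (1 - S / S1) * (n + y - x) = α * (n - x) + α * y -
          α * (S / S1) * (n - x) - α * (S / S1 * y) := by ring
      have e5 : α * (S / S1 * y - S) = α * (S / S1 * y) - α * S := by ring
      have e6 : α * (n - x - S) = α * (n - x) - α * S := by ring
      have e7 : (β - α) * (K / 2 + y) = (β - α) * (K / 2) + β * y - α * y := by ring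
      linarith

theorem upper {G : ℝ → ℝ} (hG : Monotone G) {z S S1 S2 α β : ℝ} (hα : 0 ≤ α)
    (hS : 0 ≤ S) (h1 : 1 ≤ S1) (h12 : S1 ≤ S2) (hαβ : β ≤ α) :
    ∀ (k : ℕ) (x : ℝ) (B : Finset ℕ), B.card ≤ k → x ≤ z + S2 →
    (∀ n ∈ B, x ≤ n ∧ (n : ℝ) ≤ z) →
    (∀ t y, x ≤ t → S ≤ y → t + y ≤ z + S2 + S → G (t + y) - G t ≤ α * y) →
    (∀ n ∈ B, ∃ y, S1 ≤ y ∧ y ≤ S2 ∧ G (n + y) - G n ≤ β * y) →
      G z - G x ≤ α * (1 + S / S1) * (z + S2 - x) - (α - β) * (B.card / 2) + α * S := by
  have hS1pos : 0 < S1 := by linarith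
  have hq0 : 0 ≤ S / S1 := by positivity
  have hαS : 0 ≤ α * S := mul_nonneg hα hS
  intro k
  induction k with
  | zero =>
    intro x B hB hx _ hd _
    have hB0 : B.card = 0 := by omega
    rw [hB0]
    have hα1 : 0 ≤ α * (1 + S / S1) := mul_nonneg hα (by linarith)
    have h0 : 0 ≤ α * (1 + S / S1) * (z + S2 - x) := mul_nonneg hα1 (by linarith)
    rcases le_or_gt z x with h | h
    · have h2 : G z ≤ G x := hG h
      push_cast
      linarith
    · rcases le_or_gt S (z - x) with h2 | h2
      · have h3 := hd x (z - x) le_rfl h2 (by linarith)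
        rw [show x + (z - x) = z by ring] at h3
        have h4 : α * (z - x) ≤ α * (1 + S / S1) * (z + S2 - x) := by
          have h5 : α * (z - x) ≤ α * (z + S2 - x) := mul_le_mul_of_nonneg_left (by linarith) hα
          have h6 : 0 ≤ α * (S / S1) * (z + S2 - x) :=
            mul_nonneg (mul_nonneg hα hq0) (by linarith)
          nlinarith
        push_cast
        linarith
      · have h3 := hd x S le_rfl le_rfl (by linarith)
        have h4 : G z ≤ G (x + S) := hG (by linarith)
        push_cast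
        linarith
  | succ k ih =>
    intro x B hB hx hBx hd hB2
    rcases Finset.eq_empty_or_nonempty B with h0 | hne
    · exact ih x B (by rw [h0]; simp) hx hBx hd hB2
    · have hn := B.min'_mem hne
      set n := B.min' hne with hndef
      have hmin : ∀ m ∈ B, n ≤ m := fun m hm => B.min'_le m hm
      obtain ⟨y, hy1, hy2, hy⟩ := hB2 n hn
      have hnx := hBx n hn
      have hy0 : 1 ≤ y := by linarith
      have hc := count hmin hy0
      have hs := smaller hn hy0
      have hih := ih (n + y) (B.filter fun m : ℕ => (n : ℝ) + y ≤ m) (by omega) (by linarith)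
        (by
          intro m hm
          rw [Finset.mem_filter] at hm
          exact ⟨hm.2, (hBx m hm.1).2⟩)
        (fun t y' ht => hd t y' (by linarith))
        (fun m hm => hB2 m (Finset.mem_filter.mp hm).1)
      have hgap : G n - G x ≤ α * (n - x + S) := by
        rcases le_or_gt S (n - x) with h | h
        · have h2 := hd x (n - x) le_rfl h (by linarith)
          rw [show x + ((n : ℝ) - x) = n by ring] at h2
          linarith
        · have h2 := hd x S le_rfl le_rfl (by linarith)
          have h3 : G n ≤ G (x + S) := hG (by linarith)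
          have h4 : 0 ≤ α * (n - x) := mul_nonneg hα (by linarith)
          linarith
      set K : ℝ := ((B.filter fun m : ℕ => (n : ℝ) + y ≤ m).card : ℝ) with hK
      have hc2 : (α - β) * ((B.card : ℝ) / 2) ≤ (α - β) * (K / 2 + y) :=
        mul_le_mul_of_nonneg_left (by linarith) (by linarith)
      have e1 : 0 ≤ α * (S / S1) * (n - x) :=
        mul_nonneg (mul_nonneg hα hq0) (by linarith)
      have e2 : 0 ≤ α * (S / S1 * y - S) := by
        apply mul_nonneg hα
        have : S / S1 * S1 ≤ S / S1 * y := mul_le_mul_of_nonneg_left hy1 hq0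
        rw [div_mul_cancel₀ _ hS1pos.ne'] at this
        linarith
      have e3 : α * (1 + S / S1) * (z + S2 - (n + y)) = α * (1 + S / S1) * (z + S2 - x) -
          α * (1 + S / S1) * (n + y - x) := by ring
      have e4 : α * (1 + S / S1) * (n + y - x) = α * (n - x) + α * y +
          α * (S / S1) * (n - x) + α * (S / S1 * y) := by ring
      have e5 : α * (S / S1 * y - S) = α * (S / S1 * y) - α * S := by ring
      have e6 : α * (n - x + S) = α * (n - x) + α * S := by ring
      have e7 : (α - β) * (K / 2 + y) = (α - β) * (K / 2) + α * y - β * y := by ring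
      linarith

end GH

theorem t_GH : S_GH := by
  intro G hG x z S S1 S2 α β hα _ hS hS1 h1 h12 hx B hB
  refine ⟨fun hαβ hd hB2 => ?_, fun hαβ hd hB2 => ?_⟩
  · exact GH.lower hG hα hS hS1 h1 h12 hαβ B.card x B le_rfl hx hB hd hB2
  · exact GH.upper hG hα hS h1 h12 hαβ B.card x B le_rfl hx hB hd hB2

end Pool.Agent.N610.HX
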