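import Pool.Agent.N610.HX.Stm2

set_option autoImplicit false

/-!
# Project HX (helper610), part DEC: density decrement
-/

namespace Pool.Agent.N610.HX

open Finset Filter Topology

namespace DECaux

lemma F_mono : Monotone F := by
  intro a b h
  unfold F
  exact_mod_cast Nat.monotone_primeCounting (Nat.floor_mono h)

/-- the decrement lemma -/
lemma decr {G : ℝ → ℝ} (hG : Monotone G) {e Q : ℝ} (he : 0 < e) (hQ : 1 ≤ Q) (k : ℕ) :
    ∀ x Y : ℝ, 0 < Y → (G (x + Y) - G x) / Y < k * e →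
    ∃ (i : ℕ) (x' : ℝ), i < k ∧ x ≤ x' ∧ x' + Y / Q ^ i ≤ x + Y ∧
      (G (x' + Y / Q ^ i) - G x') / (Y / Q ^ i) ≤ (G (x + Y) - G x) / Y ∧
      ∀ t, x' ≤ t → t + Y / Q ^ i / Q ≤ x' + Y / Q ^ i →
        ((G (x' + Y / Q ^ i) - G x') / (Y / Q ^ i) - e) * (Y / Q ^ i / Q) ≤
          G (t + Y / Q ^ i / Q) - G t := by
  induction k with
  | zero =>
    intro x Y hY h
    exfalso
    have h0 : 0 ≤ (G (x + Y) - G x) / Y := div_nonneg (sub_nonneg.2 (hG (by linarith))) hY.le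
    simp only [Nat.cast_zero, zero_mul] at h
    linarith
  | succ k ih =>
    intro x Y hY h
    by_cases hw : ∀ t, x ≤ t → t + Y / Q ≤ x + Y →
        ((G (x + Y) - G x) / Y - e) * (Y / Q) ≤ G (t + Y / Q) - G t
    · refine ⟨0, x, by omega, le_rfl, by simp, by simp, ?_⟩
      simpa using hw
    · push Not at hw
      obtain ⟨t, ht1, ht2, ht3⟩ := hw
      have hYQ : 0 < Y / Q := by positivity
      have hd : (G (t + Y / Q) - G t) / (Y / Q) < (G (x + Y) - G x) / Y - e := by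
        rwa [div_lt_iff₀ hYQ]
      have hd2 : (G (t + Y / Q) - G t) / (Y / Q) < k * e := by
        push_cast at h
        linarith
      obtain ⟨i, x', hi, h1, h2, h3, h4⟩ := ih t (Y / Q) hYQ hd2
      have hpow : Y / Q / Q ^ i = Y / Q ^ (i + 1) := by rw [div_div, pow_succ']
      rw [hpow] at h2 h3 h4
      exact ⟨i + 1, x', by omega, ht1.trans h1, h2.trans ht2, h3.trans (by linarith), h4⟩

/-- consecutive windows -/
lemma win {G : ℝ → ℝ} (hG : Monotone G) {a b S c : ℝ} (hS : 0 < S) (hc : 0 ≤ c)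
    (h : ∀ t, a ≤ t → t + S ≤ b → c * S ≤ G (t + S) - G t) :
    ∀ t y, a ≤ t → 0 ≤ y → t + y ≤ b → c * (y - S) ≤ G (t + y) - G t := by
  have key : ∀ (m : ℕ) (t : ℝ), a ≤ t → t + m * S ≤ b → m * (c * S) ≤ G (t + m * S) - G t := by
    intro m
    induction m with
    | zero => intro t _ _; simp
    | succ m ih =>
      intro t ht1 ht2
      push_cast at ht2 ⊢
      have hm : 0 ≤ (m : ℝ) * S := by positivity
      have e1 := ih t ht1 (by nlinarith)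
      have e2 := h (t + m * S) (by linarith) (by nlinarith)
      have e3 : t + m * S + S = t + (m + 1) * S := by ring
      rw [e3] at e2
      linarith
  intro t y ht hy hty
  set m := ⌊y / S⌋₊ with hm
  have hm1 : (m : ℝ) * S ≤ y := by
    have := Nat.floor_le (a := y / S) (by positivity)
    rwa [le_div_iff₀ hS] at this
  have hm2 : y - S ≤ (m : ℝ) * S := by
    have := Nat.lt_floor_add_one (y / S)
    rw [div_lt_iff₀ hS] at this
    rw [← hm] at this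
    nlinarith
  have e1 := key m t ht (by linarith)
  have e2 : G (t + m * S) ≤ G (t + y) := hG (by linarith)
  have e3 : c * (y - S) ≤ c * (m * S) := mul_le_mul_of_nonneg_left hm2 hc
  have e4 : (m : ℝ) * (c * S) = c * (m * S) := by ring
  linarith

lemma sizes {K η q Q S Y' : ℝ} (hK : 1 ≤ K) (hη0 : 0 < η) (hη3 : η ≤ 1) (hη21 : η ^ 2 ≤ η) (hqK : K ≤ q)
    (hqη : 1 / η ^ 2 ≤ q) (hq0 : 0 < q) (hηq : 1 ≤ η ^ 2 * q) (hQ : Q = q ^ 3) (hS0 : 0 < S)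
    (hY'0 : 0 < Y') (hY'S : Y' = Q * S) :
    S ≤ S / η ∧ S / η ≤ S / η ^ 2 ∧ S / η ^ 2 ≤ K * (S / η ^ 2) ∧ K * (S / η ^ 2) ≤ η ^ 2 * Y' ∧
      K * (S / η ^ 2) ≤ η * Y' ∧ K * (S / η ^ 2) ≤ Y' ∧ S / η = η * (S / η ^ 2) ∧ S = η * (S / η) := by
  have hy₀0 : 0 < S / η ^ 2 := by positivity
  have hSη0 : 0 < S / η := by positivity
  have hSy : S / η = η * (S / η ^ 2) := by field_simp
  have hSS : S = η * (S / η) := by field_simp
  have h1 : S ≤ S / η := by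
    calc S = η * (S / η) := hSS
      _ ≤ S / η := mul_le_of_le_one_left hSη0.le hη3
  have h2 : S / η ≤ S / η ^ 2 := by
    calc S / η = η * (S / η ^ 2) := hSy
      _ ≤ S / η ^ 2 := mul_le_of_le_one_left hy₀0.le hη3
  have h3 : S / η ^ 2 ≤ K * (S / η ^ 2) := le_mul_of_one_le_left hy₀0.le hK
  have h4 : S / η ^ 2 ≤ q * S := by
    have : S / η ^ 2 = 1 / η ^ 2 * S := by ring
    rw [this]
    exact mul_le_mul_of_nonneg_right hqη hS0.le
  have h5 : K * (S / η ^ 2) ≤ q ^ 2 * S := by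
    calc K * (S / η ^ 2) ≤ q * (q * S) := mul_le_mul hqK h4 hy₀0.le hq0.le
      _ = q ^ 2 * S := by ring
  have h6 : K * (S / η ^ 2) ≤ η ^ 2 * Y' := by
    have e1 : Y' = q * (q ^ 2 * S) := by rw [hY'S, hQ]; ring
    calc K * (S / η ^ 2) ≤ 1 * (q ^ 2 * S) := by rw [one_mul]; exact h5
      _ ≤ (η ^ 2 * q) * (q ^ 2 * S) := mul_le_mul_of_nonneg_right hηq (by positivity)
      _ = η ^ 2 * Y' := by rw [e1]; ring
  have h7 : K * (S / η ^ 2) ≤ η * Y' := h6.trans (mul_le_mul_of_nonneg_right hη21 hY'0.le)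
  exact ⟨h1, h2, h3, h6, h7, h7.trans (mul_le_of_le_one_left hY'0.le hη3), hSy, hSS⟩

/-- the final count -/
lemma count {ε η a u Y' S2 Sη c : ℝ} (hε : 0 < ε) (hη : η = ε ^ 2 / 1000) (hη0 : 0 < η)
    (hY'0 : 0 < Y') (ha0 : 0 ≤ a) (ha1 : a ≤ 1) (hau : a ≤ u) (hau2 : u - 2 * η ≤ a) (hc : 0 ≤ c)
    (hS20 : 0 < S2) (hS2 : S2 ≤ η * Y') (hS2Y : S2 ≤ Y') (hSη0 : 0 ≤ Sη) (hSη : Sη ≤ S2)
    (h : a * (1 - η) * (Y' - S2) + (u + ε / 2 - a) * (c / 2) - a * Sη ≤ u * Y') :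
    c ≤ ε / 50 * Y' := by
  have e7 : ε / 2 * (c / 2) ≤ (u + ε / 2 - a) * (c / 2) :=
    mul_le_mul_of_nonneg_right (by linarith) (by linarith)
  have e8 : a * Sη ≤ η * Y' := by
    calc a * Sη ≤ 1 * Sη := mul_le_mul_of_nonneg_right ha1 hSη0
      _ ≤ η * Y' := by linarith
  have e9 : a * (η * (Y' - S2)) ≤ η * Y' := by
    calc a * (η * (Y' - S2)) ≤ 1 * (η * (Y' - S2)) :=
          mul_le_mul_of_nonneg_right ha1 (mul_nonneg hη0.le (by linarith))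
      _ = η * (Y' - S2) := one_mul _
      _ ≤ η * Y' := mul_le_mul_of_nonneg_left (by linarith) hη0.le
  have e10 : a * S2 ≤ η * Y' := by
    calc a * S2 ≤ 1 * S2 := mul_le_mul_of_nonneg_right ha1 hS20.le
      _ ≤ η * Y' := by linarith
  have e11 : (u - a) * Y' ≤ 2 * η * Y' := mul_le_mul_of_nonneg_right (by linarith) hY'0.le
  have e12 : ε / 2 * (c / 2) ≤ 5 * (η * Y') := by
    have : a * (1 - η) * (Y' - S2) = a * Y' - a * S2 - a * (η * (Y' - S2)) := by ring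
    rw [this] at h
    linarith
  have e13 : c * ε ≤ (ε / 50 * Y') * ε := by
    have : 5 * (η * Y') = ε ^ 2 / 200 * Y' := by rw [hη]; ring
    rw [this] at e12
    have e14 : (ε / 50 * Y') * ε = 4 * (ε ^ 2 / 200 * Y') := by ring
    rw [e14]
    linarith
  exact le_of_mul_le_mul_right e13 hε

lemma Rn (n : ℕ) (y : ℝ) : R n y = (F (n + y) - F n) / y * Real.log n := by
  unfold R
  rw [div_div_eq_mul_div]
  ring

lemma SL {A B Q Λ Y : ℝ} {i k : ℕ} (hA : 1 ≤ A) (hQ1 : 1 ≤ Q) (hΛ1 : 1 ≤ Λ) (hB : A + 1 ≤ B)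
    (hΛQ : 2 ^ A * Q ^ (k + 1) ≤ Λ) (hik : i < k) (hYB : Λ ^ B ≤ Y) :
    (Λ + 1) ^ A ≤ Y / Q ^ i / Q := by
  have hΛ0 : 0 < Λ := by linarith
  have hQ0 : 0 < Q := by linarith
  have e1 : (Λ + 1) ^ A ≤ (2 * Λ) ^ A := Real.rpow_le_rpow (by linarith) (by linarith) (by linarith)
  have e2 : (2 * Λ) ^ A = 2 ^ A * Λ ^ A := Real.mul_rpow (by norm_num) hΛ0.le
  have e3 : Q ^ i * Q ≤ Q ^ (k + 1) := by
    rw [← pow_succ]
    exact pow_le_pow_right₀ hQ1 (by omega)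
  rw [div_div, le_div_iff₀ (by positivity)]
  calc (Λ + 1) ^ A * (Q ^ i * Q) ≤ (2 ^ A * Λ ^ A) * Q ^ (k + 1) := by
        rw [← e2]
        exact mul_le_mul e1 e3 (by positivity) (by positivity)
    _ = (2 ^ A * Q ^ (k + 1)) * Λ ^ A := by ring
    _ ≤ Λ * Λ ^ A := mul_le_mul_of_nonneg_right hΛQ (by positivity)
    _ = Λ ^ (A + 1) := by rw [Real.rpow_add hΛ0, Real.rpow_one]; ring
    _ ≤ Λ ^ B := Real.rpow_le_rpow_of_exponent_le hΛ1 (by linarith)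
    _ ≤ Y := hYB

/-- lower bound for the densities -/
lemma lowb {η e d' S Sη x' Z : ℝ} (hη0 : 0 < η) (he0 : 0 < e) (hηd : η * d' ≤ e)
    (hS0 : 0 < S) (hSη0 : 0 < Sη) (hSS : S = η * Sη)
    (hwin : ∀ t, x' ≤ t → t + S ≤ Z → (d' - e) * S ≤ F (t + S) - F t) :
    ∀ t y, x' ≤ t → Sη ≤ y → t + y ≤ Z → max (d' - 2 * e) 0 * y ≤ F (t + y) - F t := by
  intro t y ht hy hty
  have hy0 : 0 ≤ y := hSη0.le.trans hy
  rcases le_or_gt (d' - 2 * e) 0 with hneg | hpos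
  · rw [max_eq_right hneg, zero_mul]
    exact sub_nonneg.2 (F_mono (by linarith))
  · have hde : 0 ≤ d' - e := by linarith
    have e1 := win F_mono hS0 hde hwin t y ht hy0 hty
    refine le_trans ?_ e1
    have e2 : S ≤ η * y := by
      rw [hSS]
      exact mul_le_mul_of_nonneg_left hy hη0.le
    have e3 : (d' - e) * ((1 - η) * y) ≤ (d' - e) * (y - S) :=
      mul_le_mul_of_nonneg_left (by linarith) hde
    refine le_trans ?_ e3
    rw [max_eq_left hpos.le, ← mul_assoc]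
    refine mul_le_mul_of_nonneg_right ?_ hy0
    have e4 : (d' - e) * (1 - η) = d' - e - η * d' + η * e := by ring
    have e5 : 0 ≤ η * e := by positivity
    rw [e4]
    linarith

/-- upper densities -/
lemma upb {u ε Λ y : ℝ} {n : ℕ} (hε : 0 < ε) (hε1 : ε ≤ 1) (hu0 : 0 ≤ u) (hu1 : u ≤ 1) (hΛ1 : 1 ≤ Λ)
    (hΛε : 3 / ε ≤ Λ) (hy0 : 0 < y) (hl2 : Real.log n ≤ Λ + 1)
    (h : u + ε * (1 + u) < R n y) : (u + ε / 2) / Λ * y ≤ F (n + y) - F n := by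
  have hΛ0 : 0 < Λ := by linarith
  rw [Rn] at h
  have hDpos : 0 ≤ (F (n + y) - F n) / y := div_nonneg (sub_nonneg.2 (F_mono (by linarith))) hy0.le
  have e1 : (F (n + y) - F n) / y * Real.log n ≤ (F (n + y) - F n) / y * (Λ + 1) :=
    mul_le_mul_of_nonneg_left hl2 hDpos
  have e2 : u + ε < (F (n + y) - F n) / y * (Λ + 1) := by
    have h1 : 0 ≤ ε * u := by positivity
    have h2 : ε * (1 + u) = ε + ε * u := by ring
    linarith
  have hεΛ : 3 ≤ ε * Λ := by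
    rw [div_le_iff₀ hε] at hΛε
    linarith
  have hβΛ : (u + ε / 2) / Λ * Λ = u + ε / 2 := div_mul_cancel₀ _ hΛ0.ne'
  have e4 : (u + ε / 2) / Λ ≤ ε / 2 := by
    rw [div_le_iff₀ hΛ0]
    linarith
  have e3 : (u + ε / 2) / Λ * (Λ + 1) ≤ u + ε := by
    rw [mul_add, hβΛ, mul_one]
    linarith
  have e5 : (u + ε / 2) / Λ ≤ (F (n + y) - F n) / y := by
    have : (u + ε / 2) / Λ * (Λ + 1) ≤ (F (n + y) - F n) / y * (Λ + 1) := e3.trans e2.le
    exact le_of_mul_le_mul_right this (by linarith)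
  rwa [le_div_iff₀ hy0] at e5

open Classical in
/-- the homogeneous window -/
lemma homw (h : S_GH) {K ε η q Q Λ x x' Y' S d' u e : ℝ} (hK : 1 ≤ K) (hε : 0 < ε) (hε1 : ε ≤ 1)
    (hη : η = ε ^ 2 / 1000) (hη0 : 0 < η) (hη1 : η ≤ ε / 1000) (hη3 : η ≤ 1) (hη21 : η ^ 2 ≤ η)
    (hqK : K ≤ q) (hqη : 1 / η ^ 2 ≤ q) (hq0 : 0 < q) (hηq : 1 ≤ η ^ 2 * q) (hQ : Q = q ^ 3)
    (hx0 : 0 < x) (hΛ : Λ = Real.log x) (hΛ1 : 1 ≤ Λ) (hΛε : 3 / ε ≤ Λ) (hΛ8 : 8 / ε ≤ Λ)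
    (he : e = η / Λ) (hxx' : x ≤ x') (h2x : x' + Y' ≤ 2 * x) (hY'0 : 0 < Y') (hS0 : 0 < S)
    (hY'S : Y' = Q * S) (hS1 : Λ + 1 ≤ S)
    (hd' : d' = (F (x' + Y') - F x') / Y') (hu : u = d' * Λ) (hu1 : u ≤ 1)
    (hwin : ∀ t, x' ≤ t → t + S ≤ x' + Y' → (d' - e) * S ≤ F (t + S) - F t) :
    HomW u ε x' Y' (S / η ^ 2) (K * (S / η ^ 2)) := by
  obtain ⟨z1, z2, z3, z4, z5, z6, z7, z8⟩ :=
    sizes hK hη0 hη3 hη21 hqK hqη hq0 hηq hQ hS0 hY'0 hY'S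
  have hΛ0 : 0 < Λ := by linarith
  have he0 : 0 < e := by rw [he]; positivity
  have heΛ : e * Λ = η := by rw [he]; exact div_mul_cancel₀ _ hΛ0.ne'
  have hd'0 : 0 ≤ d' := by
    rw [hd']
    exact div_nonneg (sub_nonneg.2 (F_mono (by linarith))) hY'0.le
  have hu0 : 0 ≤ u := by rw [hu]; positivity
  have hFd : F (x' + Y') - F x' = d' * Y' := by rw [hd']; exact (div_mul_cancel₀ _ hY'0.ne').symm
  have hy₀0 : 0 < S / η ^ 2 := by positivity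
  have hSη0 : 0 < S / η := by positivity
  have hηd : η * d' ≤ e := by
    have e1 : (η * d') * Λ ≤ e * Λ := by
      rw [heΛ, mul_assoc, ← hu]
      exact mul_le_of_le_one_right hη0.le hu1
    exact le_of_mul_le_mul_right e1 hΛ0
  have hlow := lowb hη0 he0 hηd hS0 hSη0 z8 hwin
  have hSY : S ≤ Y' := z1.trans (z2.trans (z3.trans z6))
  generalize hy₀ : S / η ^ 2 = y₀ at *
  generalize hSη : S / η = Sη at *
  generalize hS2 : K * y₀ = S2 at *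
  obtain ⟨z, hz⟩ : ∃ z : ℝ, z = x' + Y' - S2 := ⟨_, rfl⟩
  have hzS : z + S2 = x' + Y' := by rw [hz]; ring
  have hxz : x' ≤ z := by linarith
  have hx'0 : 0 < x' := by linarith
  have hz0 : 0 ≤ z := by linarith
  have hS20 : 0 < S2 := by linarith
  -- logarithms
  have hlog : ∀ t : ℝ, x ≤ t → t ≤ 2 * x → Λ ≤ Real.log t ∧ Real.log t ≤ Λ + 1 := by
    intro t ht1 ht2
    rw [hΛ]
    refine ⟨Real.log_le_log hx0 ht1, ?_⟩
    calc Real.log t ≤ Real.log (2 * x) := Real.log_le_log (by linarith) ht2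
      _ = Real.log 2 + Real.log x := Real.log_mul (by norm_num) hx0.ne'
      _ ≤ Real.log x + 1 := by have := Real.log_two_lt_d9; linarith
  obtain ⟨α, hα⟩ : ∃ α : ℝ, α = max (d' - 2 * e) 0 := ⟨_, rfl⟩
  rw [← hα] at hlow
  have hα0 : 0 ≤ α := by rw [hα]; exact le_max_right _ _
  have hαd : α ≤ d' := by rw [hα]; exact max_le (by linarith) hd'0
  have hαu : u - 2 * η ≤ α * Λ := by
    have : (d' - 2 * e) * Λ ≤ α * Λ := by
      rw [hα]
      exact mul_le_mul_of_nonneg_right (le_max_left _ _) hΛ0.le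
    have e1 : (d' - 2 * e) * Λ = u - 2 * η := by rw [sub_mul, mul_assoc, heΛ, ← hu]
    linarith
  have hαu2 : α * Λ ≤ u := by rw [hu]; exact mul_le_mul_of_nonneg_right hαd hΛ0.le
  obtain ⟨β, hβ⟩ : ∃ β : ℝ, β = (u + ε / 2) / Λ := ⟨_, rfl⟩
  have hβΛ : β * Λ = u + ε / 2 := by rw [hβ]; exact div_mul_cancel₀ _ hΛ0.ne'
  have hβ0 : 0 ≤ β := by rw [hβ]; positivity
  have hαβ : α ≤ β := by
    have : α * Λ ≤ β * Λ := by rw [hβΛ]; linarith
    exact le_of_mul_le_mul_right this hΛ0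
  have hmem : ∀ n ∈ Ioc ⌊x'⌋₊ ⌊z⌋₊, x' ≤ (n : ℝ) ∧ (n : ℝ) ≤ z := by
    intro n hn
    rw [mem_Ioc] at hn
    exact ⟨(Nat.lt_of_floor_lt hn.1).le, (Nat.le_floor_iff hz0).1 hn.2⟩
  obtain ⟨B0, hB0def⟩ : ∃ B0 : Finset ℕ, B0 = (Ioc ⌊x'⌋₊ ⌊z⌋₊).filter
    (fun n : ℕ => ∃ y : ℝ, y₀ ≤ y ∧ y ≤ S2 ∧ u + ε * (1 + u) < R n y) := ⟨_, rfl⟩
  have hB0iff : ∀ n, n ∈ B0 ↔ n ∈ Ioc ⌊x'⌋₊ ⌊z⌋₊ ∧ ∃ y : ℝ, y₀ ≤ y ∧ y ≤ S2 ∧ u + ε * (1 + u) < R n y := by
    intro n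
    rw [hB0def, mem_filter]
  clear hB0def
  have hB0mem : ∀ n ∈ B0, x' ≤ (n : ℝ) ∧ (n : ℝ) ≤ z := fun n hn => hmem n ((hB0iff n).1 hn).1
  have hB0up : ∀ n ∈ B0, ∃ y, y₀ ≤ y ∧ y ≤ S2 ∧ β * y ≤ F (n + y) - F n := by
    intro n hn
    obtain ⟨y, hy1, hy2, hy3⟩ := ((hB0iff n).1 hn).2
    have hn' := hB0mem n hn
    obtain ⟨hl1, hl2⟩ := hlog n (by linarith) (by linarith)
    rw [hβ]
    exact ⟨y, hy1, hy2, upb hε hε1 hu0 hu1 hΛ1 hΛε (by linarith) hl2 hy3⟩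
  have hlow' : ∀ t y, x' ≤ t → Sη ≤ y → t + y ≤ z + S2 → α * y ≤ F (t + y) - F t := by
    rw [hzS]
    exact hlow
  have hGH := (h F F_mono x' z Sη y₀ S2 α β hα0 hβ0 hSη0.le z2 (by linarith) z3
    (by rw [hzS]; linarith) B0 hB0mem).1 hαβ hlow' hB0up
  have hB0card : (B0.card : ℝ) ≤ ε / 50 * Y' := by
    have e2 : Sη / y₀ = η := by
      rw [z7]
      exact mul_div_cancel_right₀ _ hy₀0.ne'
    have e3 : z - x' = Y' - S2 := by rw [hz]; ring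
    rw [hzS, hFd, e2, e3] at hGH
    have e4 := mul_le_mul_of_nonneg_right hGH hΛ0.le
    have e5 : (α * (1 - η) * (Y' - S2) + (β - α) * ((B0.card : ℝ) / 2) - α * Sη) * Λ =
        (α * Λ) * (1 - η) * (Y' - S2) + (u + ε / 2 - α * Λ) * ((B0.card : ℝ) / 2) - (α * Λ) * Sη := by
      rw [← hβΛ]; ring
    have e6 : d' * Y' * Λ = u * Y' := by rw [hu]; ring
    rw [e5, e6] at e4
    exact count hε hη hη0 hY'0 (by positivity) (hαu2.trans hu1) hαu2 hαu (Nat.cast_nonneg _) hS20 z5 z6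
      hSη0.le (z2.trans z3) e4
  unfold HomW
  have hlast : ((Ioc ⌊z⌋₊ ⌊x' + Y'⌋₊).card : ℝ) ≤ S2 + 1 := by
    rw [Nat.card_Ioc]
    have hle : ⌊z⌋₊ ≤ ⌊x' + Y'⌋₊ := Nat.floor_mono (by linarith)
    rw [Nat.cast_sub hle]
    have f1 : (⌊x' + Y'⌋₊ : ℝ) ≤ x' + Y' := Nat.floor_le (by linarith)
    have f2 : z < (⌊z⌋₊ : ℝ) + 1 := Nat.lt_floor_add_one z
    linarith
  have hY'8 : 8 / ε ≤ Y' := by linarith
  have hone : 1 ≤ ε / 8 * Y' := by
    rw [div_le_iff₀ hε] at hY'8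
    linarith
  have hη28 : η * Y' ≤ ε / 8 * Y' := mul_le_mul_of_nonneg_right (by linarith) hY'0.le
  have hfin : (B0.card : ℝ) + ((Ioc ⌊z⌋₊ ⌊x' + Y'⌋₊).card : ℝ) ≤ ε * Y' := by
    have : 0 ≤ ε * Y' := by positivity
    linarith
  refine le_trans ?_ hfin
  have hcu := Finset.card_union_le B0 (Ioc ⌊z⌋₊ ⌊x' + Y'⌋₊)
  have hcu' : ((B0 ∪ Ioc ⌊z⌋₊ ⌊x' + Y'⌋₊).card : ℝ) ≤
      (B0.card : ℝ) + ((Ioc ⌊z⌋₊ ⌊x' + Y'⌋₊).card : ℝ) := by exact_mod_cast hcu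
  refine le_trans (Nat.cast_le.2 (Finset.card_le_card ?_)) hcu'
  intro n hn
  rw [mem_filter, mem_Ioc] at hn
  rw [mem_union]
  by_cases hnz : n ≤ ⌊z⌋₊
  · left
    have hn1 : n ∈ Ioc ⌊x'⌋₊ ⌊z⌋₊ := mem_Ioc.2 ⟨hn.1.1, hnz⟩
    refine (hB0iff n).2 ⟨hn1, ?_⟩
    obtain ⟨hn', hbad⟩ := hn
    push Not at hbad
    obtain ⟨y, hy1, hy2, hy3⟩ := hbad
    refine ⟨y, hy1, hy2, ?_⟩
    obtain ⟨hm1, hm2⟩ := hmem n hn1
    have hy0 : 0 < y := by linarith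
    obtain ⟨hl1, -⟩ := hlog n (by linarith) (by linarith)
    have hlowR : u - 2 * η ≤ R n y := by
      rw [Rn]
      have f1 := hlow' n y hm1 (z2.trans hy1) (by linarith)
      have f2 : α ≤ (F (n + y) - F n) / y := by rwa [le_div_iff₀ hy0]
      calc u - 2 * η ≤ α * Λ := hαu
        _ ≤ (F (n + y) - F n) / y * Real.log n := mul_le_mul f2 hl1 hΛ0.le (hα0.trans f2)
    have hεu : 2 * η ≤ ε * (1 + u) := by
      have : ε * (1 + u) = ε + ε * u := by ring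
      have : 0 ≤ ε * u := by positivity
      linarith
    rcases lt_abs.1 hy3 with h1 | h1
    · linarith
    · linarith
  · right
    exact mem_Ioc.2 ⟨by omega, hn.1.2⟩

end DECaux

open DECaux in
theorem t_DEC (h : S_GH) : S_DEC := by
  intro K ε A hK hε hε1 hA
  -- parameters
  obtain ⟨η, hη⟩ : ∃ η : ℝ, η = ε ^ 2 / 1000 := ⟨_, rfl⟩
  have hη0 : 0 < η := by rw [hη]; positivity
  have hη1 : η ≤ ε / 1000 := by rw [hη]; nlinarith
  have hη3 : η ≤ 1 := by linarith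
  have hη21 : η ^ 2 ≤ η := by nlinarith
  obtain ⟨q, hq⟩ : ∃ q : ℝ, q = max (max K (1 / η ^ 2)) 2 := ⟨_, rfl⟩
  have hqK : K ≤ q := by rw [hq]; exact (le_max_left _ _).trans (le_max_left _ _)
  have hqη : 1 / η ^ 2 ≤ q := by rw [hq]; exact (le_max_right _ _).trans (le_max_left _ _)
  have hq2 : 2 ≤ q := by rw [hq]; exact le_max_right _ _
  have hq0 : 0 < q := by linarith
  have hηq : 1 ≤ η ^ 2 * q := by
    have e1 : η ^ 2 * (1 / η ^ 2) ≤ η ^ 2 * q := mul_le_mul_of_nonneg_left hqη (by positivity)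
    have e : η ^ 2 * (1 / η ^ 2) = 1 := by field_simp
    linarith
  obtain ⟨Q, hQ⟩ : ∃ Q : ℝ, Q = q ^ 3 := ⟨_, rfl⟩
  have hQ1 : 1 ≤ Q := by rw [hQ]; exact one_le_pow₀ (by linarith)
  have hQ0 : 0 < Q := by linarith
  obtain ⟨k, hk⟩ : ∃ k : ℕ, k = ⌈1 / η⌉₊ + 1 := ⟨_, rfl⟩
  have hkη : 1 < (k : ℝ) * η := by
    have e1 : 1 / η ≤ (⌈1 / η⌉₊ : ℝ) := Nat.le_ceil _
    have e2 : (k : ℝ) = (⌈1 / η⌉₊ : ℝ) + 1 := by rw [hk]; push_cast; ring
    have e3 : 1 / η * η = 1 := by field_simp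
    rw [e2, add_mul, one_mul]
    have e4 := mul_le_mul_of_nonneg_right e1 hη0.le
    linarith
  obtain ⟨B, hB⟩ : ∃ B : ℝ, B = Q ^ k + A + 2 := ⟨_, rfl⟩
  have hQk : 0 < Q ^ k := by positivity
  have hB0 : 0 < B := by linarith
  refine ⟨B, hB0, ?_⟩
  obtain ⟨L0, hL0⟩ : ∃ L0 : ℝ, L0 = max (max 1 (3 / ε)) (max (2 ^ A * Q ^ (k + 1)) (8 / ε)) := ⟨_, rfl⟩
  have hev : ∀ᶠ x : ℝ in atTop, L0 ≤ Real.log x := Real.tendsto_log_atTop.eventually_ge_atTop L0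
  filter_upwards [hev, eventually_gt_atTop (1 : ℝ)] with x hxL hx1 Y hYB hYx hR
  have hx0 : 0 < x := by linarith
  have hΛ1 : 1 ≤ Real.log x := by
    refine le_trans ?_ hxL; rw [hL0]; exact (le_max_left _ _).trans (le_max_left _ _)
  have hΛε : 3 / ε ≤ Real.log x := by
    refine le_trans ?_ hxL; rw [hL0]; exact (le_max_right _ _).trans (le_max_left _ _)
  have hΛQ : 2 ^ A * Q ^ (k + 1) ≤ Real.log x := by
    refine le_trans ?_ hxL; rw [hL0]; exact (le_max_left _ _).trans (le_max_right _ _)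
  have hΛ8 : 8 / ε ≤ Real.log x := by
    refine le_trans ?_ hxL; rw [hL0]; exact (le_max_right _ _).trans (le_max_right _ _)
  have hΛ0 : 0 < Real.log x := by linarith
  have hY0 : 0 < Y := lt_of_lt_of_le (Real.rpow_pos_of_pos hΛ0 B) hYB
  -- the decrement
  have he0 : 0 < η / Real.log x := by positivity
  have heΛ : η / Real.log x * Real.log x = η := div_mul_cancel₀ _ hΛ0.ne'
  have hRd : R x Y = (F (x + Y) - F x) / Y * Real.log x := by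
    unfold R
    rw [div_div_eq_mul_div]
    ring
  have hdk : (F (x + Y) - F x) / Y < k * (η / Real.log x) := by
    have e1 : (F (x + Y) - F x) / Y * Real.log x ≤ 1 := by rw [← hRd]; exact hR
    have e2 : (F (x + Y) - F x) / Y * Real.log x < (k * (η / Real.log x)) * Real.log x := by
      rw [mul_assoc, heΛ]
      linarith
    exact lt_of_mul_lt_mul_right e2 hΛ0.le
  obtain ⟨i, x', hik, hxx', hxY', hdd, hwin⟩ := decr F_mono he0 hQ1 k x Y hY0 hdk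
  have hQi : 0 < Q ^ i := by positivity
  have hY'0 : 0 < Y / Q ^ i := by positivity
  have hS0 : 0 < Y / Q ^ i / Q := by positivity
  have hSL := SL (B := B) hA hQ1 hΛ1 (by linarith) hΛQ hik hYB
  have hSΛ : Real.log x + 1 ≤ Y / Q ^ i / Q := by
    refine le_trans ?_ hSL
    calc Real.log x + 1 = (Real.log x + 1) ^ (1 : ℝ) := (Real.rpow_one _).symm
      _ ≤ (Real.log x + 1) ^ A := Real.rpow_le_rpow_of_exponent_le (by linarith) hA
  have hY'S : Y / Q ^ i = Q * (Y / Q ^ i / Q) := (mul_div_cancel₀ _ hQ0.ne').symm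
  have huR : (F (x' + Y / Q ^ i) - F x') / (Y / Q ^ i) * Real.log x ≤ R x Y := by
    rw [hRd]
    exact mul_le_mul_of_nonneg_right hdd hΛ0.le
  have hd'0 : 0 ≤ (F (x' + Y / Q ^ i) - F x') / (Y / Q ^ i) :=
    div_nonneg (sub_nonneg.2 (F_mono (by linarith))) hY'0.le
  obtain ⟨z1, z2, z3, z4, z5, z6, z7, z8⟩ :=
    sizes hK hη0 hη3 hη21 hqK hqη hq0 hηq hQ hS0 hY'0 hY'S
  refine ⟨x', Y / Q ^ i, Y / Q ^ i / Q / η ^ 2,
    (F (x' + Y / Q ^ i) - F x') / (Y / Q ^ i) * Real.log x, hxx', hxY', ?_, ?_, z6,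
    mul_nonneg hd'0 hΛ0.le, huR, ?_⟩
  · have e1 : Y = Y / Q ^ i * Q ^ i := (div_mul_cancel₀ Y hQi.ne').symm
    have e2 : Q ^ i ≤ B := by
      have : Q ^ i ≤ Q ^ k := pow_le_pow_right₀ hQ1 hik.le
      linarith
    calc Y = Y / Q ^ i * Q ^ i := e1
      _ ≤ Y / Q ^ i * B := mul_le_mul_of_nonneg_left e2 hY'0.le
  · have hl1 : Real.log x ≤ Real.log x' := Real.log_le_log hx0 hxx'
    have hl2 : Real.log x' ≤ Real.log x + 1 := by
      calc Real.log x' ≤ Real.log (2 * x) := Real.log_le_log (by linarith) (by linarith)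
        _ = Real.log 2 + Real.log x := Real.log_mul (by norm_num) hx0.ne'
        _ ≤ Real.log x + 1 := by have := Real.log_two_lt_d9; linarith
    calc Real.log x' ^ A ≤ (Real.log x + 1) ^ A := Real.rpow_le_rpow (by linarith) hl2 (by linarith)
      _ ≤ Y / Q ^ i / Q := hSL
      _ ≤ _ := z1.trans z2
  · exact homw h hK hε hε1 hη hη0 hη1 hη3 hη21 hqK hqη hq0 hηq hQ hx0 rfl hΛ1 hΛε hΛ8 rfl hxx'
      (by linarith) hY'0 hS0 hY'S hSΛ rfl rfl (huR.trans hR) hwin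

end Pool.Agent.N610.HX
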