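import Pool.Agent.N610.HX.Stm

set_option autoImplicit false

/-!
# Extremal windows are homogeneous: the equivalence with the asymptotics (project HX, helper610)
-/

namespace Pool.Agent.N610.HX

open Finset Filter Topology

/-- the uniform asymptotics above a power of the logarithm -/
def S_UA : Prop := ∀ ε : ℝ, 0 < ε → ∃ N : ℝ, 1 < N ∧ ∀ x y : ℝ, N ≤ x → Real.log x ^ N ≤ y → y ≤ x →
  |R x y - 1| ≤ ε

/-- there are homogeneous windows of density `v` on arbitrarily long ranges of scales -/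
def HomAll (v : ℝ) : Prop := ∀ ε M : ℝ, 0 < ε → 1 ≤ M → ∃ a₀ : ℝ, ∀ a : ℝ, a₀ ≤ a →
  ∃ᶠ x : ℝ in atTop, Hom v ε a (M * a) (M * a + 1) x

end Pool.Agent.N610.HX

namespace Pool.Agent.N610.HX.EQ

open Finset Filter Topology
open Pool.Agent.N610.HX

theorem F_mono : Monotone F := by
  intro s t hst
  unfold F
  exact_mod_cast Nat.monotone_primeCounting (Nat.floor_mono hst)

/-- from `Lo a → 1`, `Up a → 1` to the uniform asymptotics -/
theorem ua_of (hGR : S_GR) (hL : Tendsto Lo atTop (𝓝 1)) (hU : Tendsto Up atTop (𝓝 1)) : S_UA := by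
  intro ε0 hε0
  -- reduce to ε ≤ 1
  set ε := min ε0 1 with hεd
  have hε : 0 < ε := lt_min hε0 one_pos
  have hε1 : ε ≤ 1 := min_le_right _ _
  have hεε : ε ≤ ε0 := min_le_left _ _
  have h1 : ∀ᶠ a : ℝ in atTop, ((1 - ε / 4 : ℝ) : EReal) < Lo a :=
    hL.eventually (lt_mem_nhds (by exact_mod_cast (by linarith : 1 - ε / 4 < (1 : ℝ))))
  have h2 : ∀ᶠ a : ℝ in atTop, Up a < ((1 + ε / 4 : ℝ) : EReal) :=
    hU.eventually (gt_mem_nhds (by exact_mod_cast (by linarith : (1 : ℝ) < 1 + ε / 4)))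
  obtain ⟨a, ⟨h3, h4⟩, ha⟩ := ((h1.and h2).and (eventually_gt_atTop 1)).exists
  have h5 : ∀ᶠ t : ℝ in atTop, 1 - ε / 4 < R t (Real.log t ^ a) := by
    have := eventually_lt_of_lt_liminf h3
    filter_upwards [this] with t ht
    exact_mod_cast ht
  have h6 : ∀ᶠ t : ℝ in atTop, R t (Real.log t ^ a) < 1 + ε / 4 := by
    have := eventually_lt_of_limsup_lt h4
    filter_upwards [this] with t ht
    exact_mod_cast ht
  -- the quotient (log x + 1)^a / (log x)^(a+1) tends to 0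
  have h7 : ∀ᶠ x : ℝ in atTop, (Real.log x + 1) ^ a ≤ ε / 16 * Real.log x ^ (a + 1) := by
    have h8 : ∀ᶠ L : ℝ in atTop, (L + 1) ^ a ≤ ε / 16 * L ^ (a + 1) := by
      filter_upwards [eventually_ge_atTop (1 : ℝ), eventually_ge_atTop (2 ^ a * (16 / ε))]
        with L hL1 hL2
      have hL0 : 0 < L := by linarith
      calc (L + 1) ^ a ≤ (2 * L) ^ a := Real.rpow_le_rpow (by linarith) (by linarith) (by linarith)
        _ = 2 ^ a * L ^ a := Real.mul_rpow (by norm_num) hL0.le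
        _ = ε / 16 * ((2 ^ a * (16 / ε)) * L ^ a) := by field_simp
        _ ≤ ε / 16 * (L * L ^ a) := by gcongr
        _ = ε / 16 * L ^ (a + 1) := by rw [Real.rpow_add hL0, Real.rpow_one]; ring
    exact Real.tendsto_log_atTop.eventually h8
  have h9 : ∀ᶠ x : ℝ in atTop, 16 / ε ≤ Real.log x := Real.tendsto_log_atTop.eventually_ge_atTop _
  obtain ⟨T, hT⟩ := eventually_atTop.1 ((((h5.and h6).and h7).and h9).and (eventually_ge_atTop 1))
  refine ⟨max (max T (a + 1)) 2, lt_of_lt_of_le (by norm_num) (le_max_right _ _), ?_⟩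
  intro x y hx hy hyx
  set N := max (max T (a + 1)) 2 with hN
  have hNT : T ≤ N := (le_max_left _ _).trans (le_max_left _ _)
  have hNa : a + 1 ≤ N := (le_max_right _ _).trans (le_max_left _ _)
  obtain ⟨⟨⟨-, h10⟩, h11⟩, hx1⟩ := hT x (hNT.trans hx)
  have hΛ16 : 16 ≤ Real.log x := by
    refine le_trans ?_ h11
    rw [le_div_iff₀ hε]; linarith
  set Λ := Real.log x with hΛ
  have hΛ0 : 0 < Λ := by linarith
  have hx0 : 0 < x := by linarith
  have hyΛ : Λ ^ (a + 1) ≤ y := (Real.rpow_le_rpow_of_exponent_le (by linarith) hNa).trans hy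
  have hy0 : 0 < y := lt_of_lt_of_le (Real.rpow_pos_of_pos hΛ0 _) hyΛ
  have hS : (Λ + 1) ^ a ≤ ε / 16 * y := h10.trans (mul_le_mul_of_nonneg_left hyΛ (by positivity))
  have hlog : ∀ t : ℝ, x ≤ t → t ≤ x + y → Λ ≤ Real.log t ∧ Real.log t ≤ Λ + 1 := by
    intro t h1 h2
    refine ⟨Real.log_le_log hx0 h1, ?_⟩
    calc Real.log t ≤ Real.log (2 * x) := Real.log_le_log (by linarith) (by linarith)
      _ = Real.log 2 + Λ := Real.log_mul (by norm_num) hx0.ne'
      _ ≤ Λ + 1 := by linarith [Real.log_two_lt_d9]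
  have hv : ∀ t : ℝ, x ≤ t → t ≤ x + y → 1 ≤ Real.log t ^ a ∧ Real.log t ^ a ≤ (Λ + 1) ^ a := by
    intro t h1 h2
    obtain ⟨g1, g2⟩ := hlog t h1 h2
    exact ⟨Real.one_le_rpow (by linarith) (by linarith),
      Real.rpow_le_rpow (by linarith) g2 (by linarith)⟩
  have hRxy : R x y = (F (x + y) - F x) * Λ / y := by
    unfold R; rw [← hΛ]; field_simp
  have hlow : (1 - ε / 4) / (Λ + 1) * (x + y - x - (Λ + 1) ^ a) ≤ F (x + y) - F x := by
    refine (hGR F F_mono x (x + y) ((Λ + 1) ^ a) 1 ((1 - ε / 4) / (Λ + 1)) one_pos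
      (by apply div_nonneg <;> linarith) (by linarith)).1 ?_
    intro t ht1 ht2
    have hSp : 0 ≤ (Λ + 1) ^ a := Real.rpow_nonneg (by linarith) _
    obtain ⟨g1, g2⟩ := hlog t ht1 (by linarith)
    obtain ⟨g3, g4⟩ := hv t ht1 (by linarith)
    obtain ⟨⟨⟨⟨g5, -⟩, -⟩, -⟩, -⟩ := hT t (hNT.trans (hx.trans ht1))
    refine ⟨Real.log t ^ a, g3, g4, ?_⟩
    have hlt : 0 < Real.log t := by linarith
    have hp : 0 < Real.log t ^ a := by linarith
    unfold R at g5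
    rw [lt_div_iff₀ (by positivity)] at g5
    refine le_trans ?_ g5.le
    rw [div_mul_eq_mul_div, mul_div_assoc]
    refine mul_le_mul_of_nonneg_left ?_ (by linarith)
    exact div_le_div_of_nonneg_left hp.le hlt g2
  have hup : F (x + y) - F x ≤ (1 + ε / 4) / Λ * (x + y - x + (Λ + 1) ^ a) := by
    refine (hGR F F_mono x (x + y) ((Λ + 1) ^ a) 1 ((1 + ε / 4) / Λ) one_pos
      (by positivity) (by linarith)).2 ?_
    intro t ht1 ht2
    obtain ⟨g1, g2⟩ := hlog t ht1 ht2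
    obtain ⟨g3, g4⟩ := hv t ht1 ht2
    obtain ⟨⟨⟨⟨-, g5⟩, -⟩, -⟩, -⟩ := hT t (hNT.trans (hx.trans ht1))
    refine ⟨Real.log t ^ a, g3, g4, ?_⟩
    have hlt : 0 < Real.log t := by linarith
    have hp : 0 < Real.log t ^ a := by linarith
    unfold R at g5
    rw [div_lt_iff₀ (by positivity)] at g5
    refine g5.le.trans ?_
    rw [div_mul_eq_mul_div, mul_div_assoc]
    refine mul_le_mul_of_nonneg_left ?_ (by linarith)
    exact div_le_div_of_nonneg_left hp.le hΛ0 g1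
  have e1 : x + y - x = y := by ring
  rw [e1] at hlow hup
  refine le_trans ?_ hεε
  rw [abs_le, hRxy]
  constructor
  · have : (1 - ε) * y ≤ (F (x + y) - F x) * Λ := by
      have k1 : (1 - ε / 4) / (Λ + 1) * (y - (Λ + 1) ^ a) * Λ ≤ (F (x + y) - F x) * Λ :=
        mul_le_mul_of_nonneg_right hlow hΛ0.le
      refine le_trans ?_ k1
      have k2 : 1 - ε / 16 ≤ Λ / (Λ + 1) := by
        rw [le_div_iff₀ (by linarith)]
        have : 16 ≤ Λ * ε := by rwa [div_le_iff₀ hε] at h11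
        nlinarith
      have k3 : (1 - ε / 16) * y ≤ y - (Λ + 1) ^ a := by linarith
      have k4 : (1 - ε / 4) / (Λ + 1) * (y - (Λ + 1) ^ a) * Λ =
          (1 - ε / 4) * ((Λ / (Λ + 1)) * (y - (Λ + 1) ^ a)) := by ring
      rw [k4]
      have k5 : (1 - ε / 16) * ((1 - ε / 16) * y) ≤ (Λ / (Λ + 1)) * (y - (Λ + 1) ^ a) := by
        apply mul_le_mul k2 k3 (by nlinarith) (by positivity)
      have k6 : (1 - ε / 4) * ((1 - ε / 16) * ((1 - ε / 16) * y)) ≤
          (1 - ε / 4) * ((Λ / (Λ + 1)) * (y - (Λ + 1) ^ a)) :=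
        mul_le_mul_of_nonneg_left k5 (by linarith)
      refine le_trans ?_ k6
      have k7 : 1 - ε ≤ (1 - ε / 4) * ((1 - ε / 16) * (1 - ε / 16)) := by nlinarith [mul_pos hε hε]
      calc (1 - ε) * y ≤ (1 - ε / 4) * ((1 - ε / 16) * (1 - ε / 16)) * y :=
            mul_le_mul_of_nonneg_right k7 hy0.le
        _ = _ := by ring
    have h12 : 1 - ε ≤ (F (x + y) - F x) * Λ / y := by rwa [le_div_iff₀ hy0]
    linarith
  · have : (F (x + y) - F x) * Λ ≤ (1 + ε) * y := by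
      have k1 : (F (x + y) - F x) * Λ ≤ (1 + ε / 4) / Λ * (y + (Λ + 1) ^ a) * Λ :=
        mul_le_mul_of_nonneg_right hup hΛ0.le
      refine k1.trans ?_
      have k2 : (1 + ε / 4) / Λ * (y + (Λ + 1) ^ a) * Λ = (1 + ε / 4) * (y + (Λ + 1) ^ a) := by
        field_simp
      rw [k2]
      have k3 : y + (Λ + 1) ^ a ≤ (1 + ε / 16) * y := by linarith
      have k4 : (1 + ε / 4) * (y + (Λ + 1) ^ a) ≤ (1 + ε / 4) * ((1 + ε / 16) * y) :=
        mul_le_mul_of_nonneg_left k3 (by linarith)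
      refine k4.trans ?_
      nlinarith [mul_pos hε hy0, mul_nonneg (mul_nonneg hε.le hε.le) hy0.le,
        mul_nonneg (mul_nonneg hε.le (sub_nonneg.2 hε1)) hy0.le]
    have h12 : (F (x + y) - F x) * Λ / y ≤ 1 + ε := by rwa [div_le_iff₀ hy0]
    linarith

/-- powers of the logarithm are at most `x` -/
theorem pow_log_le (a : ℝ) : ∀ᶠ x : ℝ in atTop, Real.log x ^ a ≤ x := by
  have h := (isLittleO_log_rpow_rpow_atTop (s := 1) a one_pos).bound one_pos
  filter_upwards [h, eventually_ge_atTop 1] with x hx h1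
  rw [one_mul, Real.rpow_one, Real.norm_of_nonneg (by linarith : (0 : ℝ) ≤ x)] at hx
  exact (Real.le_norm_self _).trans hx

/-- the uniform asymptotics exclude homogeneous windows of density `v ≠ 1` -/
theorem no_hom (hUA : S_UA) (v : ℝ) (hv : v ≠ 1) : ¬ HomAll v := by
  intro hH
  have hd : 0 < |v - 1| := abs_pos.2 (sub_ne_zero.2 hv)
  set ε := min (|v - 1| / 3) (1 / 3) with hεd
  have hε : 0 < ε := lt_min (by positivity) (by norm_num)
  have hε1 : ε ≤ |v - 1| / 3 := min_le_left _ _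
  have hε2 : ε ≤ 1 / 3 := min_le_right _ _
  obtain ⟨N, hN1, hN⟩ := hUA ε hε
  obtain ⟨a₀, ha₀⟩ := hH ε 1 hε le_rfl
  set a := max a₀ (N + 1) with ha
  have haN : N + 1 ≤ a := le_max_right _ _
  have hf := ha₀ a (le_max_left _ _)
  have hev : ∀ᶠ x : ℝ in atTop, (Real.log x + 1) ^ N ≤ Real.log x ^ a := by
    have h8 : ∀ᶠ L : ℝ in atTop, (L + 1) ^ N ≤ L ^ a := by
      filter_upwards [eventually_ge_atTop (1 : ℝ), eventually_ge_atTop ((2 : ℝ) ^ N)] with L hL1 hL2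
      have hL0 : 0 < L := by linarith
      calc (L + 1) ^ N ≤ (2 * L) ^ N := Real.rpow_le_rpow (by linarith) (by linarith) (by linarith)
        _ = 2 ^ N * L ^ N := Real.mul_rpow (by norm_num) hL0.le
        _ ≤ L * L ^ N := by gcongr
        _ = L ^ (N + 1) := by rw [Real.rpow_add hL0, Real.rpow_one]; ring
        _ ≤ L ^ a := Real.rpow_le_rpow_of_exponent_le hL1 haN
    exact Real.tendsto_log_atTop.eventually h8
  have hlog : ∀ᶠ x : ℝ in atTop, 4 ≤ Real.log x := Real.tendsto_log_atTop.eventually_ge_atTop _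
  obtain ⟨x, hx, ⟨⟨⟨⟨h1, h2⟩, h3⟩, h4⟩, h5⟩⟩ := (hf.and_eventually
    ((((hev.and hlog).and (pow_log_le (a + 1))).and (pow_log_le a)).and
      (eventually_ge_atTop (N + 1)))).exists
  rw [one_mul] at hx
  classical
  set Λ := Real.log x with hΛ
  have hx0 : 0 < x := by linarith
  have hY4 : 4 ≤ Λ ^ (a + 1) := by
    calc (4 : ℝ) ≤ Λ := h2
      _ = Λ ^ (1 : ℝ) := (Real.rpow_one _).symm
      _ ≤ Λ ^ (a + 1) := Real.rpow_le_rpow_of_exponent_le (by linarith) (by linarith)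
  unfold Hom at hx
  -- a good integer in the window
  have hex : ∃ n ∈ Ioc ⌊x⌋₊ ⌊x + Λ ^ (a + 1)⌋₊, ∀ y : ℝ, Λ ^ a ≤ y → y ≤ Λ ^ a →
      |R n y - v| ≤ ε := by
    by_contra hcon
    push Not at hcon
    have hall : (Ioc ⌊x⌋₊ ⌊x + Λ ^ (a + 1)⌋₊).filter (fun n : ℕ => ¬ ∀ y : ℝ, Λ ^ a ≤ y →
        y ≤ Λ ^ a → |R n y - v| ≤ ε) = Ioc ⌊x⌋₊ ⌊x + Λ ^ (a + 1)⌋₊ := by
      apply filter_true_of_mem
      intro n hn h
      obtain ⟨y, hy1, hy2, hy3⟩ := hcon n hn
      exact absurd (h y hy1 hy2) (not_le.2 hy3)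
    rw [hall, Nat.card_Ioc] at hx
    have g1 : (⌊x⌋₊ : ℝ) ≤ x := Nat.floor_le hx0.le
    have g2 : x + Λ ^ (a + 1) < ⌊x + Λ ^ (a + 1)⌋₊ + 1 := Nat.lt_floor_add_one _
    have g3 : ⌊x⌋₊ ≤ ⌊x + Λ ^ (a + 1)⌋₊ := Nat.floor_mono (by linarith)
    rw [Nat.cast_sub g3] at hx
    have g4 : ε * Λ ^ (a + 1) ≤ 1 / 3 * Λ ^ (a + 1) := mul_le_mul_of_nonneg_right hε2 (by linarith)
    linarith
  obtain ⟨n, hn, hgood⟩ := hex
  have g5 := hgood (Λ ^ a) le_rfl le_rfl
  rw [mem_Ioc] at hn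
  have hnx : x < n := (Nat.floor_lt hx0.le).1 hn.1
  have hn2 : (n : ℝ) ≤ 2 * x := by
    have := (Nat.le_floor_iff (by linarith)).1 hn.2
    linarith
  have hln : Real.log n ≤ Λ + 1 := by
    calc Real.log n ≤ Real.log (2 * x) := Real.log_le_log (by linarith) hn2
      _ = Real.log 2 + Λ := Real.log_mul (by norm_num) hx0.ne'
      _ ≤ Λ + 1 := by linarith [Real.log_two_lt_d9]
  have hln0 : 0 ≤ Real.log n := Real.log_nonneg (by linarith)
  have g6 := hN n (Λ ^ a) (by linarith) ((Real.rpow_le_rpow hln0 hln (by linarith)).trans h1)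
    (by linarith)
  have g7 : |v - 1| ≤ ε + ε := by
    calc |v - 1| = |(R n (Λ ^ a) - 1) - (R n (Λ ^ a) - v)| := by ring_nf
      _ ≤ |R n (Λ ^ a) - 1| + |R n (Λ ^ a) - v| := abs_sub _ _
      _ ≤ ε + ε := add_le_add g6 g5
  linarith

/-- the uniform asymptotics give `Up a < ∞` for some `a` -/
theorem up_lt (hUA : S_UA) : ∃ a : ℝ, 1 < a ∧ Up a < ⊤ := by
  obtain ⟨N, hN1, hN⟩ := hUA 1 one_pos
  refine ⟨N, hN1, ?_⟩
  have h : Up N ≤ ((2 : ℝ) : EReal) := by
    refine limsup_le_of_le (by isBoundedDefault) ?_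
    filter_upwards [pow_log_le N, eventually_ge_atTop N] with x hx1 hx2
    have := hN x (Real.log x ^ N) hx2 le_rfl hx1
    rw [abs_le] at this
    exact_mod_cast (by linarith : R x (Real.log x ^ N) ≤ 2)
  exact lt_of_le_of_lt h (EReal.coe_lt_top 2)

end Pool.Agent.N610.HX.EQ

namespace Pool.Agent.N610.HX

open Finset Filter Topology

/-- the asymptotics are equivalent to the absence of homogeneous windows -/
theorem t_EQ (hGR : S_GR) (hMO : S_MO) (hFN : S_FN) :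
    S_UA ↔ (∃ a : ℝ, 1 < a ∧ Up a < ⊤) ∧ ∀ v : ℝ, v ≠ 1 → ¬ HomAll v := by
  refine ⟨fun h => ⟨EQ.up_lt h, fun v hv => EQ.no_hom h v hv⟩, fun ⟨⟨a, ha1, ha⟩, h2⟩ => ?_⟩
  obtain ⟨-, ⟨l, hl1, -, -, hl4⟩, ⟨u, hu1, hu2, hu3⟩⟩ := hFN
  have hl : l = 1 := by
    by_contra hne
    exact h2 l hne hl4
  have hau : u ≤ Up a := by
    refine le_of_tendsto hu1 ?_
    filter_upwards [eventually_ge_atTop a] with b hb
    exact (hMO _ _ (by linarith) hb).2.2
  have hut : u ≠ ⊤ := (lt_of_le_of_lt hau ha).ne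
  have hub : u ≠ ⊥ := by
    rintro rfl
    exact absurd hu2 (by
      rw [not_le]
      exact EReal.bot_lt_coe 1)
  have hv : u = (u.toReal : EReal) := (EReal.coe_toReal hut hub).symm
  have hu : u.toReal = 1 := by
    by_contra hne
    exact h2 u.toReal hne (hu3 _ hv)
  rw [hu] at hv
  rw [hl] at hl1
  rw [hv] at hu1
  exact EQ.ua_of hGR hl1 hu1

end Pool.Agent.N610.HX
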