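import Pool.Agent.N610.HX.Stm2

set_option autoImplicit false

/-!
# The uniform asymptotics fail if and only if there are homogeneous windows of density `≠ 1`
(project HX, helper610)
-/

namespace Pool.Agent.N610.HX

open Finset Filter Topology

/-- the uniform asymptotics above a power of the logarithm -/
def S_UA : Prop := ∀ ε : ℝ, 0 < ε → ∃ N : ℝ, 1 < N ∧ ∀ x y : ℝ, N ≤ x → Real.log x ^ N ≤ y → y ≤ x →
  |R x y - 1| ≤ ε

end Pool.Agent.N610.HX

namespace Pool.Agent.N610.HX.EQ2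

open Finset Filter Topology
open Pool.Agent.N610.HX

/-- powers of the logarithm are at most `x` -/
theorem pow_log_le (a : ℝ) : ∀ᶠ x : ℝ in atTop, Real.log x ^ a ≤ x := by
  have h := (isLittleO_log_rpow_rpow_atTop (s := 1) a one_pos).bound one_pos
  filter_upwards [h, eventually_ge_atTop 1] with x hx h1
  rw [one_mul, Real.rpow_one, Real.norm_of_nonneg (by linarith : (0 : ℝ) ≤ x)] at hx
  exact (Real.le_norm_self _).trans hx

theorem HomW_mono {u e e' x Y y₁ y₂ : ℝ} (h : HomW u e x Y y₁ y₂) (he : e ≤ e') (hu : 0 ≤ u)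
    (hY : 0 ≤ Y) : HomW u e' x Y y₁ y₂ := by
  classical
  unfold HomW at h ⊢
  refine le_trans ?_ (h.trans (mul_le_mul_of_nonneg_right he hY))
  norm_cast
  apply card_le_card
  intro n hn
  rw [mem_filter] at hn ⊢
  refine ⟨hn.1, fun h1 => hn.2 fun y hy1 hy2 => ?_⟩
  exact (h1 y hy1 hy2).trans (mul_le_mul_of_nonneg_right he (by linarith))

/-- the uniform asymptotics exclude homogeneous windows of density `≠ 1` -/
theorem no_hw (hUA : S_UA) (δ : ℝ) (hδ : 0 < δ) : ¬ HW δ := by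
  classical
  intro hH
  set ε := min (δ / 9) (1 / 4) with hεd
  have hε : 0 < ε := lt_min (by positivity) (by norm_num)
  have hε1 : ε ≤ δ / 9 := min_le_left _ _
  have hε2 : ε ≤ 1 / 4 := min_le_right _ _
  obtain ⟨N, hN1, hN⟩ := hUA ε hε
  have hev : ∀ᶠ x : ℝ in atTop, (Real.log x + 1) ^ N ≤ Real.log x ^ (N + 1) := by
    have h8 : ∀ᶠ L : ℝ in atTop, (L + 1) ^ N ≤ L ^ (N + 1) := by
      filter_upwards [eventually_ge_atTop (1 : ℝ), eventually_ge_atTop ((2 : ℝ) ^ N)] with L hL1 hL2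
      have hL0 : 0 < L := by linarith
      calc (L + 1) ^ N ≤ (2 * L) ^ N := Real.rpow_le_rpow (by linarith) (by linarith) (by linarith)
        _ = 2 ^ N * L ^ N := Real.mul_rpow (by norm_num) hL0.le
        _ ≤ L * L ^ N := by gcongr
        _ = L ^ (N + 1) := by rw [Real.rpow_add hL0, Real.rpow_one]; ring
    exact Real.tendsto_log_atTop.eventually h8
  have hlog : ∀ᶠ x : ℝ in atTop, 4 ≤ Real.log x := Real.tendsto_log_atTop.eventually_ge_atTop _
  obtain ⟨x, ⟨u, y₀, Y, hu0, hu1, hy0, hyY, hYx, hx⟩, ⟨⟨h1, h2⟩, h5⟩⟩ :=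
    ((hH 1 ε (N + 1) le_rfl hε (by linarith)).and_eventually
      ((hev.and hlog).and (eventually_ge_atTop (N + 1)))).exists
  rw [one_mul] at hyY hx
  set Λ := Real.log x with hΛ
  have hx0 : 0 < x := by linarith
  have hy4 : 4 ≤ y₀ := by
    calc (4 : ℝ) ≤ Λ := h2
      _ = Λ ^ (1 : ℝ) := (Real.rpow_one _).symm
      _ ≤ Λ ^ (N + 1) := Real.rpow_le_rpow_of_exponent_le (by linarith) (by linarith)
      _ ≤ y₀ := hy0
  unfold HomW at hx
  -- a good integer in the window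
  have hex : ∃ n ∈ Ioc ⌊x⌋₊ ⌊x + Y⌋₊, ∀ y : ℝ, y₀ ≤ y → y ≤ y₀ →
      |R n y - u| ≤ ε * (1 + u) := by
    by_contra hcon
    push Not at hcon
    have hall : (Ioc ⌊x⌋₊ ⌊x + Y⌋₊).filter (fun n : ℕ => ¬ ∀ y : ℝ, y₀ ≤ y →
        y ≤ y₀ → |R n y - u| ≤ ε * (1 + u)) = Ioc ⌊x⌋₊ ⌊x + Y⌋₊ := by
      apply filter_true_of_mem
      intro n hn h
      obtain ⟨y, hy1, hy2, hy3⟩ := hcon n hn
      exact absurd (h y hy1 hy2) (not_le.2 hy3)
    rw [hall, Nat.card_Ioc] at hx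
    have g1 : (⌊x⌋₊ : ℝ) ≤ x := Nat.floor_le hx0.le
    have g2 : x + Y < ⌊x + Y⌋₊ + 1 := Nat.lt_floor_add_one _
    have g3 : ⌊x⌋₊ ≤ ⌊x + Y⌋₊ := Nat.floor_mono (by linarith)
    rw [Nat.cast_sub g3] at hx
    have g4 : ε * Y ≤ 1 / 4 * Y := mul_le_mul_of_nonneg_right hε2 (by linarith)
    linarith
  obtain ⟨n, hn, hgood⟩ := hex
  have g5 := hgood y₀ le_rfl le_rfl
  rw [mem_Ioc] at hn
  have hnx : x < n := (Nat.floor_lt hx0.le).1 hn.1
  have hn2 : (n : ℝ) ≤ 2 * x := by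
    have := (Nat.le_floor_iff (by linarith)).1 hn.2
    linarith
  have hln : Real.log n ≤ Λ + 1 := by
    calc Real.log n ≤ Real.log (2 * x) := Real.log_le_log (by linarith) hn2
      _ = Real.log 2 + Λ := Real.log_mul (by norm_num) hx0.ne'
      _ ≤ Λ + 1 := by linarith [Real.log_two_lt_d9]
  have hln0 : 0 ≤ Real.log n := Real.log_nonneg (by linarith)
  have g6 := hN n y₀ (by linarith)
    (((Real.rpow_le_rpow hln0 hln (by linarith)).trans h1).trans hy0) (by linarith)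
  have g7 : |u - 1| ≤ ε + ε * (1 + u) := by
    calc |u - 1| = |(R n y₀ - 1) - (R n y₀ - u)| := by ring_nf
      _ ≤ |R n y₀ - 1| + |R n y₀ - u| := abs_sub _ _
      _ ≤ ε + ε * (1 + u) := add_le_add g6 g5
  have g8 : u ≤ 1 + |u - 1| := by linarith [le_abs_self (u - 1)]
  have g9 : ε * (1 + u) ≤ ε * (2 + |u - 1|) := mul_le_mul_of_nonneg_left (by linarith) hε.le
  have g10 : ε * |u - 1| ≤ 1 / 4 * |u - 1| := mul_le_mul_of_nonneg_right hε2 (abs_nonneg _)
  linarith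

end Pool.Agent.N610.HX.EQ2

namespace Pool.Agent.N610.HX

open Finset Filter Topology
open Pool.Agent.N610.HX.EQ2

/-- the uniform asymptotics fail if and only if there are homogeneous windows of density `≠ 1` -/
theorem t_EQ2 (hI : S_INC) (hD : S_DEC) : S_UA ↔ ∀ δ : ℝ, 0 < δ → ¬ HW δ := by
  refine ⟨fun h δ hδ => no_hw h δ hδ, fun h => ?_⟩
  by_contra hUA
  unfold S_UA at hUA
  push Not at hUA
  obtain ⟨ε0, hε0, hbad⟩ := hUA
  refine h ε0 hε0 fun K ε A hK hε hA => ?_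
  have he1 : 0 < min ε 1 := lt_min hε one_pos
  obtain ⟨B1, hB1, hI1⟩ := hI K (min ε 1) A hK he1 (min_le_right _ _) hA
  obtain ⟨B2, hB2, hD1⟩ := hD K (min ε 1) A hK he1 (min_le_right _ _) hA
  rw [Filter.frequently_atTop]
  intro X0
  obtain ⟨T, hT⟩ := eventually_atTop.1 ((hI1.and hD1).and
    (Real.tendsto_log_atTop.eventually_ge_atTop 1))
  set N := max (max (max X0 T) (max B1 B2)) 2 with hN
  have hNX : X0 ≤ N := (le_max_left _ _).trans ((le_max_left _ _).trans (le_max_left _ _))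
  have hNT : T ≤ N := (le_max_right _ _).trans ((le_max_left _ _).trans (le_max_left _ _))
  have hNB1 : B1 ≤ N := (le_max_left _ _).trans ((le_max_right _ _).trans (le_max_left _ _))
  have hNB2 : B2 ≤ N := (le_max_right _ _).trans ((le_max_right _ _).trans (le_max_left _ _))
  have hN2 : 2 ≤ N := le_max_right _ _
  obtain ⟨x, Y, hx, hY1, hY2, hR⟩ := hbad N (by linarith)
  obtain ⟨⟨hI2, hD2⟩, hlx⟩ := hT x (hNT.trans hx)
  have hY3 : Real.log x ^ B1 ≤ Y := (Real.rpow_le_rpow_of_exponent_le hlx hNB1).trans hY1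
  have hY4 : Real.log x ^ B2 ≤ Y := (Real.rpow_le_rpow_of_exponent_le hlx hNB2).trans hY1
  rcases lt_abs.1 hR with h1 | h1
  · obtain ⟨x', Y', y₀, u, g1, g2, g3, g4, g5, g6, g7⟩ := hI2 Y hY3 hY2 (by linarith)
    have hu0 : 0 ≤ u := by linarith
    have hy0 : 0 ≤ y₀ := le_trans (Real.rpow_nonneg (Real.log_nonneg (by linarith)) _) g4
    have hY'0 : 0 ≤ Y' := le_trans (mul_nonneg (by linarith) hy0) g5
    refine ⟨x', by linarith, u, y₀, Y', hu0, ?_, g4, g5, by linarith,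
      HomW_mono g7 (min_le_left _ _) hu0 hY'0⟩
    rw [abs_of_nonneg (by linarith)]
    linarith
  · obtain ⟨x', Y', y₀, u, g1, g2, g3, g4, g5, g6, g7, g8⟩ := hD2 Y hY4 hY2 (by linarith)
    have hy0 : 0 ≤ y₀ := le_trans (Real.rpow_nonneg (Real.log_nonneg (by linarith)) _) g4
    have hY'0 : 0 ≤ Y' := le_trans (mul_nonneg (by linarith) hy0) g5
    refine ⟨x', by linarith, u, y₀, Y', g6, ?_, g4, g5, by linarith,
      HomW_mono g8 (min_le_left _ _) g6 hY'0⟩
    rw [abs_of_nonpos (by linarith)]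
    linarith

end Pool.Agent.N610.HX
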