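import Pool.Agent.N610.HX.Stm

set_option autoImplicit false

/-!
# Extremal windows are homogeneous: the final argument (project HX, helper610)
-/

namespace Pool.Agent.N610.HX.FN

open Finset Filter Topology
open Pool.Agent.N610.HX

theorem Hom_mono {l ε ε' a b c b' x : ℝ} (h : Hom l ε' a c b' x) (hε : ε' ≤ ε) (hb : b ≤ c)
    (hx : 1 ≤ Real.log x) : Hom l ε a b b' x := by
  classical
  unfold Hom at h ⊢
  have h0 : 0 ≤ Real.log x ^ b' := Real.rpow_nonneg (by linarith) _
  refine le_trans ?_ (h.trans (mul_le_mul_of_nonneg_right hε h0))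
  norm_cast
  apply card_le_card
  intro n hn
  rw [mem_filter] at hn ⊢
  refine ⟨hn.1, fun h1 => hn.2 fun y hy1 hy2 => ?_⟩
  exact (h1 y hy1 (hy2.trans (Real.rpow_le_rpow_of_exponent_le hx hb))).trans hε

theorem log_ev : ∀ᶠ x : ℝ in atTop, 1 ≤ Real.log x :=
  Real.tendsto_log_atTop.eventually_ge_atTop 1

theorem freq_mono {l ε ε' a b c b' : ℝ} (h : ∃ᶠ x : ℝ in atTop, Hom l ε' a c b' x) (hε : ε' ≤ ε)
    (hb : b ≤ c) : ∃ᶠ x : ℝ in atTop, Hom l ε a b b' x :=
  (h.and_eventually log_ev).mono fun _ hx => Hom_mono hx.1 hε hb hx.2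

/-- the functions, made monotone on the whole line -/
noncomputable def Lo1 (a : ℝ) : EReal := Lo (max a 1)

noncomputable def Up1 (a : ℝ) : EReal := Up (max a 1)

theorem Lo1_mono (h : S_MO) : Monotone Lo1 := fun a b hab =>
  (h (max a 1) (max b 1) (lt_max_of_lt_right one_pos) (max_le_max_right _ hab)).2.1

theorem Up1_anti (h : S_MO) : Antitone Up1 := fun a b hab =>
  (h (max a 1) (max b 1) (lt_max_of_lt_right one_pos) (max_le_max_right _ hab)).2.2

theorem Lo1_eq {a : ℝ} (ha : 1 ≤ a) : Lo1 a = Lo a := by rw [Lo1, max_eq_left ha]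

theorem Up1_eq {a : ℝ} (ha : 1 ≤ a) : Up1 a = Up a := by rw [Up1, max_eq_left ha]

theorem real_of {L : EReal} (h0 : 0 ≤ L) (h1 : L ≤ 1) : ∃ l : ℝ, L = (l : EReal) ∧ 0 ≤ l ∧ l ≤ 1 := by
  have hb : L ≠ ⊥ := by
    rintro rfl
    exact absurd h0 (by simp)
  have ht : L ≠ ⊤ := by
    rintro rfl
    exact absurd h1 (by
      rw [not_le]
      exact EReal.coe_lt_top 1)
  refine ⟨L.toReal, (EReal.coe_toReal ht hb).symm, ?_, ?_⟩
  · have := EReal.coe_toReal ht hb
    rw [← this] at h0
    exact_mod_cast h0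
  · have := EReal.coe_toReal ht hb
    rw [← this] at h1
    exact_mod_cast h1

/-- a common form of the approximation -/
theorem near {f : ℝ → EReal} {a l η : ℝ} (hf : ContinuousAt f a) (hl : f a = (l : EReal))
    (hη : 0 < η) : ∃ r : ℝ, 0 < r ∧ ∀ t : ℝ, |t - a| < r →
      ((l - η : ℝ) : EReal) < f t ∧ f t < ((l + η : ℝ) : EReal) := by
  have h1 : ∀ᶠ t in 𝓝 a, ((l - η : ℝ) : EReal) < f t ∧ f t < ((l + η : ℝ) : EReal) := by
    have h2 : ((l - η : ℝ) : EReal) < f a := by
      rw [hl]; exact_mod_cast (by linarith : l - η < l)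
    have h3 : f a < ((l + η : ℝ) : EReal) := by
      rw [hl]; exact_mod_cast (by linarith : l < l + η)
    exact (hf.eventually (lt_mem_nhds h2)).and (hf.eventually (gt_mem_nhds h3))
  rw [Metric.eventually_nhds_iff] at h1
  obtain ⟨r, hr, h2⟩ := h1
  exact ⟨r, hr, fun t ht => h2 (by rwa [Real.dist_eq])⟩

end Pool.Agent.N610.HX.FN

namespace Pool.Agent.N610.HX

open Finset Filter Topology
open Pool.Agent.N610.HX.FN

theorem t_FN (hMO : S_MO) (hMR : S_MR) (hHL : S_HL) (hHU : S_HU) : S_FN := by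
  have hLe : ∀ a : ℝ, 1 < a → Lo a ≤ 1 := by
    intro a ha
    obtain ⟨δ, hδ, h1, -⟩ := hMR a ha
    exact h1.trans (by exact_mod_cast (by linarith : (1 : ℝ) - δ ≤ 1))
  have hUe : ∀ a : ℝ, 1 < a → 1 ≤ Up a := by
    intro a ha
    obtain ⟨δ, hδ, -, h1⟩ := hMR a ha
    exact le_trans (by exact_mod_cast (by linarith : (1 : ℝ) ≤ 1 + δ)) h1
  refine ⟨?_, ?_, ?_⟩
  · refine ⟨{a | ¬ ContinuousAt Lo1 a} ∪ {a | ¬ ContinuousAt Up1 a},
      (Lo1_mono hMO).countable_not_continuousAt.union (Up1_anti hMO).countable_not_continuousAt,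
      fun a ha haE => ?_⟩
    rw [Set.mem_union, not_or] at haE
    simp only [Set.mem_setOf_eq, not_not] at haE
    obtain ⟨hcL, hcU⟩ := haE
    refine ⟨?_, ?_⟩
    · obtain ⟨δ, hδ, h1, -⟩ := hMR a ha
      obtain ⟨l, hl, hl0, -⟩ := real_of (hMO a a (by linarith) le_rfl).1 (hLe a ha)
      have hl1 : l < 1 := by
        rw [hl] at h1
        have : l ≤ 1 - δ := by exact_mod_cast h1
        linarith
      refine ⟨l, hl, hl0, hl1, fun ε hε => ?_⟩
      have he1 : 0 < min ε 1 := lt_min hε one_pos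
      obtain ⟨r, hr, h2⟩ := near (η := (min ε 1) ^ 2 / 100) hcL ((Lo1_eq ha.le).trans hl)
        (by positivity)
      have hm : 0 < min r (a - 1) := lt_min hr (by linarith)
      have hm1 : min r (a - 1) ≤ r := min_le_left _ _
      have hm2 : min r (a - 1) ≤ a - 1 := min_le_right _ _
      refine ⟨min r (a - 1) / 4, by positivity, by linarith, ?_⟩
      set κ : ℝ := min r (a - 1) / 4 with hκ
      have hκ0 : 0 < κ := by positivity
      have h3 := (h2 (a - 3 * κ / 2) (by rw [abs_lt]; constructor <;> linarith)).1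
      have h4 := (h2 (a + 2 * κ) (by rw [abs_lt]; constructor <;> linarith)).2
      rw [Lo1_eq (by linarith)] at h3 h4
      exact freq_mono (hHL (a - 3 * κ / 2) (a - κ) (a + κ) (a + 2 * κ) l (min ε 1) (by linarith)
        (by linarith) (by linarith) (by linarith) hl0 he1 (min_le_right _ _) h3 h4)
        (min_le_left _ _) le_rfl
    · intro u hu
      obtain ⟨δ, hδ, -, h1⟩ := hMR a ha
      have hu1 : 1 < u := by
        rw [hu] at h1
        have : 1 + δ ≤ u := by exact_mod_cast h1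
        linarith
      refine ⟨hu1, fun ε hε => ?_⟩
      have he1 : 0 < min ε 1 := lt_min hε one_pos
      obtain ⟨r, hr, h2⟩ := near (η := (min ε 1) ^ 2 / 100) hcU ((Up1_eq ha.le).trans hu)
        (by positivity)
      have hm : 0 < min r (a - 1) := lt_min hr (by linarith)
      have hm1 : min r (a - 1) ≤ r := min_le_left _ _
      have hm2 : min r (a - 1) ≤ a - 1 := min_le_right _ _
      refine ⟨min r (a - 1) / 4, by positivity, by linarith, ?_⟩
      set κ : ℝ := min r (a - 1) / 4 with hκ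
      have hκ0 : 0 < κ := by positivity
      have h3 := (h2 (a - 3 * κ / 2) (by rw [abs_lt]; constructor <;> linarith)).2
      have h4 := (h2 (a + 2 * κ) (by rw [abs_lt]; constructor <;> linarith)).1
      rw [Up1_eq (by linarith)] at h3 h4
      exact freq_mono (hHU (a - 3 * κ / 2) (a - κ) (a + κ) (a + 2 * κ) u (min ε 1) (by linarith)
        (by linarith) (by linarith) (by linarith) (by linarith) he1 (min_le_right _ _) h3 h4)
        (min_le_left _ _) le_rfl
  · have ht : Tendsto Lo1 atTop (𝓝 (⨆ a, Lo1 a)) := tendsto_atTop_iSup (Lo1_mono hMO)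
    have hs0 : 0 ≤ ⨆ a, Lo1 a := by
      refine le_trans ?_ (le_iSup Lo1 2)
      rw [Lo1_eq (by norm_num)]
      exact (hMO 2 2 (by norm_num) le_rfl).1
    have hs1 : (⨆ a, Lo1 a) ≤ 1 := by
      refine iSup_le fun a => ?_
      refine ((Lo1_mono hMO) (le_max_left a 2)).trans ?_
      rw [Lo1_eq ((by norm_num : (1 : ℝ) ≤ 2).trans (le_max_right _ _))]
      exact hLe _ (lt_of_lt_of_le (by norm_num) (le_max_right _ _))
    obtain ⟨l, hl, hl0, hl1⟩ := real_of hs0 hs1
    rw [hl] at ht
    refine ⟨l, ?_, hl0, hl1, fun ε M hε hM => ?_⟩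
    · refine ht.congr' ?_
      filter_upwards [eventually_ge_atTop 1] with a ha
      exact Lo1_eq ha
    · have he1 : 0 < min ε 1 := lt_min hε one_pos
      have hη : 0 < (min ε 1) ^ 2 / 100 := by positivity
      have h1 : ∀ᶠ a : ℝ in atTop, ((l - (min ε 1) ^ 2 / 100 : ℝ) : EReal) < Lo1 a :=
        ht.eventually (lt_mem_nhds (by exact_mod_cast (by linarith : l - (min ε 1) ^ 2 / 100 < l)))
      obtain ⟨a₁, h2⟩ := eventually_atTop.1 h1
      refine ⟨max a₁ 1 + 1, fun a ha => ?_⟩
      have ha1 : a₁ ≤ a - 1 := by linarith [le_max_left a₁ 1]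
      have ha2 : 1 ≤ a - 1 := by linarith [le_max_right a₁ 1]
      have hMa : a ≤ M * a := by nlinarith
      have h3 := h2 (a - 1 / 2) (by linarith)
      rw [Lo1_eq (by linarith)] at h3
      have h4 : Lo (M * a + 1) < ((l + (min ε 1) ^ 2 / 100 : ℝ) : EReal) := by
        have h5 : Lo1 (M * a + 1) ≤ (l : EReal) := by
          rw [← hl]; exact le_iSup Lo1 _
        rw [Lo1_eq (by linarith)] at h5
        exact lt_of_le_of_lt h5 (by exact_mod_cast (by linarith : l < l + (min ε 1) ^ 2 / 100))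
      exact freq_mono (hHL (a - 1 / 2) a (M * a + 1 / 2) (M * a + 1) l (min ε 1) (by linarith)
        (by linarith) (by linarith) (by linarith) hl0 he1 (min_le_right _ _) h3 h4)
        (min_le_left _ _) (by linarith)
  · have ht : Tendsto Up1 atTop (𝓝 (⨅ a, Up1 a)) := tendsto_atTop_iInf (Up1_anti hMO)
    have hs1 : 1 ≤ ⨅ a, Up1 a := by
      refine le_iInf fun a => ?_
      refine le_trans ?_ ((Up1_anti hMO) (le_max_left a 2))
      rw [Up1_eq ((by norm_num : (1 : ℝ) ≤ 2).trans (le_max_right _ _))]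
      exact hUe _ (lt_of_lt_of_le (by norm_num) (le_max_right _ _))
    refine ⟨⨅ a, Up1 a, ?_, hs1, fun v hv ε M hε hM => ?_⟩
    · refine ht.congr' ?_
      filter_upwards [eventually_ge_atTop 1] with a ha
      exact Up1_eq ha
    · have hv1 : 1 ≤ v := by
        rw [hv] at hs1
        exact_mod_cast hs1
      rw [hv] at ht
      have he1 : 0 < min ε 1 := lt_min hε one_pos
      have hη : 0 < (min ε 1) ^ 2 / 100 := by positivity
      have h1 : ∀ᶠ a : ℝ in atTop, Up1 a < ((v + (min ε 1) ^ 2 / 100 : ℝ) : EReal) :=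
        ht.eventually (gt_mem_nhds (by exact_mod_cast (by linarith : v < v + (min ε 1) ^ 2 / 100)))
      obtain ⟨a₁, h2⟩ := eventually_atTop.1 h1
      refine ⟨max a₁ 1 + 1, fun a ha => ?_⟩
      have ha1 : a₁ ≤ a - 1 := by linarith [le_max_left a₁ 1]
      have ha2 : 1 ≤ a - 1 := by linarith [le_max_right a₁ 1]
      have hMa : a ≤ M * a := by nlinarith
      have h3 := h2 (a - 1 / 2) (by linarith)
      rw [Up1_eq (by linarith)] at h3
      have h4 : ((v - (min ε 1) ^ 2 / 100 : ℝ) : EReal) < Up (M * a + 1) := by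
        have h5 : (v : EReal) ≤ Up1 (M * a + 1) := by
          rw [← hv]; exact iInf_le Up1 _
        rw [Up1_eq (by linarith)] at h5
        exact lt_of_lt_of_le (by exact_mod_cast (by linarith : v - (min ε 1) ^ 2 / 100 < v)) h5
      exact freq_mono (hHU (a - 1 / 2) a (M * a + 1 / 2) (M * a + 1) v (min ε 1) (by linarith)
        (by linarith) (by linarith) (by linarith) (by linarith) he1 (min_le_right _ _) h3 h4)
        (min_le_left _ _) (by linarith)

end Pool.Agent.N610.HX
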