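import Pool.Agent.N610.HX.Stm

set_option autoImplicit false

namespace Pool.Agent.N610.HX

namespace GR

theorem lower (G : ℝ → ℝ) (hG : Monotone G) (z S s c : ℝ) (hs : 0 < s) (hc : 0 ≤ c) (m : ℕ) :
    ∀ x : ℝ, x ≤ z → z - x ≤ m * s →
    (∀ t, x ≤ t → t + S ≤ z → ∃ v, s ≤ v ∧ v ≤ S ∧ c * v ≤ G (t + v) - G t) →
    c * (z - x - S) ≤ G z - G x := by
  induction m with
  | zero =>
    intro x hx hm h
    rcases lt_or_ge (z - x) S with h1 | h1
    · have h2 : c * (z - x - S) ≤ 0 := mul_nonpos_of_nonneg_of_nonpos hc (by linarith)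
      have h3 := hG hx
      linarith
    · exfalso
      obtain ⟨v, hv1, hv2, _⟩ := h x le_rfl (by linarith)
      rw [Nat.cast_zero, zero_mul] at hm
      linarith
  | succ m ih =>
    intro x hx hm h
    rcases lt_or_ge (z - x) S with h1 | h1
    · have h2 : c * (z - x - S) ≤ 0 := mul_nonpos_of_nonneg_of_nonpos hc (by linarith)
      have h3 := hG hx
      linarith
    · obtain ⟨v, hv1, hv2, hv3⟩ := h x le_rfl (by linarith)
      rw [Nat.cast_succ, add_mul, one_mul] at hm
      have h2 := ih (x + v) (by linarith) (by linarith) fun t ht ht' =>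
        h t (by linarith) ht'
      have h3 : c * (z - x - S) = c * (z - (x + v) - S) + c * v := by ring
      linarith

theorem upper (G : ℝ → ℝ) (hG : Monotone G) (z S s c : ℝ) (hs : 0 < s) (hc : 0 ≤ c) (m : ℕ) :
    ∀ x : ℝ, x ≤ z → z - x ≤ m * s →
    (∀ t, x ≤ t → t ≤ z → ∃ v, s ≤ v ∧ v ≤ S ∧ G (t + v) - G t ≤ c * v) →
    G z - G x ≤ c * (z - x + S) := by
  have base : ∀ x v : ℝ, x ≤ z → v ≤ S → G (x + v) - G x ≤ c * v → z ≤ x + v →
      G z - G x ≤ c * (z - x + S) := by
    intro x v hx hv hv3 hz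
    have h1 := hG hz
    have h2 : c * v ≤ c * (z - x + S) := mul_le_mul_of_nonneg_left (by linarith) hc
    linarith
  induction m with
  | zero =>
    intro x hx hm h
    obtain ⟨v, hv1, hv2, hv3⟩ := h x le_rfl hx
    rw [Nat.cast_zero, zero_mul] at hm
    exact base x v hx hv2 hv3 (by linarith)
  | succ m ih =>
    intro x hx hm h
    obtain ⟨v, hv1, hv2, hv3⟩ := h x le_rfl hx
    rcases le_or_gt z (x + v) with h1 | h1
    · exact base x v hx hv2 hv3 h1
    · rw [Nat.cast_succ, add_mul, one_mul] at hm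
      have h2 := ih (x + v) h1.le (by linarith) fun t ht ht' => h t (by linarith) ht'
      have h3 : c * (z - x + S) = c * (z - (x + v) + S) + c * v := by ring
      linarith

end GR

theorem t_GR : S_GR := by
  intro G hG x z S s c hs hc hx
  obtain ⟨m, hm⟩ := exists_nat_ge ((z - x) / s)
  rw [div_le_iff₀ hs] at hm
  exact ⟨GR.lower G hG z S s c hs hc m x hx hm, GR.upper G hG z S s c hs hc m x hx hm⟩

end Pool.Agent.N610.HX
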