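import Pool.Agent.N610.HX.Stm

set_option autoImplicit false

/-!
# Homogeneous windows, lower densities
-/

namespace Pool.Agent.N610.HX.HLp

open Finset Filter Topology

theorem F_mono : Monotone F := by
  intro s t h
  unfold F
  exact_mod_cast Nat.monotone_primeCounting (Nat.floor_mono h)

/-- comparison of two lower densities -/
theorem alpha_le {l η δ Λ : ℝ} (hη : 0 < η) (hδ1 : δ ≤ 1) (hδ : 0 < δ) (hl : 0 ≤ l)
    (hlδ : 3 * l * δ ≤ η) (hΛ : 1 ≤ Λ) (hΛδ : 1 ≤ δ * (Λ + 1)) :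
    max (l - 2 * η) 0 / Λ ≤ max (l - η) 0 / (Λ + 1) * (1 - δ) := by
  rcases le_total (l - 2 * η) 0 with h | h
  · rw [max_eq_right h, zero_div]
    have h1 : 0 ≤ max (l - η) 0 := le_max_right _ _
    exact mul_nonneg (div_nonneg h1 (by linarith)) (by linarith)
  · rw [max_eq_left h, max_eq_left (by linarith : (0 : ℝ) ≤ l - η), div_mul_eq_mul_div,
      div_le_div_iff₀ (by linarith) (by linarith)]
    have h1 : (Λ + 1) * (1 - δ) ≤ Λ := by nlinarith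
    have h0 : 0 ≤ (l - η) * (1 - δ) := mul_nonneg (by linarith) (by linarith)
    have h2 : (l - η) * (1 - δ) * ((Λ + 1) * (1 - δ)) ≤ (l - η) * (1 - δ) * Λ :=
      mul_le_mul_of_nonneg_left h1 h0
    have h3 : l - 2 * η ≤ (l - η) * (1 - δ) * (1 - δ) := by
      have h4 : (l - η) * (1 - δ) * (1 - δ) = (l - η) - 2 * δ * (l - η) + (l - η) * δ ^ 2 := by
        ring
      rw [h4]
      have h5 : 0 ≤ (l - η) * δ ^ 2 := mul_nonneg (by linarith) (by positivity)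
      have h6 : 0 ≤ δ * η := by positivity
      have h7 : 0 ≤ l * δ := by positivity
      nlinarith
    have h4 : (l - 2 * η) * (Λ + 1) ≤ (l - η) * (1 - δ) * (1 - δ) * (Λ + 1) :=
      mul_le_mul_of_nonneg_right h3 (by linarith)
    calc (l - 2 * η) * (Λ + 1) ≤ (l - η) * (1 - δ) * (1 - δ) * (Λ + 1) := h4
      _ = (l - η) * (1 - δ) * ((Λ + 1) * (1 - δ)) := by ring
      _ ≤ (l - η) * (1 - δ) * Λ := h2

theorem R_ge {n y Λ c : ℝ} (hy : 0 < y) (hΛ : 0 < Λ) (hn : Λ ≤ Real.log n) (hc : 0 ≤ c)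
    (h : c / Λ * y ≤ F (n + y) - F n) : c ≤ R n y := by
  unfold R
  rw [div_div_eq_mul_div, le_div_iff₀ hy]
  have h1 : c * y = c / Λ * y * Λ := by field_simp
  have h2 : 0 ≤ c / Λ * y := by positivity
  rw [h1]
  calc c / Λ * y * Λ ≤ (F (n + y) - F n) * Λ := mul_le_mul_of_nonneg_right h hΛ.le
    _ ≤ (F (n + y) - F n) * Real.log n := mul_le_mul_of_nonneg_left hn (h2.trans h)

theorem F_ge {n y Λ c : ℝ} (hy : 0 < y) (hn0 : 0 < Real.log n) (hn : Real.log n ≤ Λ)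
    (h : c ≤ R n y) : c / Λ * y ≤ F (n + y) - F n := by
  unfold R at h
  rw [div_div_eq_mul_div, le_div_iff₀ hy] at h
  rw [div_mul_eq_mul_div, div_le_iff₀ (by linarith)]
  have h0 : 0 ≤ F (n + y) - F n := sub_nonneg.2 (F_mono (by linarith))
  exact h.trans (mul_le_mul_of_nonneg_left hn h0)

theorem floor_gt {x : ℝ} {n : ℕ} (h : ⌊x⌋₊ < n) : x < n := (Nat.floor_lt' (by omega)).1 h

open Classical in
theorem core (h1 : S_GR) (h2 : S_GH) {x Λ Sg S S1 S2 Y l ε η δ : ℝ} (hx : 0 < x)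
    (hΛ : Λ = Real.log x) (hΛ1 : 1 ≤ Λ) (hε : 0 < ε) (hε1 : ε ≤ 1) (hl : 0 ≤ l)
    (hη : η = ε ^ 2 / 100) (hδ : 0 < δ) (hδε : δ ≤ ε / 8) (hlδ : 3 * l * δ ≤ η)
    (hlow : ∀ t, x ≤ t → t ≤ 2 * x → ∃ v, 1 ≤ v ∧ v ≤ Sg ∧
      max (l - η) 0 / (Λ + 1) * v ≤ F (t + v) - F t)
    (hSg0 : 0 ≤ Sg) (hSg : Sg ≤ δ * S) (hS : S ≤ δ * S1) (hS1 : 1 ≤ S1) (hS12 : S1 ≤ S2)
    (hS2 : S2 ≤ δ * Y) (h1Y : 1 ≤ δ * Y) (hSY : S ≤ δ * Y) (hY : Y + S2 ≤ x)
    (hΛδ : 1 ≤ δ * (Λ + 1)) (hΛε : l + ε / 2 ≤ ε / 2 * Λ)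
    (hup : F (x + Y) - F x ≤ (l + η) * Y / Λ) :
    (((Ioc ⌊x⌋₊ ⌊x + Y⌋₊).filter (fun n : ℕ => ¬ ∀ y : ℝ, S1 ≤ y → y ≤ S2 →
      |R n y - l| ≤ ε)).card : ℝ) ≤ ε * Y := by
  have hη0 : 0 < η := by rw [hη]; positivity
  have hηε : 2 * η ≤ ε := by rw [hη]; nlinarith
  have hδ1 : δ ≤ 1 := by linarith
  have hΛ0 : 0 < Λ := by linarith
  have hS0 : 0 ≤ S := by
    by_contra hneg
    have h3 : δ * S < 0 := mul_neg_of_pos_of_neg hδ (not_le.1 hneg)
    linarith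
  have hSS1 : S ≤ S1 := by nlinarith
  have hY0 : 0 < Y := by
    by_contra hneg
    have h3 : δ * Y ≤ 0 := mul_nonpos_of_nonneg_of_nonpos hδ.le (not_lt.1 hneg)
    linarith
  obtain ⟨A, hA⟩ : ∃ A, A = max (l - 2 * η) 0 := ⟨_, rfl⟩
  have hA0 : 0 ≤ A := by rw [hA]; exact le_max_right _ _
  have hAl : A ≤ l := by rw [hA]; exact max_le (by linarith) hl
  have hAg : l - 2 * η ≤ A := by rw [hA]; exact le_max_left _ _
  have hlog : ∀ t, x ≤ t → t ≤ 2 * x → Λ ≤ Real.log t ∧ Real.log t ≤ Λ + 1 := by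
    intro t ht ht'
    refine ⟨by rw [hΛ]; exact Real.log_le_log hx ht, ?_⟩
    have h3 : Real.log t ≤ Real.log (2 * x) := Real.log_le_log (by linarith) ht'
    rw [Real.log_mul (by norm_num) hx.ne'] at h3
    have h4 : Real.log 2 < 1 := by
      have := Real.log_two_lt_d9
      linarith
    rw [hΛ]
    linarith
  -- the lower bound
  have hb : ∀ t y, x ≤ t → S ≤ y → t + y ≤ 2 * x → A / Λ * y ≤ F (t + y) - F t := by
    intro t y ht hy hty
    have hy0 : 0 ≤ y := hS0.trans hy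
    have hc0 : 0 ≤ max (l - η) 0 / (Λ + 1) := div_nonneg (le_max_right _ _) (by linarith)
    have h3 := (h1 F F_mono t (t + y) Sg 1 (max (l - η) 0 / (Λ + 1)) one_pos hc0
      (by linarith)).1 (fun t' ht' ht'' => hlow t' (by linarith) (by linarith))
    have h4 := alpha_le hη0 hδ1 hδ hl hlδ hΛ1 hΛδ
    rw [← hA] at h4
    have h5 : (1 - δ) * y ≤ t + y - t - Sg := by
      have h6 : δ * S ≤ δ * y := mul_le_mul_of_nonneg_left hy hδ.le
      linarith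
    calc A / Λ * y ≤ (max (l - η) 0 / (Λ + 1) * (1 - δ)) * y :=
          mul_le_mul_of_nonneg_right h4 hy0
      _ = max (l - η) 0 / (Λ + 1) * ((1 - δ) * y) := by ring
      _ ≤ max (l - η) 0 / (Λ + 1) * (t + y - t - Sg) := mul_le_mul_of_nonneg_left h5 hc0
      _ ≤ _ := h3
  obtain ⟨z, hz⟩ : ∃ z, z = x + Y - S2 := ⟨_, rfl⟩
  have hS2Y : S2 ≤ Y := by nlinarith
  have hz0 : 0 ≤ z := by linarith
  -- the points with too large densities
  obtain ⟨B, hB⟩ : ∃ B : Finset ℕ, B = (Ioc ⌊x⌋₊ ⌊z⌋₊).filter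
      (fun n : ℕ => ∃ y, S1 ≤ y ∧ y ≤ S2 ∧ l + ε < R n y) := ⟨_, rfl⟩
  have hBx : ∀ n ∈ B, x ≤ n ∧ (n : ℝ) ≤ z := by
    intro n hn
    rw [hB, mem_filter, mem_Ioc] at hn
    exact ⟨(floor_gt hn.1.1).le, (Nat.le_floor_iff hz0).1 hn.1.2⟩
  have hβα : (l + ε / 2) / Λ ≤ (l + ε) / (Λ + 1) := by
    rw [div_le_div_iff₀ hΛ0 (by linarith)]
    nlinarith
  have hβ : ∀ n ∈ B, ∃ y, S1 ≤ y ∧ y ≤ S2 ∧ (l + ε / 2) / Λ * y ≤ F (n + y) - F n := by
    intro n hn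
    have h3 := hBx n hn
    rw [hB, mem_filter] at hn
    obtain ⟨y, hy1, hy2, hy3⟩ := hn.2
    refine ⟨y, hy1, hy2, ?_⟩
    have hy0 : 0 < y := by linarith
    obtain ⟨h4, h5⟩ := hlog n h3.1 (by linarith)
    have h6 := F_ge hy0 (by linarith) h5 hy3.le
    exact (mul_le_mul_of_nonneg_right hβα hy0.le).trans h6
  have hαβ : A / Λ ≤ (l + ε / 2) / Λ := by
    apply div_le_div_of_nonneg_right _ hΛ0.le
    linarith
  have h6 := (h2 F F_mono x z S S1 S2 (A / Λ) ((l + ε / 2) / Λ) (div_nonneg hA0 hΛ0.le)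
    (div_nonneg (by linarith) hΛ0.le) hS0 hSS1 hS1 hS12 (by linarith) B hBx).1 hαβ
    (fun t y ht hy hty => hb t y ht hy (by linarith)) hβ
  have h7 : z + S2 = x + Y := by rw [hz]; ring
  rw [h7] at h6
  have h8 : A * (1 - S / S1) * (z - x) + (l + ε / 2 - A) * ((B.card : ℝ) / 2) - A * S ≤
      (l + η) * Y := by
    have h9 := h6.trans hup
    have h10 : A / Λ * (1 - S / S1) * (z - x) + ((l + ε / 2) / Λ - A / Λ) * ((B.card : ℝ) / 2) -
        A / Λ * S = (A * (1 - S / S1) * (z - x) + (l + ε / 2 - A) * ((B.card : ℝ) / 2) -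
        A * S) / Λ := by
      ring
    rw [h10] at h9
    exact (div_le_div_iff_of_pos_right hΛ0).1 h9
  have h11 : S / S1 ≤ δ := (div_le_iff₀ (by linarith)).2 hS
  have hzx : z - x = Y - S2 := by rw [hz]; ring
  have h12 : A * ((1 - δ) * ((1 - δ) * Y)) ≤ A * (1 - S / S1) * (z - x) := by
    rw [hzx, mul_assoc]
    apply mul_le_mul_of_nonneg_left _ hA0
    apply mul_le_mul (by linarith) (by linarith) (mul_nonneg (by linarith) hY0.le)
    linarith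
  have h13 : ε / 2 * ((B.card : ℝ) / 2) ≤ (l + ε / 2 - A) * ((B.card : ℝ) / 2) :=
    mul_le_mul_of_nonneg_right (by linarith) (by positivity)
  have h14 : A * S ≤ l * (δ * Y) := mul_le_mul hAl hSY hS0 hl
  have h15 : A * Y - 2 * (l * (δ * Y)) ≤ A * ((1 - δ) * ((1 - δ) * Y)) := by
    have h16 : A * ((1 - δ) * ((1 - δ) * Y)) = A * Y - 2 * (A * (δ * Y)) + A * δ ^ 2 * Y := by
      ring
    rw [h16]
    have h17 : 0 ≤ A * δ ^ 2 * Y := by positivity
    have h18 : A * (δ * Y) ≤ l * (δ * Y) := mul_le_mul_of_nonneg_right hAl (by positivity)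
    linarith
  have h16 : (l - 2 * η) * Y ≤ A * Y := mul_le_mul_of_nonneg_right hAg hY0.le
  have h17 : 3 * (l * (δ * Y)) ≤ η * Y := by
    have := mul_le_mul_of_nonneg_right hlδ hY0.le
    calc 3 * (l * (δ * Y)) = 3 * l * δ * Y := by ring
      _ ≤ η * Y := this
  have h18 : ε / 4 * (B.card : ℝ) ≤ 4 * η * Y := by
    have h19 : (l + η) * Y = l * Y + η * Y := by ring
    have h20 : (l - 2 * η) * Y = l * Y - 2 * (η * Y) := by ring
    have h21 : 4 * η * Y = 4 * (η * Y) := by ring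
    have h22 : ε / 2 * ((B.card : ℝ) / 2) = ε / 4 * (B.card : ℝ) := by ring
    rw [h22] at h13
    rw [h19] at h8
    rw [h20] at h16
    rw [h21]
    linarith
  have h19 : (B.card : ℝ) ≤ ε / 2 * Y := by
    have h20 : ε / 4 * (B.card : ℝ) ≤ ε / 4 * (ε / 2 * Y) := by
      refine h18.trans ?_
      rw [hη]
      have h21 : 0 ≤ ε ^ 2 * Y := by positivity
      nlinarith
    exact le_of_mul_le_mul_left h20 (by linarith)
  -- the bad points
  have hsub : (Ioc ⌊x⌋₊ ⌊x + Y⌋₊).filter (fun n : ℕ => ¬ ∀ y : ℝ, S1 ≤ y → y ≤ S2 →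
      |R n y - l| ≤ ε) ⊆ B ∪ Ioc ⌊z⌋₊ ⌊x + Y⌋₊ := by
    intro n hn
    rw [mem_filter, mem_Ioc] at hn
    obtain ⟨⟨hn1, hn2⟩, hn3⟩ := hn
    rw [mem_union]
    by_cases hnz : n ≤ ⌊z⌋₊
    · left
      rw [hB, mem_filter, mem_Ioc]
      refine ⟨⟨hn1, hnz⟩, ?_⟩
      push Not at hn3
      obtain ⟨y, hy1, hy2, hy3⟩ := hn3
      refine ⟨y, hy1, hy2, ?_⟩
      have hnx : x ≤ n := (floor_gt hn1).le
      have hnY : (n : ℝ) ≤ x + Y := (Nat.le_floor_iff (by linarith)).1 hn2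
      have hy0 : 0 < y := by linarith
      obtain ⟨h4, h5⟩ := hlog n hnx (by linarith)
      have h20 : A ≤ R n y := R_ge hy0 hΛ0 h4 hA0 (hb n y hnx (by linarith) (by linarith))
      rcases lt_abs.1 hy3 with h21 | h21
      · linarith
      · linarith
    · right
      rw [mem_Ioc]
      exact ⟨not_le.1 hnz, hn2⟩
  have h20 := (card_le_card hsub).trans (card_union_le _ _)
  have h21 : ((⌊x + Y⌋₊ - ⌊z⌋₊ : ℕ) : ℝ) ≤ S2 + 1 := by
    have h22 : ⌊z⌋₊ ≤ ⌊x + Y⌋₊ := Nat.floor_mono (by linarith)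
    rw [Nat.cast_sub h22]
    have h23 : (⌊x + Y⌋₊ : ℝ) ≤ x + Y := Nat.floor_le (by linarith)
    have h24 : z < ⌊z⌋₊ + 1 := Nat.lt_floor_add_one z
    linarith
  rw [Nat.card_Ioc] at h20
  have h22 : (((Ioc ⌊x⌋₊ ⌊x + Y⌋₊).filter (fun n : ℕ => ¬ ∀ y : ℝ, S1 ≤ y → y ≤ S2 →
      |R n y - l| ≤ ε)).card : ℝ) ≤ (B.card : ℝ) + ((⌊x + Y⌋₊ - ⌊z⌋₊ : ℕ) : ℝ) := by
    exact_mod_cast h20
  have h23 : δ * Y ≤ ε / 8 * Y := mul_le_mul_of_nonneg_right hδε hY0.le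
  have h24 : 0 ≤ ε * Y := by positivity
  linarith

theorem pow_small {p q : ℝ} (h : p < q) {d : ℝ} (hd : 0 < d) :
    ∀ᶠ x : ℝ in atTop, Real.log x ^ p ≤ d * Real.log x ^ q := by
  have h1 : Tendsto (fun y : ℝ => y ^ (-(q - p))) atTop (𝓝 0) :=
    tendsto_rpow_neg_atTop (by linarith)
  have h2 : ∀ᶠ y : ℝ in atTop, y ^ (-(q - p)) < d := h1.eventually_lt_const hd
  have h3 := Real.tendsto_log_atTop.eventually (h2.and (eventually_gt_atTop 0))
  refine h3.mono ?_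
  rintro x ⟨h4, h5⟩
  have h6 : Real.log x ^ p = Real.log x ^ (-(q - p)) * Real.log x ^ q := by
    rw [← Real.rpow_add h5]
    congr 1
    ring
  rw [h6]
  exact mul_le_mul_of_nonneg_right h4.le (Real.rpow_nonneg h5.le _)

end Pool.Agent.N610.HX.HLp

namespace Pool.Agent.N610.HX

open Finset Filter Topology HLp

theorem t_HL (h1 : S_GR) (h2 : S_GH) : S_HL := by
  intro a' a b b' l ε ha' haa hab hbb hl hε hε1 hlo hup
  obtain ⟨η, hη⟩ : ∃ η, η = ε ^ 2 / 100 := ⟨_, rfl⟩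
  rw [← hη] at hlo hup
  have hη0 : 0 < η := by rw [hη]; positivity
  obtain ⟨δ, hδ, hδε, hlδ⟩ : ∃ δ : ℝ, 0 < δ ∧ δ ≤ ε / 8 ∧ 3 * l * δ ≤ η := by
    refine ⟨min (ε / 8) (η / (3 * (l + 1))), lt_min (by positivity) (by positivity),
      min_le_left _ _, ?_⟩
    calc 3 * l * min (ε / 8) (η / (3 * (l + 1))) ≤ 3 * l * (η / (3 * (l + 1))) :=
          mul_le_mul_of_nonneg_left (min_le_right _ _) (by positivity)
      _ = η * (l / (l + 1)) := by field_simp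
      _ ≤ η * 1 := mul_le_mul_of_nonneg_left ((div_le_one (by linarith)).2 (by linarith)) hη0.le
      _ = η := mul_one _
  have hF : ∃ᶠ x : ℝ in atTop, R x (Real.log x ^ b') < l + η := by
    have h3 := frequently_lt_of_liminf_lt (by isBoundedDefault) hup
    exact h3.mono (fun x hx => by exact_mod_cast hx)
  have hE : ∀ᶠ t : ℝ in atTop, l - η < R t (Real.log t ^ a') := by
    have h3 := eventually_lt_of_lt_liminf hlo
    exact h3.mono (fun x hx => by exact_mod_cast hx)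
  obtain ⟨T0, hT0⟩ := eventually_atTop.1 hE
  -- the conditions on `x`
  have hlogT : Tendsto Real.log atTop atTop := Real.tendsto_log_atTop
  have e1 : ∀ᶠ x : ℝ in atTop, 1 ≤ Real.log x := hlogT.eventually_ge_atTop 1
  have e2 : ∀ᶠ x : ℝ in atTop, 1 / δ ≤ Real.log x := hlogT.eventually_ge_atTop _
  have e3 : ∀ᶠ x : ℝ in atTop, (l + ε / 2) / (ε / 2) ≤ Real.log x :=
    hlogT.eventually_ge_atTop _
  have e4 : ∀ᶠ x : ℝ in atTop, Real.log x ^ a' ≤
      (δ / 2 ^ a') * Real.log x ^ ((a' + a) / 2) := pow_small (by linarith) (by positivity)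
  have e5 : ∀ᶠ x : ℝ in atTop, Real.log x ^ ((a' + a) / 2) ≤ δ * Real.log x ^ a :=
    pow_small (by linarith) hδ
  have e6 : ∀ᶠ x : ℝ in atTop, Real.log x ^ b ≤ δ * Real.log x ^ b' := pow_small hbb hδ
  have e7 : ∀ᶠ x : ℝ in atTop, Real.log x ^ (0 : ℝ) ≤ δ * Real.log x ^ b' :=
    pow_small (by linarith) hδ
  have e8 : ∀ᶠ x : ℝ in atTop, Real.log x ^ ((a' + a) / 2) ≤ δ * Real.log x ^ b' :=
    pow_small (by linarith) hδ
  have e9 : ∀ᶠ x : ℝ in atTop, Real.log x ^ b' ≤ 1 / 2 * x := by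
    have h3 := (isLittleO_log_rpow_rpow_atTop b' (one_pos)).bound (show (0 : ℝ) < 1 / 2 by norm_num)
    filter_upwards [h3, e1, eventually_gt_atTop 0] with x h4 h5 h6
    rw [Real.rpow_one, Real.norm_of_nonneg (Real.rpow_nonneg (by linarith) _),
      Real.norm_of_nonneg h6.le] at h4
    exact h4
  have hall : ∀ᶠ x : ℝ in atTop, R x (Real.log x ^ b') < l + η → Hom l ε a b b' x := by
    filter_upwards [e1, e2, e3, e4, e5, e6, e7, e8, e9, eventually_gt_atTop 0,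
      eventually_ge_atTop T0] with x e1 e2 e3 e4 e5 e6 e7 e8 e9 hx hxT hR
    obtain ⟨Λ, hΛ⟩ : ∃ Λ, Λ = Real.log x := ⟨_, rfl⟩
    unfold Hom
    rw [← hΛ] at e1 e2 e3 e4 e5 e6 e7 e8 e9 hR ⊢
    have hΛ0 : 0 < Λ := by linarith
    have hY0 : 0 < Λ ^ b' := Real.rpow_pos_of_pos hΛ0 _
    refine core h1 h2 (Sg := (Λ + 1) ^ a') (S := Λ ^ ((a' + a) / 2)) hx hΛ e1 hε hε1 hl hη hδ hδε
      hlδ ?_ (Real.rpow_nonneg (by linarith) _) ?_ e5 ?_ ?_ e6 ?_ e8 ?_ ?_ ?_ ?_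
    · intro t ht ht'
      have hlt : Λ ≤ Real.log t := by rw [hΛ]; exact Real.log_le_log hx ht
      have hlt' : Real.log t ≤ Λ + 1 := by
        have h3 : Real.log t ≤ Real.log (2 * x) := Real.log_le_log (by linarith) ht'
        rw [Real.log_mul (by norm_num) hx.ne'] at h3
        have h4 := Real.log_two_lt_d9
        rw [hΛ]
        linarith
      have hv1 : 1 ≤ Real.log t ^ a' := Real.one_le_rpow (by linarith) (by linarith)
      refine ⟨Real.log t ^ a', hv1, Real.rpow_le_rpow (by linarith) hlt' (by linarith), ?_⟩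
      rcases le_total (l - η) 0 with h3 | h3
      · rw [max_eq_right h3, zero_div, zero_mul]
        exact sub_nonneg.2 (F_mono (by linarith))
      · rw [max_eq_left h3]
        exact F_ge (by linarith) (by linarith) hlt' (hT0 t (by linarith)).le
    · have h3 : (Λ + 1) ^ a' ≤ (2 * Λ) ^ a' :=
        Real.rpow_le_rpow (by linarith) (by linarith) (by linarith)
      rw [Real.mul_rpow (by norm_num) hΛ0.le] at h3
      have h4 : (0 : ℝ) < 2 ^ a' := Real.rpow_pos_of_pos (by norm_num) _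
      calc (Λ + 1) ^ a' ≤ 2 ^ a' * Λ ^ a' := h3
        _ ≤ 2 ^ a' * (δ / 2 ^ a' * Λ ^ ((a' + a) / 2)) := mul_le_mul_of_nonneg_left e4 h4.le
        _ = δ * Λ ^ ((a' + a) / 2) := by field_simp
    · exact Real.one_le_rpow e1 (by linarith)
    · exact Real.rpow_le_rpow_of_exponent_le e1 hab.le
    · rw [Real.rpow_zero] at e7
      exact e7
    · have h3 : δ ≤ 1 := by linarith
      have h4 : Λ ^ b ≤ Λ ^ b' := Real.rpow_le_rpow_of_exponent_le e1 hbb.le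
      linarith
    · rw [div_le_iff₀ hδ] at e2
      nlinarith
    · rw [div_le_iff₀ (by linarith)] at e3
      linarith
    · have h3 : R x (Λ ^ b') < l + η := hR
      unfold R at h3
      rw [← hΛ, div_lt_iff₀ (by positivity)] at h3
      calc F (x + Λ ^ b') - F x ≤ (l + η) * (Λ ^ b' / Λ) := h3.le
        _ = (l + η) * Λ ^ b' / Λ := by ring
  exact hF.mp hall

end Pool.Agent.N610.HX
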