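import Mathlib

set_option autoImplicit false

/-!
# Extremal windows are homogeneous: statements (project HX, helper610)
-/

namespace Pool.Agent.N610.HX

open Finset Filter Topology

/-- the number of the primes up to `t` -/
noncomputable def F (t : ℝ) : ℝ := (Nat.primeCounting ⌊t⌋₊ : ℝ)

/-- `R(x, y) = (π(x + y) - π(x)) / (y / log x)` -/
noncomputable def R (x y : ℝ) : ℝ := (F (x + y) - F x) / (y / Real.log x)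

/-- `L_a = liminf R(x, (log x) ^ a)` -/
noncomputable def Lo (a : ℝ) : EReal :=
  liminf (fun x : ℝ => ((R x (Real.log x ^ a) : ℝ) : EReal)) atTop

/-- `U_a = limsup R(x, (log x) ^ a)` -/
noncomputable def Up (a : ℝ) : EReal :=
  limsup (fun x : ℝ => ((R x (Real.log x ^ a) : ℝ) : EReal)) atTop

open Classical in
/-- The window `(x, x + Y]`, `Y = (log x) ^ b'`, is homogeneous with density `l` and error `ε` between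
the scales `(log x) ^ a` and `(log x) ^ b`: all but at most `ε Y` of its integers `n` satisfy
`|R(n, y) - l| ≤ ε` for ALL real `(log x) ^ a ≤ y ≤ (log x) ^ b`. -/
def Hom (l ε a b b' x : ℝ) : Prop :=
  (((Ioc ⌊x⌋₊ ⌊x + Real.log x ^ b'⌋₊).filter (fun n : ℕ => ¬ ∀ y : ℝ, Real.log x ^ a ≤ y →
    y ≤ Real.log x ^ b → |R n y - l| ≤ ε)).card : ℝ) ≤ ε * Real.log x ^ b'

/-- greedy decomposition of an interval -/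
def S_GR : Prop := ∀ G : ℝ → ℝ, Monotone G → ∀ x z S s c : ℝ, 0 < s → 0 ≤ c → x ≤ z →
  ((∀ t, x ≤ t → t + S ≤ z → ∃ v, s ≤ v ∧ v ≤ S ∧ c * v ≤ G (t + v) - G t) →
    c * (z - x - S) ≤ G z - G x) ∧
  ((∀ t, x ≤ t → t ≤ z → ∃ v, s ≤ v ∧ v ≤ S ∧ G (t + v) - G t ≤ c * v) →
    G z - G x ≤ c * (z - x + S))

/-- many points with too large (too small) densities -/
def S_GH : Prop := ∀ G : ℝ → ℝ, Monotone G → ∀ x z S S1 S2 α β : ℝ, 0 ≤ α → 0 ≤ β → 0 ≤ S →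
  S ≤ S1 → 1 ≤ S1 → S1 ≤ S2 → x ≤ z + S2 → ∀ B : Finset ℕ, (∀ n ∈ B, x ≤ n ∧ (n : ℝ) ≤ z) →
  (α ≤ β → (∀ t y, x ≤ t → S ≤ y → t + y ≤ z + S2 → α * y ≤ G (t + y) - G t) →
    (∀ n ∈ B, ∃ y, S1 ≤ y ∧ y ≤ S2 ∧ β * y ≤ G (n + y) - G n) →
      α * (1 - S / S1) * (z - x) + (β - α) * (B.card / 2) - α * S ≤ G (z + S2) - G x) ∧
  (β ≤ α → (∀ t y, x ≤ t → S ≤ y → t + y ≤ z + S2 + S → G (t + y) - G t ≤ α * y) →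
    (∀ n ∈ B, ∃ y, S1 ≤ y ∧ y ≤ S2 ∧ G (n + y) - G n ≤ β * y) →
      G z - G x ≤ α * (1 + S / S1) * (z + S2 - x) - (α - β) * (B.card / 2) + α * S)

/-- monotonicity in the exponent -/
def S_MO : Prop := ∀ a b : ℝ, 0 < a → a ≤ b → 0 ≤ Lo a ∧ Lo a ≤ Lo b ∧ Up b ≤ Up a

/-- Maier's theorem -/
def S_MR : Prop := ∀ a : ℝ, 1 < a → ∃ δ : ℝ, 0 < δ ∧ Lo a ≤ ((1 - δ : ℝ) : EReal) ∧
  ((1 + δ : ℝ) : EReal) ≤ Up a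

/-- homogeneous windows, lower densities -/
def S_HL : Prop := ∀ a' a b b' l ε : ℝ, 1 < a' → a' < a → a < b → b < b' → 0 ≤ l → 0 < ε → ε ≤ 1 →
  ((l - ε ^ 2 / 100 : ℝ) : EReal) < Lo a' → Lo b' < ((l + ε ^ 2 / 100 : ℝ) : EReal) →
    ∃ᶠ x : ℝ in atTop, Hom l ε a b b' x

/-- homogeneous windows, upper densities -/
def S_HU : Prop := ∀ a' a b b' l ε : ℝ, 1 < a' → a' < a → a < b → b < b' → 0 ≤ l → 0 < ε → ε ≤ 1 →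
  Up a' < ((l + ε ^ 2 / 100 : ℝ) : EReal) → ((l - ε ^ 2 / 100 : ℝ) : EReal) < Up b' →
    ∃ᶠ x : ℝ in atTop, Hom l ε a b b' x

/-- **the main statement** -/
def S_FN : Prop :=
  (∃ E : Set ℝ, E.Countable ∧ ∀ a : ℝ, 1 < a → a ∉ E →
    (∃ l : ℝ, Lo a = (l : EReal) ∧ 0 ≤ l ∧ l < 1 ∧ ∀ ε : ℝ, 0 < ε → ∃ κ : ℝ, 0 < κ ∧ κ < a - 1 ∧
      ∃ᶠ x : ℝ in atTop, Hom l ε (a - κ) (a + κ) (a + 2 * κ) x) ∧
    (∀ u : ℝ, Up a = (u : EReal) → 1 < u ∧ ∀ ε : ℝ, 0 < ε → ∃ κ : ℝ, 0 < κ ∧ κ < a - 1 ∧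
      ∃ᶠ x : ℝ in atTop, Hom u ε (a - κ) (a + κ) (a + 2 * κ) x)) ∧
  (∃ l : ℝ, Tendsto Lo atTop (𝓝 (l : EReal)) ∧ 0 ≤ l ∧ l ≤ 1 ∧ ∀ ε M : ℝ, 0 < ε → 1 ≤ M →
    ∃ a₀ : ℝ, ∀ a : ℝ, a₀ ≤ a → ∃ᶠ x : ℝ in atTop, Hom l ε a (M * a) (M * a + 1) x) ∧
  (∃ u : EReal, Tendsto Up atTop (𝓝 u) ∧ 1 ≤ u ∧ ∀ v : ℝ, u = (v : EReal) → ∀ ε M : ℝ, 0 < ε →
    1 ≤ M → ∃ a₀ : ℝ, ∀ a : ℝ, a₀ ≤ a → ∃ᶠ x : ℝ in atTop, Hom v ε a (M * a) (M * a + 1) x)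

end Pool.Agent.N610.HX
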