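import Mathlib
import Pool.Agent.N610.HX.Stm

set_option autoImplicit false

/-!
# Homogeneous windows, upper densities (project HX of helper610; leaf HU, helper278)
-/

namespace Pool.Agent.N610.HX.HUaux

open Finset Filter Topology Pool.Agent.N610.HX

theorem F_mono : Monotone F := by
  intro s t hst
  unfold F
  exact_mod_cast Nat.monotone_primeCounting (Nat.floor_mono hst)

/-- the inequality between the increments and the densities -/
theorem R_lt {x y c : ℝ} (hx : 0 < Real.log x) (hy : 0 < y) :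
    R x y < c ↔ (F (x + y) - F x) * Real.log x < c * y := by
  unfold R
  rw [div_lt_iff₀ (by positivity)]
  rw [show c * (y / Real.log x) = (c * y) / Real.log x by ring, lt_div_iff₀ hx]

theorem lt_R {x y c : ℝ} (hx : 0 < Real.log x) (hy : 0 < y) :
    c < R x y ↔ c * y < (F (x + y) - F x) * Real.log x := by
  unfold R
  rw [lt_div_iff₀ (by positivity)]
  rw [show c * (y / Real.log x) = (c * y) / Real.log x by ring, div_lt_iff₀ hx]

theorem R_nonneg {x y : ℝ} (hx : 0 < Real.log x) (hy : 0 < y) : 0 ≤ R x y := by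
  unfold R
  have h1 := F_mono (show x ≤ x + y by linarith)
  exact div_nonneg (by linarith) (by positivity)

theorem ev_pow (p q K : ℝ) (h : p < q) : ∀ᶠ t : ℝ in atTop, K * t ^ p ≤ t ^ q := by
  have h1 : Tendsto (fun t : ℝ => t ^ (q - p)) atTop atTop := tendsto_rpow_atTop (by linarith)
  filter_upwards [h1.eventually_ge_atTop K, eventually_gt_atTop 0] with t h2 h3
  have h4 : t ^ q = t ^ (q - p) * t ^ p := by
    rw [← Real.rpow_add h3]
    congr 1
    ring
  rw [h4]
  exact mul_le_mul_of_nonneg_right h2 (Real.rpow_nonneg h3.le _)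

theorem ev_log (p K : ℝ) : ∀ᶠ x : ℝ in atTop, K * Real.log x ^ p ≤ x := by
  have h1 := isLittleO_log_rpow_rpow_atTop p (show (0 : ℝ) < 1 by norm_num)
  have h2 := h1.bound (show (0 : ℝ) < 1 / (|K| + 1) by positivity)
  filter_upwards [h2, eventually_gt_atTop 1] with x h3 h4
  rw [Real.rpow_one, Real.norm_eq_abs, Real.norm_eq_abs, abs_of_pos (show (0 : ℝ) < x by linarith)]
    at h3
  have h5 : 0 ≤ Real.log x ^ p := Real.rpow_nonneg (Real.log_nonneg h4.le) _
  rw [abs_of_nonneg h5] at h3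
  calc K * Real.log x ^ p ≤ (|K| + 1) * Real.log x ^ p :=
        mul_le_mul_of_nonneg_right (by linarith [le_abs_self K]) h5
    _ ≤ (|K| + 1) * (1 / (|K| + 1) * x) := mul_le_mul_of_nonneg_left h3 (by positivity)
    _ = x := by field_simp

theorem core (h1 : S_GR) (h2 : S_GH) (a' a b b' l ε η x : ℝ) (ha' : 1 < a') (haa : a' < a)
    (hab : a < b) (_ : b < b') (hl : 0 ≤ l) (hε : 0 < ε) (hε1 : ε ≤ 1) (hη : η = ε ^ 2 / 100)
    (hx : 1 ≤ x) (hL : 1 ≤ Real.log x)
    (hT : ∀ t, x ≤ t → R t (Real.log t ^ a') < l + η)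
    (hE2 : (l + η) * (Real.log x + 1) ^ a' ≤ η * Real.log x ^ ((a' + a) / 2))
    (hE3 : l + 2 * η ≤ ε / 2 * Real.log x)
    (hE4 : Real.log x ^ b' + 2 * Real.log x ^ b ≤ x)
    (hE5 : (l + 2 * η) * (3 * Real.log x ^ b) ≤ (η / 2) * Real.log x ^ b')
    (hE6 : (l + 2 * η) * Real.log x ^ ((a' + a) / 2) ≤ (η / 2) * Real.log x ^ a)
    (hR : l - η < R x (Real.log x ^ b')) : Hom l ε a b b' x := by
  set L := Real.log x with hLdef
  have hL0 : 0 < L := by linarith
  have hη0 : 0 < η := by rw [hη]; positivity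
  have hηε : η ≤ ε / 100 := by
    rw [hη]
    have : ε ^ 2 ≤ ε := by nlinarith
    linarith
  have hS0 : 0 < L ^ ((a' + a) / 2) := Real.rpow_pos_of_pos hL0 _
  have hSS1 : L ^ ((a' + a) / 2) ≤ L ^ a := Real.rpow_le_rpow_of_exponent_le hL (by linarith)
  have hS12 : L ^ a ≤ L ^ b := Real.rpow_le_rpow_of_exponent_le hL hab.le
  have hS1 : 1 ≤ L ^ a := Real.one_le_rpow hL (by linarith)
  have hY0 : 0 < L ^ b' := Real.rpow_pos_of_pos hL0 _
  set S := L ^ ((a' + a) / 2) with hS
  set S1 := L ^ a with hS1def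
  set S2 := L ^ b with hS2def
  set Y := L ^ b' with hY
  have hlog : ∀ t, x ≤ t → t ≤ 2 * x → L ≤ Real.log t ∧ Real.log t ≤ L + 1 := by
    intro t ht1 ht2
    refine ⟨Real.log_le_log (by linarith) ht1, ?_⟩
    have h3 := Real.log_le_log (by linarith) ht2
    rw [Real.log_mul (by norm_num) (by linarith)] at h3
    have h4 : Real.log 2 ≤ 1 := by
      have := Real.log_two_lt_d9
      linarith
    linarith
  -- (b) the upper bound for intervals which are not too short
  have hup : ∀ t y, x ≤ t → S ≤ y → t + y ≤ 2 * x → F (t + y) - F t ≤ (l + 2 * η) / L * y := by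
    intro t y ht hy hty
    have hy0 : 0 < y := lt_of_lt_of_le hS0 hy
    have h3 := (h1 F F_mono t (t + y) ((L + 1) ^ a') 1 ((l + η) / L) one_pos
      (by positivity) (by linarith)).2 (by
        intro u hu1 hu2
        obtain ⟨h4, h5⟩ := hlog u (by linarith) (by linarith)
        have h6 : 0 < Real.log u := by linarith
        have h7 : 0 < Real.log u ^ a' := Real.rpow_pos_of_pos h6 _
        refine ⟨Real.log u ^ a', Real.one_le_rpow (by linarith) (by linarith),
          Real.rpow_le_rpow h6.le h5 (by linarith), ?_⟩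
        have h8 := (R_lt h6 h7).1 (hT u (by linarith))
        have h9 : 0 ≤ F (u + Real.log u ^ a') - F u := by
          have := F_mono (show u ≤ u + Real.log u ^ a' by linarith)
          linarith
        rw [div_mul_eq_mul_div, le_div_iff₀ hL0]
        calc (F (u + Real.log u ^ a') - F u) * L ≤
            (F (u + Real.log u ^ a') - F u) * Real.log u := mul_le_mul_of_nonneg_left h4 h9
          _ ≤ _ := h8.le)
    have h4 : t + y - t + (L + 1) ^ a' = y + (L + 1) ^ a' := by ring
    rw [h4] at h3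
    refine h3.trans ?_
    rw [div_mul_eq_mul_div, div_mul_eq_mul_div]
    refine div_le_div_of_nonneg_right ?_ hL0.le
    have h5 : η * S ≤ η * y := mul_le_mul_of_nonneg_left hy hη0.le
    nlinarith
  suffices hmain : ∀ B : Finset ℕ, (∀ n ∈ B, x < n ∧ (n : ℝ) ≤ x + Y ∧
      ∃ y, S1 ≤ y ∧ y ≤ S2 ∧ R n y < l - ε) → (B.card : ℝ) ≤ ε * Y by
    unfold Hom
    apply hmain
    intro n hn
    classical
    obtain ⟨hn1, h5⟩ := Finset.mem_filter.1 hn
    obtain ⟨h3, h4⟩ := Finset.mem_Ioc.1 hn1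
    have h6 : x < n := (Nat.floor_lt (by linarith)).1 h3
    have h7 : (n : ℝ) ≤ x + Y := (Nat.le_floor_iff (by positivity)).1 h4
    refine ⟨h6, h7, ?_⟩
    push Not at h5
    obtain ⟨y, hy1, hy2, hy3⟩ := h5
    refine ⟨y, hy1, hy2, ?_⟩
    have hy1' : S1 ≤ y := hy1
    have hy2' : y ≤ S2 := hy2
    have hy0 : 0 < y := by linarith
    obtain ⟨h8, h9⟩ := hlog n h6.le (by linarith)
    have h10 : 0 < Real.log n := by linarith
    have h11 : ¬ l + ε < R n y := by
      intro h12
      have h13 := (lt_R h10 hy0).1 h12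
      have h14 := hup n y h6.le (by linarith) (by linarith)
      have h15 : (F (n + y) - F n) * Real.log n ≤ (l + 2 * η) / L * y * (L + 1) := by
        refine mul_le_mul h14 h9 h10.le (by positivity)
      have h16 : (l + 2 * η) / L * y * (L + 1) ≤ (l + ε) * y := by
        have e : (l + 2 * η) / L * y * (L + 1) = ((l + 2 * η) + (l + 2 * η) / L) * y := by
          field_simp
        rw [e]
        refine mul_le_mul_of_nonneg_right ?_ hy0.le
        have h17 : (l + 2 * η) / L ≤ ε / 2 := by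
          rw [div_le_iff₀ hL0]
          exact hE3
        linarith
      linarith
    push Not at h11
    rcases lt_abs.1 hy3 with h12 | h12
    · linarith
    · linarith
  intro B hmem
  rcases Finset.eq_empty_or_nonempty B with hBe | ⟨n0, hn0⟩
  · rw [hBe, Finset.card_empty]
    simp only [CharP.cast_eq_zero]
    positivity
  have hlε : ε < l := by
    obtain ⟨h3, h4, y, hy1, hy2, hy3⟩ := hmem n0 hn0
    obtain ⟨h8, h9⟩ := hlog n0 h3.le (by linarith)
    have := R_nonneg (x := n0) (y := y) (by linarith) (by linarith)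
    linarith
  have h3 := (h2 F F_mono x (x + Y) S S1 S2 ((l + 2 * η) / L) ((l - ε) / L) (by positivity)
    (div_nonneg (by linarith) hL0.le) hS0.le hSS1 hS1 hS12 (by linarith) B
    (fun n hn => ⟨(hmem n hn).1.le, (hmem n hn).2.1⟩)).2
    (div_le_div_of_nonneg_right (by linarith) hL0.le)
    (fun t y ht hy hty => hup t y ht hy (by linarith)) (by
      intro n hn
      obtain ⟨h3, h4, y, hy1, hy2, hy3⟩ := hmem n hn
      obtain ⟨h8, h9⟩ := hlog n h3.le (by linarith)
      have hy0 : 0 < y := by linarith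
      refine ⟨y, hy1, hy2, ?_⟩
      have h10 := (R_lt (show 0 < Real.log n by linarith) hy0).1 hy3
      have h11 : 0 ≤ F (n + y) - F n := by
        have := F_mono (show (n : ℝ) ≤ n + y by linarith)
        linarith
      rw [div_mul_eq_mul_div, le_div_iff₀ hL0]
      calc (F (n + y) - F n) * L ≤ (F (n + y) - F n) * Real.log n :=
            mul_le_mul_of_nonneg_left h8 h11
        _ ≤ _ := h10.le)
  have h4 := (lt_R hL0 hY0).1 hR
  have h5 : (F (x + Y) - F x) * L ≤ (l + 2 * η) * (1 + S / S1) * (x + Y + S2 - x) -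
      (2 * η + ε) * (B.card / 2) + (l + 2 * η) * S := by
    have h6 := mul_le_mul_of_nonneg_right h3 hL0.le
    refine h6.trans (le_of_eq ?_)
    field_simp
    ring
  have hS10 : 0 < S1 := by linarith
  have h6 : (l + 2 * η) * (S / S1) ≤ η / 2 := by
    rw [← mul_div_assoc, div_le_iff₀ hS10]
    exact hE6
  have h7 : S / S1 ≤ 1 := by rw [div_le_one hS10]; exact hSS1
  have h8 : 0 ≤ S / S1 := by positivity
  have hlη : 0 ≤ l + 2 * η := by linarith
  have h9 : (l + 2 * η) * (1 + S / S1) * (x + Y + S2 - x) ≤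
      (l + 2 * η) * Y + (l + 2 * η) * (2 * S2) + η / 2 * Y := by
    have e : (l + 2 * η) * (1 + S / S1) * (x + Y + S2 - x) =
        (l + 2 * η) * Y + (l + 2 * η) * S2 + ((l + 2 * η) * (S / S1)) * Y +
          (l + 2 * η) * S2 * (S / S1) := by ring
    rw [e]
    have h10 : ((l + 2 * η) * (S / S1)) * Y ≤ η / 2 * Y := mul_le_mul_of_nonneg_right h6 hY0.le
    have h11 : (l + 2 * η) * S2 * (S / S1) ≤ (l + 2 * η) * S2 * 1 :=
      mul_le_mul_of_nonneg_left h7 (by positivity)
    linarith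
  have h10 : (l + 2 * η) * S ≤ (l + 2 * η) * S2 :=
    mul_le_mul_of_nonneg_left (hSS1.trans hS12) hlη
  have hc0 : (0 : ℝ) ≤ B.card := Nat.cast_nonneg _
  have h11 : ε * (B.card / 2 : ℝ) ≤ 4 * η * Y := by
    have h12 : 0 ≤ 2 * η * (B.card / 2 : ℝ) := by positivity
    linarith
  have h12 : ε * (B.card : ℝ) ≤ ε * (8 * ε / 100 * Y) := by
    rw [hη] at h11
    linarith
  have h13 : (B.card : ℝ) ≤ 8 * ε / 100 * Y := le_of_mul_le_mul_left h12 hε
  refine h13.trans ?_
  refine mul_le_mul_of_nonneg_right ?_ hY0.le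
  linarith

end Pool.Agent.N610.HX.HUaux

namespace Pool.Agent.N610.HX

open Finset Filter Topology HUaux

theorem t_HU (h1 : S_GR) (h2 : S_GH) : S_HU := by
  intro a' a b b' l ε ha' haa hab hbb hl hε hε1 hup hlo
  obtain ⟨η, hη⟩ : ∃ η : ℝ, η = ε ^ 2 / 100 := ⟨_, rfl⟩
  rw [← hη] at hup hlo
  have hη0 : 0 < η := by rw [hη]; positivity
  unfold Up at hup hlo
  have e1 := eventually_lt_of_limsup_lt hup
  have e1' : ∀ᶠ t : ℝ in atTop, R t (Real.log t ^ a') < l + η := by
    filter_upwards [e1] with t ht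
    exact EReal.coe_lt_coe_iff.1 ht
  obtain ⟨T0, hT0⟩ := eventually_atTop.1 e1'
  have f1 := frequently_lt_of_lt_limsup (by isBoundedDefault) hlo
  have hlogT := Real.tendsto_log_atTop
  have e2 : ∀ᶠ x : ℝ in atTop,
      (l + η) * (Real.log x + 1) ^ a' ≤ η * Real.log x ^ ((a' + a) / 2) := by
    have h3 := hlogT.eventually (ev_pow a' ((a' + a) / 2) ((l + η) * 2 ^ a' / η) (by linarith))
    have h4 := hlogT.eventually_ge_atTop 1
    filter_upwards [h3, h4] with x h5 h6
    have h7 : (Real.log x + 1) ^ a' ≤ 2 ^ a' * Real.log x ^ a' := by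
      rw [← Real.mul_rpow (by norm_num) (by linarith)]
      exact Real.rpow_le_rpow (by linarith) (by linarith) (by linarith)
    calc (l + η) * (Real.log x + 1) ^ a' ≤ (l + η) * (2 ^ a' * Real.log x ^ a') :=
          mul_le_mul_of_nonneg_left h7 (by linarith)
      _ = η * ((l + η) * 2 ^ a' / η * Real.log x ^ a') := by field_simp
      _ ≤ _ := mul_le_mul_of_nonneg_left h5 hη0.le
  have e3 : ∀ᶠ x : ℝ in atTop, l + 2 * η ≤ ε / 2 * Real.log x := by
    filter_upwards [hlogT.eventually_ge_atTop ((l + 2 * η) * 2 / ε)] with x h3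
    rw [div_le_iff₀ hε] at h3
    linarith
  have e4 : ∀ᶠ x : ℝ in atTop, Real.log x ^ b' + 2 * Real.log x ^ b ≤ x := by
    filter_upwards [ev_log b' 2, ev_log b 4] with x h3 h4
    linarith
  have e5 : ∀ᶠ x : ℝ in atTop,
      (l + 2 * η) * (3 * Real.log x ^ b) ≤ (η / 2) * Real.log x ^ b' := by
    filter_upwards [hlogT.eventually (ev_pow b b' ((l + 2 * η) * 3 / (η / 2)) hbb)] with x h3
    calc (l + 2 * η) * (3 * Real.log x ^ b) =
        η / 2 * ((l + 2 * η) * 3 / (η / 2) * Real.log x ^ b) := by field_simp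
      _ ≤ _ := mul_le_mul_of_nonneg_left h3 (by linarith)
  have e6 : ∀ᶠ x : ℝ in atTop,
      (l + 2 * η) * Real.log x ^ ((a' + a) / 2) ≤ (η / 2) * Real.log x ^ a := by
    filter_upwards [hlogT.eventually (ev_pow ((a' + a) / 2) a ((l + 2 * η) / (η / 2))
      (by linarith))] with x h3
    calc (l + 2 * η) * Real.log x ^ ((a' + a) / 2) =
        η / 2 * ((l + 2 * η) / (η / 2) * Real.log x ^ ((a' + a) / 2)) := by field_simp
      _ ≤ _ := mul_le_mul_of_nonneg_left h3 (by linarith)
  have e7 : ∀ᶠ x : ℝ in atTop, 1 ≤ x ∧ T0 ≤ x ∧ 1 ≤ Real.log x := by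
    filter_upwards [eventually_ge_atTop 1, eventually_ge_atTop T0, hlogT.eventually_ge_atTop 1]
      with x h3 h4 h5
    exact ⟨h3, h4, h5⟩
  have f2 := f1.and_eventually (e2.and (e3.and (e4.and (e5.and (e6.and e7)))))
  refine f2.mono ?_
  rintro x ⟨h3, h4, h5, h6, h7, h8, h9, h10, h11⟩
  exact core h1 h2 a' a b b' l ε η x ha' haa hab hbb hl hε hε1 hη h9 h11
    (fun t ht => hT0 t (h10.trans ht)) h4 h5 h6 h7 h8 (EReal.coe_lt_coe_iff.1 h3)

end Pool.Agent.N610.HX
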