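import Pool.Agent.N610.HX.Stm2
import Pool.Agent.N610.HX.GR
import Pool.Agent.N610.HX.HU

set_option autoImplicit false

/-!
# Density increment (project HX of helper610; leaf INC, helper712)
-/

namespace Pool.Agent.N610.HX.INCaux

open Finset Filter Topology
open HUaux (F_mono R_lt lt_R R_nonneg ev_log)

theorem pc_add (a k : ℕ) : Nat.primeCounting (a + k) ≤ Nat.primeCounting a + k := by
  induction k with
  | zero => simp
  | succ k ih =>
    have h : Nat.primeCounting (a + (k + 1)) ≤ Nat.primeCounting (a + k) + 1 := by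
      unfold Nat.primeCounting Nat.primeCounting'
      rw [show a + (k + 1) + 1 = (a + k + 1) + 1 by ring, Nat.count_succ]
      split_ifs <;> omega
    omega

/-- the trivial upper bound -/
theorem F_add {t y : ℝ} (ht : 0 ≤ t) (hy : 1 ≤ y) : F (t + y) - F t ≤ 2 * y := by
  have h1 : ⌊t⌋₊ ≤ ⌊t + y⌋₊ := Nat.floor_mono (by linarith)
  obtain ⟨k, hk⟩ := Nat.exists_eq_add_of_le h1
  have h2 := pc_add ⌊t⌋₊ k
  rw [← hk] at h2
  have h3 : (Nat.primeCounting ⌊t + y⌋₊ : ℝ) ≤ Nat.primeCounting ⌊t⌋₊ + k := by exact_mod_cast h2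
  have h4 : (k : ℝ) = (⌊t + y⌋₊ : ℝ) - ⌊t⌋₊ := by
    rw [hk]
    push_cast
    ring
  have h5 : (⌊t + y⌋₊ : ℝ) ≤ t + y := Nat.floor_le (by linarith)
  have h6 : t < ⌊t⌋₊ + 1 := Nat.lt_floor_add_one t
  unfold F
  linarith

/-- the increment lemma -/
theorem inc {G : ℝ → ℝ} (hG2 : ∀ t y, 0 ≤ t → 1 ≤ y → G (t + y) - G t ≤ 2 * y)
    {η Q : ℝ} (hη : 0 < η) (hη1 : η < 1) (hQ : 0 < Q) (k : ℕ) :
    ∀ x Y d : ℝ, 0 ≤ x → 1 ≤ Y → 1 ≤ Y / Q ^ k → d * Y = G (x + Y) - G x →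
      2 * (1 - η) ^ k < d →
      ∃ i < k, ∃ x' Y' d' : ℝ, Y' = Y / Q ^ i ∧ x ≤ x' ∧ x' + Y' ≤ x + Y ∧ d ≤ d' ∧
        d' * Y' = G (x' + Y') - G x' ∧
        ∀ t, x' ≤ t → t + Y' / Q ≤ x' + Y' →
          G (t + Y' / Q) - G t ≤ d' / (1 - η) * (Y' / Q) := by
  induction k with
  | zero =>
    intro x Y d hx hY1 _ hd hk
    exfalso
    rw [pow_zero, mul_one] at hk
    have h1 := hG2 x Y hx hY1
    have h2 : 2 * Y < d * Y := mul_lt_mul_of_pos_right hk (by linarith)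
    linarith
  | succ k ih =>
    intro x Y d hx hY1 hY hd hk
    by_cases h : ∀ t, x ≤ t → t + Y / Q ≤ x + Y → G (t + Y / Q) - G t ≤ d / (1 - η) * (Y / Q)
    · exact ⟨0, Nat.succ_pos k, x, Y, d, by simp, le_rfl, le_rfl, le_rfl, hd, h⟩
    · push Not at h
      obtain ⟨t, ht1, ht2, ht3⟩ := h
      have hη' : 0 < 1 - η := by linarith
      have hYQ : 0 < Y / Q := div_pos (by linarith) hQ
      have hd0 : 0 < d := lt_trans (by positivity) hk
      obtain ⟨d₁, hd₁⟩ : ∃ d₁, d₁ = (G (t + Y / Q) - G t) / (Y / Q) := ⟨_, rfl⟩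
      have h1 : d₁ * (Y / Q) = G (t + Y / Q) - G t := by
        rw [hd₁, div_mul_cancel₀ _ hYQ.ne']
      have h2 : d / (1 - η) < d₁ := by
        rw [hd₁, lt_div_iff₀ hYQ]
        exact ht3
      have h3 : 2 * (1 - η) ^ k < d₁ := by
        refine lt_trans ?_ h2
        rw [lt_div_iff₀ hη']
        calc 2 * (1 - η) ^ k * (1 - η) = 2 * (1 - η) ^ (k + 1) := by ring
          _ < d := hk
      have h4 : d ≤ d / (1 - η) := by
        rw [le_div_iff₀ hη']
        have : 0 ≤ d * η := by positivity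
        linarith
      have h5 : 1 ≤ Y / Q / Q ^ k := by
        rw [div_div, ← pow_succ']
        exact hY
      by_cases hYQ1 : 1 ≤ Y / Q
      · obtain ⟨i, hi, x', Y', d', e1, e2, e3, e4, e5, e6⟩ :=
          ih t (Y / Q) d₁ (hx.trans ht1) hYQ1 h5 h1 h3
        refine ⟨i + 1, Nat.succ_lt_succ hi, x', Y', d', ?_, ht1.trans e2, e3.trans ht2,
          h4.trans (h2.le.trans e4), e5, e6⟩
        rw [e1, div_div, ← pow_succ']
      · exfalso
        push Not at hYQ1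
        -- then `Q > Y ≥ 1`, so `Y / Q / Q ^ k < 1`
        have hQ1 : 1 ≤ Q := by
          rw [div_lt_one hQ] at hYQ1
          linarith
        have h6 : Y / Q / Q ^ k ≤ Y / Q := div_le_self hYQ.le (one_le_pow₀ hQ1)
        linarith

theorem core (h : S_GH) {K ε η q x' Y' S d Λ : ℝ} (hK : 1 ≤ K) (hε : 0 < ε) (hε1 : ε ≤ 1)
    (hη : η = ε ^ 2 / 1000) (hq1 : K ≤ q) (hq2 : 1 / η ^ 2 ≤ q) (hx' : 1 ≤ x') (hΛ : 4 / ε ≤ Λ)
    (hlog : ∀ t, x' ≤ t → t ≤ x' + Y' → Λ ≤ Real.log t ∧ Real.log t ≤ Λ + 1) (hS : 1 ≤ S)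
    (hY : Y' = q ^ 3 * S) (hd0 : 0 < d) (hd : d * Y' = F (x' + Y') - F x')
    (hloc : ∀ t, x' ≤ t → t + S ≤ x' + Y' → F (t + S) - F t ≤ d / (1 - η) * S) :
    HomW (d * Λ) ε x' Y' (S / η ^ 2) (K * (S / η ^ 2)) := by
  have hη0 : 0 < η := by rw [hη]; positivity
  have hηε : η ≤ ε / 1000 := by
    rw [hη]
    have : ε ^ 2 ≤ ε := by nlinarith
    linarith
  have hη1 : η ≤ 1 / 1000 := by linarith
  have hη2 : 0 < η ^ 2 := by positivity
  have hΛ4 : 4 ≤ Λ := by
    refine le_trans ?_ hΛ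
    rw [le_div_iff₀ hε]
    linarith
  have hqη : 1 ≤ q * η ^ 2 := by
    rw [div_le_iff₀ hη2] at hq2
    exact hq2
  have hq0 : 1 ≤ q := by linarith
  obtain ⟨St, hSt⟩ : ∃ St, St = S / η := ⟨_, rfl⟩
  obtain ⟨S1, hS1⟩ : ∃ S1, S1 = S / η ^ 2 := ⟨_, rfl⟩
  obtain ⟨S2, hS2⟩ : ∃ S2, S2 = K * S1 := ⟨_, rfl⟩
  rw [← hS1, ← hS2]
  have eSt : S = η * St := by rw [hSt]; field_simp
  have eS1 : St = η * S1 := by rw [hSt, hS1]; field_simp
  have hSt0 : S ≤ St := by
    rw [hSt, le_div_iff₀ hη0]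
    nlinarith
  have hSS1 : St ≤ S1 := by
    have : 0 < S1 := by rw [hS1]; positivity
    rw [eS1]
    nlinarith
  have hS10 : 1 ≤ S1 := by linarith
  have hS12 : S1 ≤ S2 := by
    rw [hS2]
    exact le_mul_of_one_le_left (by linarith) hK
  have hS1q : S1 ≤ q * S := by
    rw [hS1, div_eq_mul_one_div, mul_comm]
    exact mul_le_mul_of_nonneg_right hq2 (by linarith)
  have hS2q : S2 ≤ q ^ 2 * S := by
    rw [hS2]
    calc K * S1 ≤ q * (q * S) := mul_le_mul hq1 hS1q (by linarith) (by linarith)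
      _ = q ^ 2 * S := by ring
  have hY0 : 0 < Y' := by rw [hY]; positivity
  have hS2Y : S2 ≤ η ^ 2 * Y' := by
    refine hS2q.trans ?_
    rw [hY]
    calc q ^ 2 * S = 1 * (q ^ 2 * S) := by ring
      _ ≤ (q * η ^ 2) * (q ^ 2 * S) := mul_le_mul_of_nonneg_right hqη (by positivity)
      _ = η ^ 2 * (q ^ 3 * S) := by ring
  have hStY : St ≤ η ^ 2 * Y' := by linarith
  have h1Y : 1 ≤ η ^ 2 * Y' := by linarith
  -- the covering argument
  have hcov : ∀ t y, x' ≤ t → St ≤ y → t + y ≤ x' + Y' →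
      F (t + y) - F t ≤ (1 + 3 * η) * d * y := by
    intro t y ht hy hty
    have hη' : 0 < 1 - η := by linarith
    have hc0 : 0 ≤ d / (1 - η) := by positivity
    have h1 := (t_GR F F_mono t (t + y - S) S S (d / (1 - η)) (by linarith) hc0
      (by linarith)).2 (fun τ h1 h2 => ⟨S, le_rfl, le_rfl, hloc τ (ht.trans h1) (by linarith)⟩)
    have h2 := hloc (t + y - S) (by linarith) (by linarith)
    rw [sub_add_cancel] at h2
    have h3 : S ≤ η * y := by
      rw [eSt]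
      exact mul_le_mul_of_nonneg_left hy hη0.le
    have h4 : d / (1 - η) * (y + S) ≤ (1 + 3 * η) * d * y := by
      rw [div_mul_eq_mul_div, div_le_iff₀ hη']
      have h5 : d * (y + S) ≤ d * ((1 + η) * y) := mul_le_mul_of_nonneg_left (by linarith) hd0.le
      refine h5.trans ?_
      have h6 : 1 + η ≤ (1 + 3 * η) * (1 - η) := by nlinarith
      have hy0 : 0 < y := by linarith
      calc d * ((1 + η) * y) = (1 + η) * (d * y) := by ring
        _ ≤ (1 + 3 * η) * (1 - η) * (d * y) := mul_le_mul_of_nonneg_right h6 (by positivity)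
        _ = (1 + 3 * η) * d * y * (1 - η) := by ring
    have h5 : d / (1 - η) * (t + y - S - t + S) + d / (1 - η) * S = d / (1 - η) * (y + S) := by
      ring
    linarith
  obtain ⟨z, hz⟩ : ∃ z, z = x' + Y' - S2 - St := ⟨_, rfl⟩
  have hxz : x' ≤ z := by
    have : η ^ 2 ≤ 1 / 2 := by nlinarith
    have : η ^ 2 * Y' ≤ 1 / 2 * Y' := mul_le_mul_of_nonneg_right this hY0.le
    linarith
  obtain ⟨u, hu⟩ : ∃ u, u = d * Λ := ⟨_, rfl⟩
  rw [← hu]
  have hu0 : 0 < u := by rw [hu]; positivity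
  have hdu : d ≤ ε / 4 * u := by
    have h1 : 4 ≤ Λ * ε := by rwa [div_le_iff₀ hε] at hΛ
    rw [hu]
    nlinarith
  classical
  obtain ⟨B, hB⟩ : ∃ B : Finset ℕ, B = (Ioc ⌊x'⌋₊ ⌊z⌋₊).filter
      (fun n : ℕ => ∃ y, S1 ≤ y ∧ y ≤ S2 ∧ F (n + y) - F n ≤ (1 - ε) * d * y) := ⟨_, rfl⟩
  have hBmem : ∀ n ∈ B, x' ≤ (n : ℝ) ∧ (n : ℝ) ≤ z := by
    intro n hn
    rw [hB] at hn
    obtain ⟨h1, h2⟩ := mem_Ioc.1 (mem_filter.1 hn).1
    exact ⟨((Nat.floor_lt (by linarith)).1 h1).le, (Nat.le_floor_iff (by linarith)).1 h2⟩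
  have hBcard : (B.card : ℝ) ≤ ε / 50 * Y' := by
    have h1 := (h F F_mono x' z St S1 S2 ((1 + 3 * η) * d) ((1 - ε) * d) (by positivity)
      (mul_nonneg (by linarith) hd0.le) (by linarith) hSS1 hS10 hS12 (by linarith) B hBmem).2
      (mul_le_mul_of_nonneg_right (by linarith) hd0.le)
      (fun t y ht hy hty => hcov t y ht hy (by linarith)) (by
        intro n hn
        rw [hB] at hn
        exact (mem_filter.1 hn).2)
    have h2 := hcov z (S2 + St) hxz (by linarith) (by linarith)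
    have h3 : z + (S2 + St) = x' + Y' := by rw [hz]; ring
    rw [h3] at h2
    have h4 : St / S1 = η := by
      rw [eS1]
      exact mul_div_cancel_right₀ _ (by linarith)
    rw [h4] at h1
    have h5 : d * Y' ≤ (1 + 3 * η) * d * (1 + η) * Y' -
        ((1 + 3 * η) * d - (1 - ε) * d) * (B.card / 2) + (1 + 3 * η) * d * (S2 + 2 * St) := by
      have h6 : (1 + 3 * η) * d * (1 + η) * (z + S2 - x') ≤ (1 + 3 * η) * d * (1 + η) * Y' :=
        mul_le_mul_of_nonneg_left (by linarith) (by positivity)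
      linarith
    have h6 : (1 + 3 * η) * d * (S2 + 2 * St) ≤ (1 + 3 * η) * d * (3 * (η ^ 2 * Y')) :=
      mul_le_mul_of_nonneg_left (by linarith) (by positivity)
    have h7 : d * (ε * (B.card / 2)) ≤ d * (10 * η * Y') := by
      have h8 : 0 ≤ d * (3 * η * (B.card / 2)) :=
        mul_nonneg hd0.le (mul_nonneg (by linarith) (div_nonneg (Nat.cast_nonneg _) zero_le_two))
      have h9 : d * (ε * (B.card / 2)) ≤ (1 + 3 * η) * d * (1 + η) * Y' - d * Y' +
          (1 + 3 * η) * d * (3 * (η ^ 2 * Y')) := by linarith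
      refine h9.trans ?_
      have h10 : (1 + 3 * η) * d * (1 + η) * Y' - d * Y' + (1 + 3 * η) * d * (3 * (η ^ 2 * Y'))
          = (4 * η + 6 * η ^ 2 + 9 * η ^ 3) * (d * Y') := by ring
      rw [h10]
      have h11 : 4 * η + 6 * η ^ 2 + 9 * η ^ 3 ≤ 10 * η := by
        have h12 : η ^ 2 ≤ η * (1 / 1000) := by
          rw [pow_two]
          exact mul_le_mul_of_nonneg_left hη1 hη0.le
        have h13 : η ^ 3 ≤ η * (1 / 1000) := by
          calc η ^ 3 = η ^ 2 * η := by ring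
            _ ≤ η ^ 2 * 1 := mul_le_mul_of_nonneg_left (by linarith) hη2.le
            _ ≤ _ := by linarith
        linarith
      calc (4 * η + 6 * η ^ 2 + 9 * η ^ 3) * (d * Y') ≤ 10 * η * (d * Y') :=
            mul_le_mul_of_nonneg_right h11 (by positivity)
        _ = d * (10 * η * Y') := by ring
    have h8 : ε * (B.card / 2) ≤ 10 * η * Y' := le_of_mul_le_mul_left h7 hd0
    have h9 : ε * (B.card : ℝ) ≤ ε * (ε / 50 * Y') := by
      rw [hη] at h8
      linarith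
    exact le_of_mul_le_mul_left h9 hε
  -- the bad integers
  have hbad : ((Ioc ⌊x'⌋₊ ⌊x' + Y'⌋₊).filter (fun n : ℕ => ¬ ∀ y : ℝ, S1 ≤ y → y ≤ S2 →
      |R n y - u| ≤ ε * (1 + u))) ⊆ B ∪ Ioc ⌊z⌋₊ ⌊x' + Y'⌋₊ := by
    intro n hn
    obtain ⟨h1, h2⟩ := mem_filter.1 hn
    obtain ⟨h3, h4⟩ := mem_Ioc.1 h1
    rw [mem_union]
    by_cases h5 : n ≤ ⌊z⌋₊
    · left
      rw [hB, mem_filter, mem_Ioc]
      refine ⟨⟨h3, h5⟩, ?_⟩
      have h6 : x' < n := (Nat.floor_lt (by linarith)).1 h3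
      have h7 : (n : ℝ) ≤ z := (Nat.le_floor_iff (by linarith)).1 h5
      push Not at h2
      obtain ⟨y, hy1, hy2, hy3⟩ := h2
      refine ⟨y, hy1, hy2, ?_⟩
      have hy0 : 0 < y := by linarith
      obtain ⟨h8, h9⟩ := hlog n h6.le (by linarith)
      have h10 : 0 < Real.log n := by linarith
      have h11 : ¬ u + ε * (1 + u) < R n y := by
        intro h12
        have h13 := (lt_R h10 hy0).1 h12
        have h14 := hcov n y h6.le (by linarith) (by linarith)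
        have h15 : (F (n + y) - F n) * Real.log n ≤ (1 + 3 * η) * d * y * (Λ + 1) :=
          mul_le_mul h14 h9 h10.le (by positivity)
        have h16 : (1 + 3 * η) * d * y * (Λ + 1) ≤ (u + ε * (1 + u)) * y := by
          have e : (1 + 3 * η) * d * y * (Λ + 1) = (u + 3 * η * u + (1 + 3 * η) * d) * y := by
            rw [hu]
            ring
          rw [e]
          refine mul_le_mul_of_nonneg_right ?_ hy0.le
          have h17 : 3 * η * u ≤ ε / 2 * u := mul_le_mul_of_nonneg_right (by linarith) hu0.le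
          have h18 : (1 + 3 * η) * d ≤ 2 * (ε / 4 * u) :=
            mul_le_mul (by linarith) hdu hd0.le (by norm_num)
          linarith
        linarith
      push Not at h11
      have h12 : R n y < u - ε * (1 + u) := by
        rcases lt_abs.1 hy3 with h12 | h12
        · linarith
        · linarith
      have h13 : R n y < (1 - ε) * u := by linarith
      have h14 := (R_lt h10 hy0).1 h13
      have h15 : 0 ≤ F (n + y) - F n := by
        have := F_mono (show (n : ℝ) ≤ n + y by linarith)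
        linarith
      have h16 : (F (n + y) - F n) * Λ ≤ (1 - ε) * d * y * Λ := by
        calc (F (n + y) - F n) * Λ ≤ (F (n + y) - F n) * Real.log n :=
              mul_le_mul_of_nonneg_left h8 h15
          _ ≤ (1 - ε) * u * y := h14.le
          _ = _ := by rw [hu]; ring
      exact le_of_mul_le_mul_right h16 (by linarith)
    · right
      rw [mem_Ioc]
      exact ⟨by omega, h4⟩
  unfold HomW
  have h1 := card_le_card hbad
  have h2 := h1.trans (card_union_le _ _)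
  rw [Nat.card_Ioc] at h2
  have h3 : ((⌊x' + Y'⌋₊ - ⌊z⌋₊ : ℕ) : ℝ) ≤ S2 + St + 1 := by
    have h4 : ⌊z⌋₊ ≤ ⌊x' + Y'⌋₊ := Nat.floor_mono (by linarith)
    rw [Nat.cast_sub h4]
    have h5 : (⌊x' + Y'⌋₊ : ℝ) ≤ x' + Y' := Nat.floor_le (by linarith)
    have h6 : z < ⌊z⌋₊ + 1 := Nat.lt_floor_add_one z
    linarith
  have h4 : (((Ioc ⌊x'⌋₊ ⌊x' + Y'⌋₊).filter (fun n : ℕ => ¬ ∀ y : ℝ, S1 ≤ y → y ≤ S2 →
      |R n y - u| ≤ ε * (1 + u))).card : ℝ) ≤ B.card + ((⌊x' + Y'⌋₊ - ⌊z⌋₊ : ℕ) : ℝ) := by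
    exact_mod_cast h2
  have h5 : 3 * (η ^ 2 * Y') ≤ ε / 4 * Y' := by
    rw [← mul_assoc]
    refine mul_le_mul_of_nonneg_right ?_ hY0.le
    have h12 : η ^ 2 ≤ η * (1 / 1000) := by
      rw [pow_two]
      exact mul_le_mul_of_nonneg_left hη1 hη0.le
    linarith
  have h6 : 0 < ε * Y' := by positivity
  refine le_trans ?_ (show B.card + (S2 + St + 1) ≤ ε * Y' by linarith)
  refine le_trans ?_ (add_le_add_right h3 _)
  convert h4

end Pool.Agent.N610.HX.INCaux

namespace Pool.Agent.N610.HX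

open Finset Filter Topology INCaux
open HUaux (F_mono R_lt lt_R R_nonneg ev_log)

theorem t_INC (h : S_GH) : S_INC := by
  intro K ε A hK hε hε1 hA
  obtain ⟨η, hη⟩ : ∃ η : ℝ, η = ε ^ 2 / 1000 := ⟨_, rfl⟩
  have hη0 : 0 < η := by rw [hη]; positivity
  have hη1 : η < 1 := by
    rw [hη]
    have : ε ^ 2 ≤ 1 := by nlinarith
    linarith
  obtain ⟨q, hq⟩ : ∃ q : ℝ, q = max K (1 / η ^ 2) := ⟨_, rfl⟩
  have hq1 : K ≤ q := by rw [hq]; exact le_max_left _ _
  have hq2 : 1 / η ^ 2 ≤ q := by rw [hq]; exact le_max_right _ _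
  have hq0 : 1 ≤ q := hK.trans hq1
  obtain ⟨Q, hQ⟩ : ∃ Q : ℝ, Q = q ^ 3 := ⟨_, rfl⟩
  have hQ1 : 1 ≤ Q := by rw [hQ]; exact one_le_pow₀ hq0
  have hlogQ : 0 ≤ Real.log Q := Real.log_nonneg hQ1
  obtain ⟨C, hC⟩ : ∃ C : ℝ, C = 2 / η * Real.log Q + 1 := ⟨_, rfl⟩
  have hC0 : 0 < C := by rw [hC]; positivity
  refine ⟨C + A + 2, by linarith, ?_⟩
  have hlogT := Real.tendsto_log_atTop
  filter_upwards [eventually_ge_atTop 1, hlogT.eventually_ge_atTop 5, hlogT.eventually_ge_atTop Q,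
    hlogT.eventually_ge_atTop ((2 : ℝ) ^ A), hlogT.eventually_ge_atTop (4 / ε)]
    with x hx hL5 hLQ hLA hLε
  intro Y hY1 hY2 hR
  obtain ⟨Λ, hΛ⟩ : ∃ Λ, Λ = Real.log x := ⟨_, rfl⟩
  rw [← hΛ] at hL5 hLQ hLA hLε hY1 ⊢
  have hΛ0 : 0 < Λ := by linarith
  have hΛ1 : 1 ≤ Λ := by linarith
  have hY0 : 0 < Y := lt_of_lt_of_le (Real.rpow_pos_of_pos hΛ0 _) hY1
  have hY11 : 1 ≤ Y := (Real.one_le_rpow hΛ1 (by linarith)).trans hY1
  obtain ⟨d, hd⟩ : ∃ d, d = (F (x + Y) - F x) / Y := ⟨_, rfl⟩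
  have hd1 : d * Y = F (x + Y) - F x := by rw [hd, div_mul_cancel₀ _ hY0.ne']
  have hRd : R x Y = d * Λ := by
    unfold R
    rw [hd, hΛ]
    field_simp
  have hd2 : 1 / (2 * Λ) ≤ d := by
    rw [div_le_iff₀ (by positivity)]
    rw [hRd] at hR
    linarith
  -- the number of steps
  have hll : 0 ≤ Real.log Λ := Real.log_nonneg hΛ1
  obtain ⟨k, hk⟩ : ∃ k : ℕ, k = ⌈2 / η * Real.log Λ⌉₊ := ⟨_, rfl⟩
  have hk1 : 2 / η * Real.log Λ ≤ k := by rw [hk]; exact Nat.le_ceil _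
  have hk2 : (k : ℝ) ≤ 2 / η * Real.log Λ + 1 := by
    rw [hk]
    exact (Nat.ceil_lt_add_one (by positivity)).le
  have hk3 : 2 * (1 - η) ^ k < d := by
    refine lt_of_lt_of_le ?_ hd2
    have h1 : (1 - η) ^ k ≤ Real.exp (-(η * k)) := by
      calc (1 - η) ^ k ≤ (Real.exp (-η)) ^ k :=
            pow_le_pow_left₀ (by linarith) (by linarith [Real.add_one_le_exp (-η)]) _
        _ = Real.exp (-(η * k)) := by
            rw [← Real.exp_nat_mul]
            congr 1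
            ring
    have h2 : 2 * Real.log Λ ≤ η * k := by
      calc 2 * Real.log Λ = η * (2 / η * Real.log Λ) := by field_simp
        _ ≤ η * k := mul_le_mul_of_nonneg_left hk1 hη0.le
    have h3 : Real.exp (-(η * k)) ≤ 1 / Λ ^ 2 := by
      calc Real.exp (-(η * k)) ≤ Real.exp (-(2 * Real.log Λ)) :=
            Real.exp_le_exp.2 (by linarith)
        _ = 1 / Λ ^ 2 := by
            rw [Real.exp_neg, two_mul, Real.exp_add, Real.exp_log hΛ0, one_div, pow_two]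
    calc 2 * (1 - η) ^ k ≤ 2 * (1 / Λ ^ 2) := by linarith
      _ < 1 / (2 * Λ) := by
        rw [mul_one_div, div_lt_div_iff₀ (by positivity) (by positivity)]
        nlinarith
  have hQk : Q ^ k ≤ Λ ^ C := by
    have h1 : Q ^ k = Real.exp (k * Real.log Q) := by
      rw [Real.exp_nat_mul, Real.exp_log (by linarith)]
    have h2 : (k : ℝ) * Real.log Q ≤ (2 / η * Real.log Λ + 1) * Real.log Q :=
      mul_le_mul_of_nonneg_right hk2 hlogQ
    have h3 : Real.log Q ≤ Real.log Λ := Real.log_le_log (by linarith) hLQ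
    rw [h1, Real.rpow_def_of_pos hΛ0]
    refine Real.exp_le_exp.2 ?_
    rw [hC]
    have h4 : (2 / η * Real.log Λ + 1) * Real.log Q ≤
        Real.log Λ * (2 / η * Real.log Q + 1) := by
      have : (2 / η * Real.log Λ + 1) * Real.log Q = Real.log Λ * (2 / η * Real.log Q) +
        Real.log Q := by ring
      rw [this]
      linarith
    linarith
  have hYQ : Λ ^ (A + 2) ≤ Y / Q ^ k := by
    rw [le_div_iff₀ (by positivity)]
    calc Λ ^ (A + 2) * Q ^ k ≤ Λ ^ (A + 2) * Λ ^ C :=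
          mul_le_mul_of_nonneg_left hQk (Real.rpow_nonneg hΛ0.le _)
      _ = Λ ^ (C + A + 2) := by
          rw [← Real.rpow_add hΛ0]
          congr 1
          ring
      _ ≤ Y := hY1
  have hYQ1 : 1 ≤ Y / Q ^ k := (Real.one_le_rpow hΛ1 (by linarith)).trans hYQ
  obtain ⟨i, hi, x', Y', d', e1, e2, e3, e4, e5, e6⟩ :=
    inc (G := F) (fun t y => F_add) hη0 hη1 (by linarith : (0 : ℝ) < Q) k x Y d (by linarith) hY11
      hYQ1 hd1 hk3
  obtain ⟨S, hS⟩ : ∃ S, S = Y' / Q := ⟨_, rfl⟩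
  rw [← hS] at e6
  have hQi : 0 < Q ^ i := by positivity
  have hYY : Y = Y' * Q ^ i := by
    rw [e1, div_mul_cancel₀ _ hQi.ne']
  have hY'0 : 0 < Y' := by rw [e1]; positivity
  have hSA : Λ ^ (A + 2) ≤ S := by
    refine hYQ.trans ?_
    rw [hS, e1, div_div, ← pow_succ]
    exact div_le_div_of_nonneg_left hY0.le (by positivity) (pow_le_pow_right₀ hQ1 (by omega))
  have hS1 : 1 ≤ S := (Real.one_le_rpow hΛ1 (by linarith)).trans hSA
  have hd'0 : 0 < d' := lt_of_lt_of_le (lt_of_lt_of_le (by positivity) hd2) e4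
  have hx2 : x' + Y' ≤ 2 * x := by linarith
  have hlog : ∀ t, x' ≤ t → t ≤ x' + Y' → Λ ≤ Real.log t ∧ Real.log t ≤ Λ + 1 := by
    intro t ht1 ht2
    rw [hΛ]
    refine ⟨Real.log_le_log (by linarith) (by linarith), ?_⟩
    have h3 := Real.log_le_log (by linarith) (ht2.trans hx2)
    rw [Real.log_mul (by norm_num) (by linarith)] at h3
    have h4 : Real.log 2 ≤ 1 := by
      have := Real.log_two_lt_d9
      linarith
    linarith
  have hY'S : Y' = q ^ 3 * S := by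
    rw [hS, ← hQ]
    field_simp
  have hη2 : 0 < η ^ 2 := by positivity
  have hSy : S ≤ S / η ^ 2 := by
    rw [le_div_iff₀ hη2]
    have : η ^ 2 ≤ 1 := by nlinarith
    nlinarith
  refine ⟨x', Y', S / η ^ 2, d' * Λ, e2, e3, ?_, ?_, ?_, ?_, ?_⟩
  · rw [hYY]
    refine mul_le_mul_of_nonneg_left ?_ hY'0.le
    calc Q ^ i ≤ Q ^ k := pow_le_pow_right₀ hQ1 hi.le
      _ ≤ Λ ^ C := hQk
      _ ≤ Λ ^ (C + A + 2) := Real.rpow_le_rpow_of_exponent_le hΛ1 (by linarith)
  · obtain ⟨h1, h2⟩ := hlog x' le_rfl (by linarith)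
    refine le_trans ?_ hSy
    calc Real.log x' ^ A ≤ (2 * Λ) ^ A :=
          Real.rpow_le_rpow (by linarith) (by linarith) (by linarith)
      _ = 2 ^ A * Λ ^ A := Real.mul_rpow (by norm_num) hΛ0.le
      _ ≤ Λ * Λ ^ A := mul_le_mul_of_nonneg_right hLA (Real.rpow_nonneg hΛ0.le _)
      _ = Λ ^ (A + 1) := by
          rw [Real.rpow_add hΛ0, Real.rpow_one, mul_comm]
      _ ≤ Λ ^ (A + 2) := Real.rpow_le_rpow_of_exponent_le hΛ1 (by linarith)
      _ ≤ S := hSA
  · rw [hY'S]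
    calc K * (S / η ^ 2) = K * (1 / η ^ 2) * S := by ring
      _ ≤ q * q * S := by
        refine mul_le_mul_of_nonneg_right ?_ (by linarith)
        exact mul_le_mul hq1 hq2 (by positivity) (by linarith)
      _ ≤ q ^ 3 * S := by
        refine mul_le_mul_of_nonneg_right ?_ (by linarith)
        calc q * q = q * q * 1 := by ring
          _ ≤ q * q * q := mul_le_mul_of_nonneg_left hq0 (by positivity)
          _ = q ^ 3 := by ring
  · rw [hRd]
    exact mul_le_mul_of_nonneg_right e4 hΛ0.le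
  · exact core h hK hε hε1 hη hq1 hq2 (by linarith) hLε hlog hS1 hY'S hd'0 e5 e6

end Pool.Agent.N610.HX
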