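import Pool.Agent.N610.HX.Stm

set_option autoImplicit false

/-!
# Extremal windows are homogeneous, part MO: monotonicity in the exponent (helper702)
-/

namespace Pool.Agent.N610.HX

open Finset Filter Topology

namespace MO

theorem F_mono : Monotone F := by
  intro s t h
  unfold F
  exact_mod_cast Nat.monotone_primeCounting (Nat.floor_mono h)

theorem ev_log (b : ℝ) : ∀ᶠ x : ℝ in atTop, 0 < x ∧ 1 ≤ Real.log x ∧ Real.log x ^ b ≤ x := by
  have h1 : ∀ᶠ x : ℝ in atTop, (1 : ℝ) ≤ Real.log x := Real.tendsto_log_atTop.eventually_ge_atTop 1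
  have h2 := (isLittleO_log_rpow_rpow_atTop b (one_pos)).bound (one_pos)
  filter_upwards [h1, h2, eventually_gt_atTop (0 : ℝ)] with x hx1 hx2 hx0
  refine ⟨hx0, hx1, ?_⟩
  rw [Real.rpow_one, one_mul, Real.norm_eq_abs, Real.norm_eq_abs, abs_of_pos hx0] at hx2
  exact (le_abs_self _).trans hx2

theorem log_z {b x : ℝ} (h0 : 0 < x) (h1 : 1 ≤ Real.log x) (h2 : Real.log x ^ b ≤ x) :
    Real.log x ≤ Real.log (x + Real.log x ^ b) ∧
      Real.log (x + Real.log x ^ b) ≤ Real.log x + Real.log 2 := by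
  have h3 : 0 < Real.log x ^ b := Real.rpow_pos_of_pos (by linarith) b
  refine ⟨Real.log_le_log h0 (by linarith), ?_⟩
  rw [add_comm (Real.log x), ← Real.log_mul (by norm_num) h0.ne']
  exact Real.log_le_log (by linarith) (by linarith)

theorem R_nonneg {x y : ℝ} (h1 : 1 ≤ Real.log x) (hy : 0 ≤ y) : 0 ≤ R x y := by
  unfold R
  have := F_mono (show x ≤ x + y by linarith)
  exact div_nonneg (by linarith) (div_nonneg hy (by linarith))

theorem Lo_nonneg (a : ℝ) : 0 ≤ Lo a := by
  unfold Lo
  refine le_liminf_of_le (by isBoundedDefault) ?_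
  filter_upwards [ev_log a] with x hx
  have h3 : 0 < Real.log x ^ a := Real.rpow_pos_of_pos (by linarith [hx.2.1]) a
  exact_mod_cast R_nonneg hx.2.1 h3.le

theorem tend_k {a b : ℝ} (hab : a < b) :
    Tendsto (fun L : ℝ => 2 ^ a * L ^ (-(b - a))) atTop (𝓝 0) := by
  have h := (tendsto_rpow_neg_atTop (sub_pos.2 hab)).const_mul ((2 : ℝ) ^ a)
  rwa [mul_zero] at h

theorem tend_q : Tendsto (fun L : ℝ => L / (L + Real.log 2)) atTop (𝓝 1) := by
  have h1 : Tendsto (fun L : ℝ => 1 - Real.log 2 / (L + Real.log 2)) atTop (𝓝 (1 - 0)) := by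
    refine tendsto_const_nhds.sub ?_
    exact tendsto_const_nhds.div_atTop (tendsto_atTop_add_const_right _ _ tendsto_id)
  rw [sub_zero] at h1
  refine h1.congr' ?_
  filter_upwards [eventually_gt_atTop (0 : ℝ)] with L hL
  have h2 : 0 < Real.log 2 := Real.log_pos (by norm_num)
  field_simp
  ring

/-- the size of the window -/
theorem kappa {a b x : ℝ} (ha : 0 < a) (h0 : 0 < x) (h1 : 1 ≤ Real.log x) (h2 : Real.log x ^ b ≤ x) :
    Real.log (x + Real.log x ^ b) ^ a / Real.log x ^ b ≤ 2 ^ a * Real.log x ^ (-(b - a)) := by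
  have hL : 0 < Real.log x := by linarith
  obtain ⟨h3, h4⟩ := log_z h0 h1 h2
  have h5 : Real.log (x + Real.log x ^ b) ≤ 2 * Real.log x := by
    have : Real.log 2 ≤ 1 := by
      have := Real.log_two_lt_d9
      linarith
    linarith
  have h6 : Real.log (x + Real.log x ^ b) ^ a ≤ 2 ^ a * Real.log x ^ a := by
    rw [← Real.mul_rpow (by norm_num) hL.le]
    exact Real.rpow_le_rpow (by linarith) h5 ha.le
  have h7 : Real.log x ^ (-(b - a)) = Real.log x ^ a / Real.log x ^ b := by
    rw [← Real.rpow_sub hL]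
    congr 1
    ring
  rw [h7, ← mul_div_assoc]
  exact div_le_div_of_nonneg_right h6 (Real.rpow_nonneg hL.le b)

theorem lower (h : S_GR) {a b : ℝ} (ha : 0 < a) (hab : a < b) {c c1 : ℝ} (hc : c < c1) (hc1 : 0 ≤ c1)
    (hT : ∀ᶠ t : ℝ in atTop, c1 < R t (Real.log t ^ a)) :
    ∀ᶠ x : ℝ in atTop, c ≤ R x (Real.log x ^ b) := by
  obtain ⟨T, hT⟩ := eventually_atTop.1 hT
  have e1 := (tend_q.mul ((tendsto_const_nhds (x := (1 : ℝ))).sub (tend_k hab))).const_mul c1
  rw [sub_zero, mul_one, mul_one] at e1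
  have e2 := (e1.comp Real.tendsto_log_atTop).eventually (eventually_gt_nhds hc)
  have e3 := ((tend_k hab).comp Real.tendsto_log_atTop).eventually (eventually_lt_nhds (one_pos (α := ℝ)))
  filter_upwards [ev_log b, e2, e3, eventually_ge_atTop T] with x hx hx2 hx3 hx4
  obtain ⟨hx0, hx1, hxb⟩ := hx
  simp only [Function.comp_apply] at hx2 hx3
  have hL : 0 < Real.log x := by linarith
  have hY : 0 < Real.log x ^ b := Real.rpow_pos_of_pos hL b
  obtain ⟨z1, z2⟩ := log_z hx0 hx1 hxb
  obtain ⟨z, hz⟩ : ∃ z, z = x + Real.log x ^ b := ⟨_, rfl⟩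
  rw [← hz] at z1 z2
  have hzL : 0 < Real.log z := by linarith
  have k1 := kappa ha hx0 hx1 hxb
  rw [← hz] at k1
  have g := (h F F_mono x z (Real.log z ^ a) 1 (c1 / Real.log z) one_pos (div_nonneg hc1 hzL.le)
    (by rw [hz]; linarith)).1 (fun t ht1 ht2 => ?_)
  · have g1 : R x (Real.log x ^ b) = (F z - F x) * (Real.log x / Real.log x ^ b) := by
      unfold R
      rw [← hz]
      field_simp
    rw [g1]
    have g2 : c1 / Real.log z * (z - x - Real.log z ^ a) * (Real.log x / Real.log x ^ b) ≤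
        (F z - F x) * (Real.log x / Real.log x ^ b) :=
      mul_le_mul_of_nonneg_right g (div_nonneg hL.le hY.le)
    refine le_trans ?_ g2
    have g3 : c1 / Real.log z * (z - x - Real.log z ^ a) * (Real.log x / Real.log x ^ b) =
        c1 * ((Real.log x / Real.log z) * (1 - Real.log z ^ a / Real.log x ^ b)) := by
      have : z - x = Real.log x ^ b := by rw [hz]; ring
      rw [this]
      field_simp
    rw [g3]
    refine le_trans hx2.le (mul_le_mul_of_nonneg_left ?_ hc1)
    have g4 : Real.log x / (Real.log x + Real.log 2) ≤ Real.log x / Real.log z :=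
      div_le_div_of_nonneg_left hL.le hzL z2
    have g5 : 1 - 2 ^ a * Real.log x ^ (-(b - a)) ≤ 1 - Real.log z ^ a / Real.log x ^ b := by linarith
    exact mul_le_mul g4 g5 (by linarith) (div_nonneg hL.le hzL.le)
  · have ht0 : 0 < t := by linarith
    have htL : Real.log x ≤ Real.log t := Real.log_le_log hx0 ht1
    have hza : 0 ≤ Real.log z ^ a := Real.rpow_nonneg hzL.le a
    have htz : Real.log t ≤ Real.log z := Real.log_le_log ht0 (by linarith)
    refine ⟨Real.log t ^ a, Real.one_le_rpow (by linarith) ha.le, Real.rpow_le_rpow (by linarith) htz ha.le, ?_⟩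
    have r1 := hT t (by linarith)
    have hv : 0 < Real.log t ^ a := Real.rpow_pos_of_pos (by linarith) a
    unfold R at r1
    rw [lt_div_iff₀ (div_pos hv (by linarith))] at r1
    refine le_trans ?_ r1.le
    rw [div_mul_eq_mul_div, ← mul_div_assoc]
    exact div_le_div_of_nonneg_left (mul_nonneg hc1 hv.le) (by linarith) htz

theorem upper (h : S_GR) {a b : ℝ} (ha : 0 < a) (hab : a < b) {c c1 : ℝ} (hc : c1 < c) (hc1 : 0 ≤ c1)
    (hT : ∀ᶠ t : ℝ in atTop, R t (Real.log t ^ a) < c1) :
    ∀ᶠ x : ℝ in atTop, R x (Real.log x ^ b) ≤ c := by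
  obtain ⟨T, hT⟩ := eventually_atTop.1 hT
  have e1 := ((tendsto_const_nhds (x := (1 : ℝ))).add (tend_k hab)).const_mul c1
  rw [add_zero, mul_one] at e1
  have e2 := (e1.comp Real.tendsto_log_atTop).eventually (eventually_lt_nhds hc)
  filter_upwards [ev_log b, e2, eventually_ge_atTop T] with x hx hx2 hx4
  obtain ⟨hx0, hx1, hxb⟩ := hx
  simp only [Function.comp_apply] at hx2
  have hL : 0 < Real.log x := by linarith
  have hY : 0 < Real.log x ^ b := Real.rpow_pos_of_pos hL b
  obtain ⟨z1, z2⟩ := log_z hx0 hx1 hxb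
  obtain ⟨z, hz⟩ : ∃ z, z = x + Real.log x ^ b := ⟨_, rfl⟩
  rw [← hz] at z1 z2
  have hzL : 0 < Real.log z := by linarith
  have k1 := kappa ha hx0 hx1 hxb
  rw [← hz] at k1
  have g := (h F F_mono x z (Real.log z ^ a) 1 (c1 / Real.log x) one_pos (div_nonneg hc1 hL.le)
    (by rw [hz]; linarith)).2 (fun t ht1 ht2 => ?_)
  · have g1 : R x (Real.log x ^ b) = (F z - F x) * (Real.log x / Real.log x ^ b) := by
      unfold R
      rw [← hz]
      field_simp
    rw [g1]
    have g2 : (F z - F x) * (Real.log x / Real.log x ^ b) ≤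
        c1 / Real.log x * (z - x + Real.log z ^ a) * (Real.log x / Real.log x ^ b) :=
      mul_le_mul_of_nonneg_right g (div_nonneg hL.le hY.le)
    refine le_trans g2 ?_
    have g3 : c1 / Real.log x * (z - x + Real.log z ^ a) * (Real.log x / Real.log x ^ b) =
        c1 * (1 + Real.log z ^ a / Real.log x ^ b) := by
      have : z - x = Real.log x ^ b := by rw [hz]; ring
      rw [this]
      field_simp
    rw [g3]
    refine le_trans (mul_le_mul_of_nonneg_left ?_ hc1) hx2.le
    linarith
  · have ht0 : 0 < t := by linarith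
    have htL : Real.log x ≤ Real.log t := Real.log_le_log hx0 ht1
    have htz : Real.log t ≤ Real.log z := Real.log_le_log ht0 ht2
    refine ⟨Real.log t ^ a, Real.one_le_rpow (by linarith) ha.le, Real.rpow_le_rpow (by linarith) htz ha.le, ?_⟩
    have r1 := hT t (by linarith)
    have hv : 0 < Real.log t ^ a := Real.rpow_pos_of_pos (by linarith) a
    unfold R at r1
    rw [div_lt_iff₀ (div_pos hv (by linarith))] at r1
    refine le_trans r1.le ?_
    rw [div_mul_eq_mul_div, ← mul_div_assoc]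
    exact div_le_div_of_nonneg_left (mul_nonneg hc1 hv.le) hL htL

end MO

open MO in
theorem t_MO (h : S_GR) : S_MO := by
  intro a b ha hab
  refine ⟨Lo_nonneg a, ?_, ?_⟩
  · rcases hab.eq_or_lt with rfl | hab
    · exact le_rfl
    refine EReal.ge_of_forall_gt_iff_ge.1 fun c hc => ?_
    rcases le_or_gt c 0 with h0 | h0
    · exact le_trans (by exact_mod_cast h0) (Lo_nonneg b)
    · obtain ⟨c1, hc1, hc2⟩ := EReal.lt_iff_exists_real_btwn.1 hc
      have hcc : c < c1 := by exact_mod_cast hc1
      have e1 := eventually_lt_of_lt_liminf hc2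
      have e2 := lower h ha hab hcc (by linarith) (e1.mono fun t ht => by exact_mod_cast ht)
      exact le_liminf_of_le (by isBoundedDefault) (e2.mono fun x hx => by exact_mod_cast hx)
  · rcases hab.eq_or_lt with rfl | hab
    · exact le_rfl
    refine EReal.le_of_forall_lt_iff_le.1 fun c hc => ?_
    obtain ⟨c1, hc1, hc2⟩ := EReal.lt_iff_exists_real_btwn.1 hc
    have hcc : c1 < c := by exact_mod_cast hc2
    have h0 : 0 ≤ Up a := (Lo_nonneg a).trans (liminf_le_limsup)
    have h1 : 0 ≤ c1 := by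
      have := h0.trans hc1.le
      exact_mod_cast this
    have e1 := eventually_lt_of_limsup_lt hc1
    have e2 := upper h ha hab hcc h1 (e1.mono fun t ht => by exact_mod_cast ht)
    exact limsup_le_of_le (by isBoundedDefault) (e2.mono fun x hx => by exact_mod_cast hx)

end Pool.Agent.N610.HX
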