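import Pool.Agent.N610.HX.Stm
import Pool.Agent.N610.MS.BON
import Pool.Agent.N610.MS.LEG
import Pool.Agent.N610.MS.CNT
import Pool.Agent.N610.MS.ROWS
import Pool.Agent.N610.MS.MAIN
import Pool.Agent.N610.MS.LIN

set_option autoImplicit false

/-!
# Project HX, part MR: Maier's theorem from project MS
-/

namespace Pool.Agent.N610.HX

open Finset Filter Topology

namespace MRaux

open MeasureTheory

theorem of_lin (hL : Pool.Agent.N610.MS.S_LIN) : S_MR := by
  intro a ha
  obtain ⟨δ, hδ, h⟩ := hL (Measure.dirac a) inferInstance (fun _ => 1) 1 a 1 a measurable_const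
    (fun t => by simp) (by linarith) one_pos
    (by rw [Measure.dirac_apply' _ measurableSet_Iio]; simp)
    (by rw [Measure.dirac_apply' _ measurableSet_Ioi]; simp)
    (fun t _ _ => zero_le_one)
    (fun κ hκ => by
      have h1 : (Measure.dirac a).restrict (Set.Icc a (a + κ)) = Measure.dirac a := by
        rw [MeasureTheory.restrict_dirac, if_pos ⟨le_rfl, by linarith⟩]
      rw [h1, integral_dirac]
      exact one_pos)
  have h' : ∀ᶠ X : ℝ in atTop,
      (∃ n : ℕ, X < n ∧ 1 + δ ≤ R n (Real.log n ^ a)) ∧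
      (∃ n : ℕ, X < n ∧ R n (Real.log n ^ a) ≤ 1 - δ) := by
    filter_upwards [h] with X hX
    obtain ⟨⟨n, h1, _, h2⟩, ⟨n', h3, _, h4⟩⟩ := hX
    rw [integral_dirac] at h2
    rw [integral_dirac] at h4
    rw [integral_dirac] at h2
    rw [integral_dirac] at h4
    rw [one_mul] at h2 h4
    exact ⟨⟨n, h1, h2⟩, ⟨n', h3, h4⟩⟩
  rw [eventually_atTop] at h'
  obtain ⟨X0, hX0⟩ := h'
  refine ⟨δ, hδ, ?_, ?_⟩
  · apply liminf_le_of_frequently_le'
    rw [frequently_atTop]
    intro b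
    obtain ⟨-, n, h1, h2⟩ := hX0 (max X0 b) (le_max_left _ _)
    exact ⟨n, (le_max_right X0 b).trans h1.le, EReal.coe_le_coe_iff.2 h2⟩
  · apply le_limsup_of_frequently_le'
    rw [frequently_atTop]
    intro b
    obtain ⟨⟨n, h1, h2⟩, -⟩ := hX0 (max X0 b) (le_max_left _ _)
    exact ⟨n, (le_max_right X0 b).trans h1.le, EReal.coe_le_coe_iff.2 h2⟩

end MRaux

/-- Maier's theorem -/
theorem t_MR : S_MR :=
  MRaux.of_lin (Pool.Agent.N610.MS.LIN.t_LIN (Pool.Agent.N610.MS.t_MAIN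
    (Pool.Agent.N610.MS.t_CNT Pool.Agent.N610.MS.t_BON
      (Pool.Agent.N610.MS.t_LEG Pool.Agent.N610.MS.t_BON))
    Pool.Agent.N610.MS.t_ROWS))

end Pool.Agent.N610.HX
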