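import Pool.Agent.N610.HX.Stm

set_option autoImplicit false

/-!
# Extremal windows are homogeneous: statements, second part (project HX, helper610)
-/

namespace Pool.Agent.N610.HX

open Finset Filter Topology

open Classical in
/-- The window `(x, x + Y]` is homogeneous with density `u` and error `ε` between the lengths `y₁` and
`y₂`: all but at most `ε Y` of its integers `n` satisfy `|R(n, y) - u| ≤ ε (1 + u)` for ALL real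
`y₁ ≤ y ≤ y₂`. -/
def HomW (u ε x Y y₁ y₂ : ℝ) : Prop :=
  (((Ioc ⌊x⌋₊ ⌊x + Y⌋₊).filter (fun n : ℕ => ¬ ∀ y : ℝ, y₁ ≤ y → y ≤ y₂ →
    |R n y - u| ≤ ε * (1 + u))).card : ℝ) ≤ ε * Y

/-- density increment: a window with many primes contains a homogeneous window with at least this
density -/
def S_INC : Prop := ∀ K ε A : ℝ, 1 ≤ K → 0 < ε → ε ≤ 1 → 1 ≤ A → ∃ B : ℝ, 0 < B ∧
  ∀ᶠ x : ℝ in atTop, ∀ Y : ℝ, Real.log x ^ B ≤ Y → Y ≤ x → 1 / 2 ≤ R x Y →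
    ∃ x' Y' y₀ u : ℝ, x ≤ x' ∧ x' + Y' ≤ x + Y ∧ Y ≤ Y' * Real.log x ^ B ∧
      Real.log x' ^ A ≤ y₀ ∧ K * y₀ ≤ Y' ∧ R x Y ≤ u ∧ HomW u ε x' Y' y₀ (K * y₀)

/-- density decrement: a window with few primes contains a homogeneous window with at most this
density -/
def S_DEC : Prop := ∀ K ε A : ℝ, 1 ≤ K → 0 < ε → ε ≤ 1 → 1 ≤ A → ∃ B : ℝ, 0 < B ∧
  ∀ᶠ x : ℝ in atTop, ∀ Y : ℝ, Real.log x ^ B ≤ Y → Y ≤ x → R x Y ≤ 1 →
    ∃ x' Y' y₀ u : ℝ, x ≤ x' ∧ x' + Y' ≤ x + Y ∧ Y ≤ Y' * B ∧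
      Real.log x' ^ A ≤ y₀ ∧ K * y₀ ≤ Y' ∧ 0 ≤ u ∧ u ≤ R x Y ∧ HomW u ε x' Y' y₀ (K * y₀)

/-- there are arbitrarily large homogeneous windows the density of which is at distance `≥ δ` from
`1`, at lengths larger than any power of the logarithm -/
def HW (δ : ℝ) : Prop := ∀ K ε A : ℝ, 1 ≤ K → 0 < ε → 1 ≤ A → ∃ᶠ x : ℝ in atTop,
  ∃ u y₀ Y : ℝ, 0 ≤ u ∧ δ ≤ |u - 1| ∧ Real.log x ^ A ≤ y₀ ∧ K * y₀ ≤ Y ∧ Y ≤ x ∧
    HomW u ε x Y y₀ (K * y₀)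

end Pool.Agent.N610.HX
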